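import Pool.Agent.Work.MP_ffcd14_ag.Uni.DefsU

/-!
# Families over a curve whose general fibre is a product of hypersurfaces and curves

`X` lies in a product of projective spaces.  The factor `b` maps it to a curve.  Over the open
part `g ≠ 0` of the curve the fibres are in bijection with products of the fibres of finitely many
families `Y j`, the images of `X` in the factors `b` and `γ j`.
-/

open MvPolynomial TopologicalSpace

namespace Pool.Agent.Work.MP_ffcd14_ag.Dg

universe u

variable {k : Type u} [Field k] {P : Amb}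

/-- The factor `b` maps `X` to a curve: a form in the coordinates of `b` which is not zero on `X`
has finitely many zeros on the image. -/
def Curve (X : Set (P.Pt k)) (b : P.ι) : Prop :=
  ∀ f c, IsForm f (Finsupp.single b c) → (∃ x ∈ X, ev x f ≠ 0) →
    {y | ∃ x ∈ X, ev x f = 0 ∧ x b = y}.Finite

/-- The data of one factor of the fibres: its projective coordinates `γ`, forms `u` of one degree
`a` (a map to `ℙ ^ m`) and two forms `s`, `s'` of degree `N • a`. -/
structure Fac (k : Type u) [Field k] (P : Amb) where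
  γ : P.ι
  m : ℕ
  N : ℕ
  a : P.ι →₀ ℕ
  u : Fin (m + 1) → MvPolynomial P.V k
  s : MvPolynomial P.V k
  s' : MvPolynomial P.V k
  pos : 0 < N
  hu : ∀ i, IsForm (u i) a
  hs : IsForm s (N • a)
  hs' : IsForm s' (N • a)

/-- `u q = c • u p`. -/
def Fac.Sc (F : Fac k P) (p q : P.Pt k) (c : k) : Prop := ∀ i, ev q (F.u i) = c * ev p (F.u i)

/-- On the fibres of `G` over the factor `b`, `u` is a finite map from the image in the factor `γ`
to `ℙ ^ m`, and two points with the same `u` and with `s p = s' q` are equal.  For `s' = s` the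
image is a hypersurface in `ℙ ^ (m + 1)` with coordinates `u`, `s`; for `s' = 0` it is a finite
cover of `ℙ ^ m` which is totally ramified along `s = 0`. -/
structure Fac.Ok (F : Fac k P) (G : Set (P.Pt k)) (b : P.ι) : Prop where
  ne : ∀ p ∈ G, ∃ i, ev p (F.u i) ≠ 0
  desc : ∀ p ∈ G, ∀ q ∈ G, p b = q b → p F.γ = q F.γ → ∃ c, F.Sc p q c
  fin : ∀ p ∈ G, {y | ∃ q ∈ G, ∃ c, p b = q b ∧ F.Sc p q c ∧ q F.γ = y}.Finite
  sep : ∀ p ∈ G, ∀ q ∈ G, ∀ c, p b = q b → F.Sc p q c → ev q F.s' = c ^ F.N * ev p F.s →
    p F.γ = q F.γ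

/-- `X` is irreducible and maps to a curve; over `g ≠ 0` the fibres inject into the product of the
factors, whose dimensions add up to the dimension of the fibres. -/
structure Fam (X : Var k P) (b : P.ι) {ι : Type} [Fintype ι] (F : ι → Fac k P)
    (g : MvPolynomial P.V k) : Prop where
  irr : IsIrreducible X.pts
  curve : Curve X.pts b
  form : ∃ c, IsForm g (Finsupp.single b c)
  ne : ∃ x ∈ X.pts, ev x g ≠ 0
  ok : ∀ j, (F j).Ok {x ∈ X.pts | ev x g ≠ 0} b
  inj : ∀ p ∈ X.pts, ∀ q ∈ X.pts, ev p g ≠ 0 → p b = q b → (∀ j, p (F j).γ = q (F j).γ) → p = q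
  dim : ∑ j, (F j).m + 1 = X.dim

end Pool.Agent.Work.MP_ffcd14_ag.Dg
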