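import Pool.Agent.Work.MP_ffcd14_ag.Dg.O2
import Pool.Agent.Work.MP_ffcd14_ag.Uni.Z6
import Pool.Agent.Work.MP_ffcd14_ag.Cyc.Glue

-- merged part: Pool.Agent.Work.MP_ffcd14_ag.Dg.C2
section
/-!
# Degenerations: from the components of the special fibre to the generic fibre

Plan.  `prim`: write `hy b = ∑ m T • cy T` (`n_div'`), for each `T` take `Y`; by `n_push` for `incl`
one has `nm Y U (pl y) = n * nm X U y` with `n > 0`.  The restriction of `y` to `Y` is primitive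
(`N0_iff_AL`; a class `cy Y U` of the wrong dimension gives zero by `nm_AA`, otherwise `cy X U` lies in
`V0 ⊓ AA n`).  So every term of the sum is non-negative, and if the sum is zero every restriction
is numerically trivial; then `y ∈ V1` (`Sp.over`).  `core`: `AL_part` for `ν`; `represent` on
`V0 ⊓ AA n` with the finitely many test classes of `NFin`; an element of the radical lies in
`V0 ⊓ V1` by `prim` and `V0_eta`, so it is orthogonal to `VV`.
-/

open MvPolynomial Topology TopologicalSpace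

namespace Pool.Agent.Work.MP_ffcd14_ag.Dg

set_option linter.unusedSectionVars false

universe u v w

variable {k : Type u} [Field k] [IsAlgClosed k] {K : Type v} [Field K] [CharZero K]
  {P : Amb} {C : NT.{u, v, w} k K} {X : Var k P} {b : P.ι} {s : MvPolynomial P.V k}

variable (C) in
/-- The conjecture holds on the components of the special fibre. -/
def Cmp (X : Var k P) (s : MvPolynomial P.V k) (l : EE C X) (n e : ℕ) : Prop :=
  ∀ T : Sub k P, (T : Set (P.Pt k)) ⊆ X.pts → sdim T + 1 = X.dim → Van (T : Set (P.Pt k)) s →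
    ∃ (Y : Var k P) (h : Y.pts ⊆ X.pts), Y.pts = T ∧ HN C Y (pl C (incl h) l) n e

variable (hC : C.Cyc)
include hC

theorem C2_push {Y : Var k P} (h : Y.pts ⊆ X.pts) {U : Sub k P} (hU : (U : Set (P.Pt k)) ⊆ Y.pts) :
    ∃ n : ℚ, 0 < n ∧ ∀ y, tau C Y (pl C (incl h) y * cy C Y U) = n * nm C X U y := by
  obtain ⟨n, h1, h2⟩ := n_push hC (incl h) hU
  have e : (incl h).img U = U := Crd.img_refl U
  rw [e] at h1 h2
  exact ⟨n, by exact_mod_cast h1.2 rfl, fun y => by rw [mul_comm, ← h2, nm_apply]⟩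

theorem C2_comp (hX : IsIrreducible X.pts) {l : EE C X} (hl : l ∈ AA C X 1) {n e : ℕ}
    (he : e + 2 * n + 1 = X.dim) {Y : Var k P} (hY : Y.pts ⊆ X.pts) {T : Sub k P}
    (hT : Y.pts = T) (hs : Van (T : Set (P.Pt k)) s) (hc : HN C Y (pl C (incl hY) l) n e)
    {y : EE C X} (hy : y ∈ AA C X n)
    (h : ∀ v ∈ V0 C X s, v ∈ AA C X n → tau C X (l ^ (e + 1) * y * v) = 0) :
    ((∀ U ≤ T, nm C X U y = 0) ∧ nm C X T (l ^ e * y * y) = 0) ∨
      0 < (-1) ^ n * nm C X T (l ^ e * y * y) := by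
  have hi : IsIrreducible Y.pts := hT ▸ T.isIrreducible
  have ht : Y.top hi = T := IrreducibleCloseds.ext hT
  obtain ⟨c, hc0, hc1⟩ := C2_push hC hY (U := T) hT.ge
  have hc2 := hc1 (l ^ e * y * y)
  rw [← ht, cy_top, mul_one, ht, map_mul (pl C _), map_mul (pl C _), map_pow] at hc2
  have hy' := AA_pl C (incl hY) hy
  have hp : N0 C Y (pl C (incl hY) l ^ (e + 1) * pl C (incl hY) y) := by
    refine (N0_iff_AL Y _).2 fun z hz => Desc_CS Y (tau C Y ∘ₗ LinearMap.mulLeft ℚ _)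
      (fun U hU _ => ?_) hz
    obtain ⟨d, -, hd⟩ := C2_push hC hY hU
    change tau C Y (_ * cy C Y U) = 0
    rw [← map_pow, ← map_mul, hd]
    refine mul_eq_zero_of_right _ ?_
    by_cases hdim : n + (e + 1) = sdim U
    · have hUX : (U : Set (P.Pt k)) ⊆ X.pts := hU.trans hY
      rw [nm_apply, mul_comm]
      refine h _ (num2_cy_mem X hUX fun x hx => hs x (hT.le (hU hx))) ?_
      rw [AA_eq_CS C X hX]
      exact num2_cy_mem X hUX (by omega)
    · exact nm_AA C X hX U (glue_pow hl hy _) hdim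
  by_cases h0 : N0 C Y (pl C (incl hY) y)
  · refine Or.inl ⟨fun U hU => ?_, ?_⟩
    · obtain ⟨d, hd0, hd⟩ := C2_push hC hY (U := U) fun x hx => hT.ge (hU hx)
      have := hd y
      rw [(N0_iff_AL Y _).1 h0 _ (cy_AL Y U)] at this
      exact (mul_eq_zero.1 this.symm).resolve_left hd0.ne'
    · rw [mul_comm, h0 _ _ (glue_pow (AA_pl C (incl hY) hl) hy' e)] at hc2
      exact (mul_eq_zero.1 hc2.symm).resolve_left hc0.ne'
  · have := hc _ hy' hp h0
    rw [hc2, mul_left_comm] at this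
    exact Or.inr ((mul_pos_iff_of_pos_left hc0).1 this)

theorem prim (S : Sp X b s) {l : EE C X} (hl : l ∈ AA C X 1) {n e : ℕ}
    (he : e + 2 * n + 1 = X.dim) (hc : Cmp C X s l n e) {y : EE C X} (hy : y ∈ AA C X n)
    (h : ∀ v ∈ V0 C X s, v ∈ AA C X n → tau C X (l ^ (e + 1) * y * v) = 0) :
    y ∈ V1 C X s ∨ 0 < (-1) ^ n * tau C X (MP_ffcd14_ag.hy C X b * (l ^ e * y * y)) := by
  obtain ⟨r, m, h1, h2, h3⟩ := n_div' hC X (Z := X.top S.irr) (fun _ hx => hx) S.form S.nv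
  rw [cy_top, one_mul, ln_single] at h3
  simp only [X.sdim_top] at h1
  have key : ∀ T ∈ r, ((∀ U ≤ T, nm C X U y = 0) ∧ nm C X T (l ^ e * y * y) = 0) ∨
      0 < (-1) ^ n * nm C X T (l ^ e * y * y) := by
    intro T hT
    obtain ⟨a1, a2, a3⟩ := (h1 T).1 hT
    obtain ⟨Y, hY, b1, b2⟩ := hc T (fun _ hx => a1 hx) a2 a3
    exact C2_comp hC S.irr hl he hY b1 a3 b2 hy h
  by_cases hz : ∀ T ∈ r, ∀ U ≤ T, nm C X U y = 0
  · refine Or.inl ⟨AA_le_CS C X n hy, fun v hv => ?_⟩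
    refine Desc_CS X (tau C X ∘ₗ LinearMap.mulLeft ℚ y) (fun U hU hs => ?_) hv
    obtain ⟨T, a1, a2, a3, a4⟩ := S.over hU hs
    change tau C X (y * cy C X U) = 0
    rw [mul_comm]
    exact hz T ((h1 T).2 ⟨fun _ hx => a2 hx, a3, a4⟩) U a1
  · right
    rw [Desc_tau X h3, Finset.mul_sum]
    refine Finset.sum_pos' (fun T hT => ?_) ?_
    · rw [mul_left_comm]
      refine mul_nonneg (h2 T hT).le ?_
      rcases key T hT with a | a
      · rw [a.2, mul_zero]
      · exact a.le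
    · by_contra hne
      refine hz fun T hT => ((key T hT).resolve_right fun a => hne ⟨T, hT, ?_⟩).1
      rw [mul_left_comm]
      exact mul_pos (h2 T hT) a

theorem core (hF : NFin C) (S : Sp X b s) {l : EE C X} (hl : l ∈ AA C X 1) {n e : ℕ}
    (he : e + 2 * n + 1 = X.dim) (hc : Cmp C X s l n e) {x ν : EE C X} (hx : x ∈ AA C X n)
    (hν : ν ∈ NN C X b) (h : l ^ (e + 1) * (x - ν) ∈ VV C X s) (h0 : x ∉ NN C X b) :
    0 < (-1) ^ n * tau C X (hy C X b * (l ^ e * x * x)) := by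
  obtain ⟨ν', hν', hν2⟩ := AL_part X hν.1 n
  have hη : hy C X b ∈ AA C X 1 := ln_single C X b ▸ glue_ln X _
  have hνN : ν' ∈ NN C X b := by
    refine ⟨AA_le_CS C X n hν', (N0_iff_AL X _).1 ((N0_iff C X (c' := n + e) (by omega)
      (AA_mul C X hη hν')).2 fun z hz => ?_)⟩
    rw [mul_right_comm, mul_comm, ← hν2 _ (by omega) _ (AA_mul C X hη hz),
      ← hν.2 z (AA_le_CS C X _ hz)]
    exact congrArg _ (by ring)
  obtain ⟨ρ, ε, hε, hsp, -⟩ := hF X n (n + (e + 1)) (by omega)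
  let W : Submodule ℚ (EE C X) := V0 C X s ⊓ AA C X n
  let L : W →ₗ[ℚ] EE C X := LinearMap.mulLeft ℚ (l ^ (e + 1)) ∘ₗ W.subtype
  let B : W →ₗ[ℚ] W →ₗ[ℚ] ℚ := ((LinearMap.mul ℚ (EE C X)).compl₁₂ L W.subtype).compr₂ (tau C X)
  have hB : ∀ u v : W, B u v = tau C X (l ^ (e + 1) * u * v) := fun _ _ => rfl
  let q : W →ₗ[ℚ] (Fin ρ → ℚ) :=
    LinearMap.pi fun j => tau C X ∘ₗ LinearMap.mulRight ℚ (ε j) ∘ₗ L
  have hq : ∀ (u : W) j, q u j = tau C X (l ^ (e + 1) * u * ε j) := fun _ _ => rfl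
  let φ : W →ₗ[ℚ] ℚ := tau C X ∘ₗ LinearMap.mulLeft ℚ (l ^ (e + 1) * (x - ν')) ∘ₗ W.subtype
  have hφ : ∀ u : W, φ u = tau C X (l ^ (e + 1) * (x - ν') * u) := fun _ => rfl
  obtain ⟨y0, hy0⟩ := represent B (fun u v => by rw [hB, hB, mul_right_comm]) q
    (fun u hu => LinearMap.ext fun v => by
      obtain ⟨t, ht⟩ := hsp v v.2.2
      have a1 := ht _ _ (glue_pow hl u.2.2 (e + 1))
      have a2 : ∀ j, tau C X (l ^ (e + 1) * u * ε j) = 0 := fun j => by
        rw [← hq, hu]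
        rfl
      rw [mul_comm, mul_sub, map_sub, Finset.mul_sum, map_sum,
        Finset.sum_eq_zero fun j _ => by rw [mul_smul_comm, map_smul, a2, smul_zero],
        sub_zero] at a1
      exact a1) φ
    (fun u hu => by
      have a1 : (u : EE C X) ∈ V1 C X s := by
        refine (prim hC S hl he hc u.2.2 fun v hv hv' => ?_).resolve_right fun a => ?_
        · exact LinearMap.congr_fun hu ⟨v, hv, hv'⟩
        · rw [mul_left_comm (hy C X b), V0_eta hC S u.2.1] at a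
          simp at a
      have a2 : tau C X (l ^ (e + 1) * (x - ν) * u) = 0 := by
        obtain ⟨w0, hw0, w1, hw1, hw⟩ := Submodule.mem_sup.1 h
        rw [← hw, add_mul, map_add, hw1.2 _ u.2.1, mul_comm, a1.2 _ hw0, add_zero]
      have a3 := hν2 _ (by omega) _ (glue_pow hl u.2.2 (e + 1))
      have a4 : l ^ (e + 1) * (x - ν') * u =
          l ^ (e + 1) * (x - ν) * u + (ν * (l ^ (e + 1) * u) - ν' * (l ^ (e + 1) * u)) := by ring
      rw [hφ, a4, map_add, a2, map_sub, a3, sub_self, add_zero])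
  have hμ : ν' + y0 ∈ NN C X b :=
    add_mem hνN (VV_le_NN hC S (Submodule.mem_sup_left y0.2.1))
  have hx' : x - (ν' + y0) ∈ AA C X n := sub_mem hx (add_mem hν' y0.2.2)
  rcases prim hC S hl he hc hx' (fun v hv hv' => by
    have a1 := hy0 ⟨v, hv, hv'⟩
    rw [hB, hφ] at a1
    have a2 : l ^ (e + 1) * (x - (ν' + y0)) * v =
      l ^ (e + 1) * (x - ν') * v - l ^ (e + 1) * y0 * v := by ring
    rw [a2, map_sub, ← a1, sub_self]) with a | a
  · refine absurd ?_ h0
    have := add_mem (VV_le_NN hC S (Submodule.mem_sup_right a)) hμ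
    rwa [sub_add_cancel] at this
  · have a1 := hμ.2 _ (AA_le_CS C X _ (glue_pow hl (add_mem hx hx') e))
    have a2 : hy C X b * (l ^ e * (x - (ν' + y0)) * (x - (ν' + y0))) = hy C X b * (l ^ e * x * x)
      - hy C X b * (ν' + y0) * (l ^ e * (x + (x - (ν' + y0)))) := by ring
    rwa [a2, map_sub, a1, sub_zero] at a

end Pool.Agent.Work.MP_ffcd14_ag.Dg
end

-- merged part: Pool.Agent.Work.MP_ffcd14_ag.Dg.C3
section
/-!
# Degenerations: divisors which are numerically trivial on the generic fibre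

Such a divisor is, up to a combination of the components of the special fibre, numerically
trivial on the special fibre.
-/

open MvPolynomial Topology TopologicalSpace

namespace Pool.Agent.Work.MP_ffcd14_ag.Dg

set_option linter.unusedSectionVars false

universe u v w

variable {k : Type u} [Field k] [IsAlgClosed k] {K : Type v} [Field K] [CharZero K]
  {P : Amb} {C : NT.{u, v, w} k K} {X : Var k P} {b : P.ι} {s : MvPolynomial P.V k}
  (hC : C.Cyc)
include hC

theorem C3_solve (hF : NFin C) (S : Sp X b s) {l : EE C X} (hl : l ∈ AA C X 1) {n e : ℕ}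
    (he : e + 2 * n + 1 = X.dim) (hc : Cmp C X s l n e) {x : EE C X} (hx : x ∈ AA C X n)
    (h : ∀ u ∈ V0 C X s, u ∈ V1 C X s → u ∈ AA C X n → tau C X (l ^ (e + 1) * x * u) = 0) :
    ∃ y ∈ V0 C X s, y ∈ AA C X n ∧ (x - y ∈ V1 C X s ∨
      0 < (-1) ^ n * tau C X (hy C X b * (l ^ e * (x - y) * (x - y)))) := by
  obtain ⟨ρ, ε, hε, hsp, -⟩ := hF X n (n + (e + 1)) (by omega)
  let W : Submodule ℚ (EE C X) := V0 C X s ⊓ AA C X n
  let L : W →ₗ[ℚ] EE C X := LinearMap.mulLeft ℚ (l ^ (e + 1)) ∘ₗ W.subtype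
  let B : W →ₗ[ℚ] W →ₗ[ℚ] ℚ := ((LinearMap.mul ℚ (EE C X)).compl₁₂ L W.subtype).compr₂ (tau C X)
  have hB : ∀ u v : W, B u v = tau C X (l ^ (e + 1) * u * v) := fun _ _ => rfl
  let q : W →ₗ[ℚ] (Fin ρ → ℚ) :=
    LinearMap.pi fun j => tau C X ∘ₗ LinearMap.mulRight ℚ (ε j) ∘ₗ L
  have hq : ∀ (u : W) j, q u j = tau C X (l ^ (e + 1) * u * ε j) := fun _ _ => rfl
  let φ : W →ₗ[ℚ] ℚ := tau C X ∘ₗ LinearMap.mulLeft ℚ (l ^ (e + 1) * x) ∘ₗ W.subtype
  have hφ : ∀ u : W, φ u = tau C X (l ^ (e + 1) * x * u) := fun _ => rfl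
  obtain ⟨y0, hy0⟩ := represent B (fun u v => by rw [hB, hB, mul_right_comm]) q
    (fun u hu => LinearMap.ext fun v => by
      obtain ⟨t, ht⟩ := hsp v v.2.2
      have a1 := ht _ _ (glue_pow hl u.2.2 (e + 1))
      have a2 : ∀ j, tau C X (l ^ (e + 1) * u * ε j) = 0 := fun j => by
        rw [← hq, hu]
        rfl
      rw [mul_comm, mul_sub, map_sub, Finset.mul_sum, map_sum,
        Finset.sum_eq_zero fun j _ => by rw [mul_smul_comm, map_smul, a2, smul_zero],
        sub_zero] at a1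
      exact a1) φ
    (fun u hu => by
      refine h u u.2.1 ((prim hC S hl he hc u.2.2 fun v hv hv' => ?_).resolve_right fun a => ?_)
        u.2.2
      · exact LinearMap.congr_fun hu ⟨v, hv, hv'⟩
      · rw [mul_left_comm (hy C X b), V0_eta hC S u.2.1] at a
        simp at a)
  refine ⟨y0, y0.2.1, y0.2.2, prim hC S hl he hc (sub_mem hx y0.2.2) fun v hv hv' => ?_⟩
  have a1 := hy0 ⟨v, hv, hv'⟩
  rw [hB, hφ] at a1
  rw [mul_sub, sub_mul, map_sub, ← a1, sub_self]

theorem div_VV (hF : NFin C) (S : Sp X b s) (h3 : 3 ≤ X.dim) {D : EE C X} (hD : D ∈ AA C X 1)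
    (hN : D ∈ NN C X b) : D ∈ VV C X s := by
  obtain ⟨e, he⟩ : ∃ e, e + 2 * 1 + 1 = X.dim := ⟨X.dim - 3, by omega⟩
  obtain ⟨a, ha⟩ : ∃ a : P.ι →₀ ℕ, ∀ i, 0 < a i :=
    ⟨Finsupp.equivFunOnFinite.symm 1, fun _ => Nat.one_pos⟩
  have hη : hy C X b ∈ AA C X 1 := ln_single C X b ▸ glue_ln X _
  have hA := glue_ln (C := C) X a
  have hp : ∀ j, ∀ y ∈ AA C X 1, ln C X a ^ j * y ∈ AL C X := fun j y h =>
    AA_le_CS C X _ (glue_pow hA h j)
  obtain ⟨y, h1, h2, h4⟩ := C3_solve hC hF S hA he (fun T h1 h2 h3 => by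
    obtain ⟨Y, hY⟩ := S.sm T h1 h2 h3
    have hi : IsIrreducible Y.pts := hY ▸ T.isIrreducible
    have := Y.sdim_top hi
    rw [show Y.top _ = T from IrreducibleCloseds.ext hY] at this
    refine ⟨Y, hY ▸ h1, hY, ?_⟩
    rw [pl_ln, show a.mapDomain (incl (hY ▸ h1 : Y.pts ⊆ X.pts)).ψ = a from Finsupp.mapDomain_id]
    exact hn_one hC Y hi (by omega) ha) hD (fun u u0 u1 ua => by
    obtain ⟨r, m, h1, h2, h3⟩ := n_div' hC X (Z := X.top S.irr) (fun _ hx => hx) S.form S.nv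
    rw [cy_top, one_mul, ln_single] at h3
    simp only [X.sdim_top] at h1
    rcases r.eq_empty_or_nonempty with rfl | hr
    · have : u ∈ (⊥ : Submodule ℚ (EE C X)) :=
        num2_CS_map X LinearMap.id ⊥ (fun U hU hs => by
          obtain ⟨T, -, a2, a3, a4⟩ := S.over hU hs
          exact absurd ((h1 T).2 ⟨fun _ hx => a2 hx, a3, a4⟩) (Finset.notMem_empty T)) u0
      rw [(Submodule.mem_bot ℚ).1 this, mul_zero, map_zero]
    have hα : 0 < tau C X (hy C X b * ln C X a ^ (e + 2)) := by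
      rw [Desc_tau X h3]
      refine Finset.sum_pos (fun T hT => mul_pos (h2 T hT) ?_) hr
      obtain ⟨a1, a2, -⟩ := (h1 T).1 hT
      have := nm_pos (C := C) hC X (Crd.refl k P) (Crd.refl k P) (Z := T) (fun _ hx => a1 hx)
        (fun U _ => by rw [Crd.img_refl]) ha ha 0 (e + 2) (Nat.zero_le _) (by omega)
      rwa [pow_zero, one_mul, show a.mapDomain (Crd.refl k P).ψ = a from Finsupp.mapDomain_id]
        at this
    have e1 : hy C X b * u = 0 := V0_eta hC S u0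
    have e2 : hy C X b * hy C X b = 0 := V0_eta hC S (eta_V0 hC S)
    have e4 : ln C X a ^ (e + 1) ∈ Alg C X S.irr := Subalgebra.pow_mem _ (mem_Alg.2 (ln_AL X a)) _
    have e3 : tau C X (ln C X a ^ (e + 1) * u * u) = 0 := by
      rw [mul_comm]
      exact u1.2 _ (V0_mul hC S.irr e4 u0)
    have h7 := hN.2 _ e4
    generalize hy C X b = η at *
    set α := tau C X (η * ln C X a ^ (e + 2)) with hα'
    set β := tau C X (u * ln C X a ^ (e + 2)) with hβ
    have h5 := hi_strict hC X S.irr (e + 1) (by omega) ha (D := α • u - β • η)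
      (sub_mem (Submodule.smul_mem _ _ ua) (Submodule.smul_mem _ _ hη)) (by
        rw [mul_sub, map_sub, mul_smul_comm, mul_smul_comm, map_smul, map_smul, mul_comm _ u,
          mul_comm _ η, ← hβ, ← hα', smul_eq_mul, smul_eq_mul, mul_comm, sub_self]) (by
        have : ln C X a ^ (e + 1) * (α • u - β • η) * (α • u - β • η) =
            (α * α) • (ln C X a ^ (e + 1) * u * u) - (2 * α * β) • (ln C X a ^ (e + 1) * (η * u)) +
              (β * β) • (ln C X a ^ (e + 1) * (η * η)) := by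
          simp only [Algebra.smul_def, map_mul, map_ofNat]
          ring
        rw [this, e1, e2, mul_zero, smul_zero, smul_zero, sub_zero, add_zero, map_smul, e3,
          smul_zero])
    have h6 := (N0_iff_AL X _).1 h5 _ (hp (e + 1) D hD)
    rw [sub_mul, smul_mul_assoc, smul_mul_assoc, map_sub, map_smul, map_smul, mul_comm _ D,
      ← mul_assoc η, h7, smul_zero, sub_zero, smul_eq_mul, mul_comm u, mul_comm D] at h6
    exact (mul_eq_zero.1 h6).resolve_left hα.ne')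
  rcases h4 with h4 | h4
  · exact add_sub_cancel y D ▸ Submodule.add_mem_sup h1 h4
  · have := (sub_mem hN (VV_le_NN hC S (Submodule.mem_sup_left h1))).2 _ (hp e _ (sub_mem hD h2))
    rw [mul_assoc, mul_comm (D - y)] at this
    rw [this, mul_zero] at h4
    exact h4.false.elim

end Pool.Agent.Work.MP_ffcd14_ag.Dg
end

-- merged part: Pool.Agent.Work.MP_ffcd14_ag.Dg.G2
section
/-!
# Degenerations: existence of the join

Plan.  Write `p`, `q` for `cp.pr z`, `cq.pr z`.  `Y`: `exists_gc` for the diagonal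
`(Crd.diag k P).img (X.top _)` and the forms `(u p, u p)`; the forms `rho'` vanish on `Y` because
`F t * r (inl i) = F (inl i) * r t = F (inr i) * r t = F t * r (inr i)` (`Van.mul`).  Choose for every
`i` an index `s i` such that `u i (s i)` does not vanish on `X` (`Fac.Ok.ne`), a point `p₀` of `X` at
which `g` and all these forms are not zero (`not_van_prod`), a point `p₁` with another base point
and a minor `f = b s (p) b t (q) - b t (p) b s (q)` which is not zero at `(p₀, p₁)`.  `krg_fin` in the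
irreducible `Om X X m` through `Y` for the forms `f`; `u i (s i) (p) u i t (q) - u i t (p) u i (s i) (q)`
for `i ≠ j`, `t ≠ s i`; `r (inl s₀) u t (p) - r (inl t) u s₀ (p)` and the same for `inr`, `q`
(`t ≠ s₀ = s j`): these are `1 + ∑ i ≠ j, m i + 2 m j` forms; index `t` by `Fin.succAbove`.  Then
`exists_mid` (`sdim Y = X.dim` by `OnGraph.sdim_eq`).  `base`, `oth`: `diag_eq` at a point of `Y` over
`p₀`, with `blk b` and with the pair `(blk γ, blk b)`; finiteness from `Curve` (the form `f (p₀, ·)`)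
and from `Fac.Ok.desc`, `Fac.Ok.fin`.  `m1`, `m2`: multiply by `u s₀`, which does not vanish on `J`.
-/

open MvPolynomial Topology TopologicalSpace

namespace Pool.Agent.Work.MP_ffcd14_ag.Dg

set_option linter.unusedSectionVars false

universe u v w

variable {k : Type u} [Field k] [IsAlgClosed k] {P : Amb} {X : Var k P} {b : P.ι} {ι : Type}
  [Fintype ι] {F : ι → Fac k P} {g : MvPolynomial P.V k}

theorem G2_sub {Q : Amb} (x : Q.Pt k) (f f' : MvPolynomial Q.V k) :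
    ev x (f - f') = ev x f - ev x f' := map_sub (eval (rp x)) f f'

/-- The lift of the diagonal. -/
theorem G2_Y (hX : IsIrreducible X.pts) (F : Fac k P) {s₀ : Fin (F.m + 1)}
    (h : ¬ Van X.pts (F.u s₀)) : ∃ Y : Sub k (PJ P F.m), sdim Y = X.dim ∧
      ((cp k P F.m).img Y : Set (P.Pt k)) = X.pts ∧
      (∀ z ∈ Y, (cp k P F.m).pr z = (cq k P F.m).pr z) ∧
      ∀ z ∈ Y, ∀ s t : Fin (F.m + 1) ⊕ Fin (F.m + 1),
        ev ((cp k P F.m).pr z) (F.u (Sum.elim id id s)) * ev z (rv k P t) =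
          ev ((cp k P F.m).pr z) (F.u (Sum.elim id id t)) * ev z (rv k P s) := by
  let Δ := (Crd.diag k P).img (X.top hX)
  let F₀ : (QA F.m).V → MvPolynomial (P.sum P).V k := fun s =>
    rename (Crd.inl k P P).ε (F.u (Sum.elim id id s.2))
  have hF : ∀ s : (QA F.m).V, IsForm (F₀ s)
      ((fun _ => F.a.mapDomain (Crd.inl k P P).ψ : (QA F.m).ι → _) s.1) :=
    fun s => (Crd.inl k P P).form (F.hu _)
  have hΔ : (Crd.inl k P P).img Δ = X.top hX :=
    (Crd.img_comp _ _ _).symm.trans ((Crd.img_congr ((Crd.inl k P P).comp (Crd.diag k P))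
      (Crd.refl k P) fun _ _ => rfl).trans (Crd.img_refl _))
  have hd : DefOn (Δ : Set ((P.sum P).Pt k)) F₀ := fun _ => ⟨Sum.inl s₀, fun hv => h (by
    have := ((Crd.inl k P P).van_img (F.hu s₀)).2 hv
    rwa [hΔ] at this)⟩
  obtain ⟨Y, h1, h2⟩ := exists_gc (b := fun _ => F.a.mapDomain (Crd.inl k P P).ψ) Δ hF hd
  refine ⟨Y, ?_, ?_, fun z hz => ?_, fun z hz s t => ?_⟩
  · rw [h2.sdim_eq (b := fun _ => F.a.mapDomain (Crd.inl k P P).ψ) hF (h1 ▸ hd), h1, sdim_img_of_inj (Crd.diag k P) fun x _ y _ e =>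
      congrArg (Crd.inl k P P).pr e, X.sdim_top hX]
  · rw [cp, Crd.img_comp, h1, hΔ]
    rfl
  · have := (Crd.inl k (P.sum P) (QA F.m)).mem_img hz
    rw [h1] at this
    obtain ⟨x, -, e⟩ := (Crd.diag k P).mem_img_iff.1 this
    exact (congrArg (Crd.inl k P P).pr e).symm.trans (congrArg (Crd.inr k P P).pr e)
  · have := h2 () s t z hz
    rw [ev_minor, sub_eq_zero, Crd.ev_rename, Crd.ev_rename] at this
    simp only [rv, ev_X]
    exact this

theorem G2_minor {x z : P.Pt k} {b : P.ι} (h : x b ≠ z b) : ∃ s t : P.σ b,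
    (x b).rep s * (z b).rep t - (x b).rep t * (z b).rep s ≠ 0 := by
  by_contra hc
  push Not at hc
  refine h ?_
  rw [← (x b).mk_rep, ← (z b).mk_rep]
  exact HI_mk_eq _ _ fun s t => sub_eq_zero.1 (hc s t)

theorem G2_card (h : Fam X b F g) (j : ι) [DecidableEq ι] :
    Fintype.card (Unit ⊕ (Σ i : {i // i ≠ j}, Fin (F i).m) ⊕ Fin (F j).m ⊕ Fin (F j).m) =
      X.dim + (F j).m := by
  have h1 := Finset.add_sum_erase Finset.univ (fun i => (F i).m) (Finset.mem_univ j)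
  have h2 : ∑ i ∈ Finset.univ.erase j, (F i).m = ∑ i : {i // i ≠ j}, (F i).m :=
    Finset.sum_subtype _ (by simp) _
  have h3 := h.dim
  simp only [Fintype.card_sum, Fintype.card_sigma, Fintype.card_fin, Fintype.card_unit]
  omega

theorem exists_jn (h : Fam X b F g) (hb : ∃ x ∈ X.pts, ∃ y ∈ X.pts, x b ≠ y b) (j : ι) :
    ∃ J Y, Jn X b F g j J Y := by
  classical
  have hX := h.irr
  obtain ⟨c, hg⟩ := h.form
  obtain ⟨x₀, hx₀, hg₀⟩ := h.ne
  choose s hs using fun i => (h.ok i).ne x₀ ⟨hx₀, hg₀⟩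
  obtain ⟨p₁, hp₁, hne⟩ : ∃ p₁ ∈ X.pts, x₀ b ≠ p₁ b := by
    obtain ⟨x, hx, y, hy, hxy⟩ := hb
    by_cases e : x₀ b = x b
    · exact ⟨y, hy, e ▸ hxy⟩
    · exact ⟨x, hx, e⟩
  obtain ⟨σ, τ, hστ⟩ := G2_minor hne
  obtain ⟨Y, hYd, hYt, hYe, hYm⟩ := G2_Y hX (F j) (s₀ := s j) fun hv => hs j (hv x₀ hx₀)
  set p := cp k P (F j).m with hp
  set q := cq k P (F j).m with hq
  have hYX : ∀ z ∈ Y, p.pr z ∈ X.pts := fun z hz => hYt ▸ p.mem_img hz
  obtain ⟨z₀, hz₀, e₀⟩ : ∃ z ∈ Y, p.pr z = x₀ := p.mem_img_iff.1 (by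
    change x₀ ∈ (p.img Y : Set (P.Pt k))
    rwa [hYt])
  let mn : MvPolynomial P.V k → MvPolynomial P.V k → MvPolynomial (PJ P (F j).m).V k :=
    fun f f' => rename p.ε f * rename q.ε f' - rename p.ε f' * rename q.ε f
  have hmn : ∀ f f' z, ev z (mn f f') =
      ev (p.pr z) f * ev (q.pr z) f' - ev (p.pr z) f' * ev (q.pr z) f := fun f f' z => by
    simp only [mn, G2_sub, ev_mul, Crd.ev_rename]
  have hmf : ∀ f f' a, IsForm f a → IsForm f' a → ∃ a', IsForm (mn f f') a' := fun f f' a h1 h2 =>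
    ⟨_, IsWeightedHomogeneous.sub ((p.form h1).mul (q.form h2)) ((p.form h2).mul (q.form h1))⟩
  let m1 : Fin ((F j).m + 1) → Fin ((F j).m + 1) → MvPolynomial (PJ P (F j).m).V k := fun s t =>
    rv k P (Sum.inl s) * rename p.ε ((F j).u t) - rv k P (Sum.inl t) * rename p.ε ((F j).u s)
  let m2 : Fin ((F j).m + 1) → Fin ((F j).m + 1) → MvPolynomial (PJ P (F j).m).V k := fun s t =>
    rv k P (Sum.inr s) * rename q.ε ((F j).u t) - rv k P (Sum.inr t) * rename q.ε ((F j).u s)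
  have f1 : ∀ s t, ∃ a, IsForm (m1 s t) a := fun s t => ⟨_, IsWeightedHomogeneous.sub
    ((rv_form _).mul (p.form ((F j).hu t))) ((rv_form (Sum.inl t)).mul (p.form ((F j).hu s)))⟩
  have f2 : ∀ s t, ∃ a, IsForm (m2 s t) a := fun s t => ⟨_, IsWeightedHomogeneous.sub
    ((rv_form _).mul (q.form ((F j).hu t))) ((rv_form (Sum.inr t)).mul (q.form ((F j).hu s)))⟩
  let f : Unit ⊕ (Σ i : {i // i ≠ j}, Fin (F i).m) ⊕ Fin (F j).m ⊕ Fin (F j).m →
      MvPolynomial (PJ P (F j).m).V k :=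
    Sum.elim (fun _ => mn (MvPolynomial.X ⟨b, σ⟩) (MvPolynomial.X ⟨b, τ⟩))
      (Sum.elim (fun i => mn ((F i.1).u (s i.1)) ((F i.1).u ((s i.1).succAbove i.2)))
        (Sum.elim (fun t => m1 (s j) ((s j).succAbove t)) fun t => m2 (s j) ((s j).succAbove t)))
  have hYO : Y ≤ (Om X X (F j).m).top (om_irr hX hX _) := fun z hz =>
    mem_om.2 ⟨hYX z hz, hYe z hz ▸ hYX z hz⟩
  obtain ⟨T, hYT, hTO, hT, hd⟩ := krg_fin hYO f (by
      rintro (_ | i | t | t)
      · exact hmf _ _ _ (IsForm.X ⟨b, σ⟩) (IsForm.X ⟨b, τ⟩)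
      · exact hmf _ _ _ ((F i.1).hu _) ((F i.1).hu _)
      · exact f1 _ _
      · exact f2 _ _) (by
      rintro (_ | i | t | t) z hz
      · change ev z (mn _ _) = 0
        rw [hmn, ← hYe z hz]
        ring
      · change ev z (mn _ _) = 0
        rw [hmn, ← hYe z hz]
        ring
      · have := hYm z hz (Sum.inl (s j)) (Sum.inl ((s j).succAbove t))
        change ev z (m1 _ _) = 0
        simp only [m1, G2_sub, ev_mul, Crd.ev_rename, Sum.elim_inl, id] at this ⊢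
        linear_combination -this
      · have := hYm z hz (Sum.inr (s j)) (Sum.inr ((s j).succAbove t))
        change ev z (m2 _ _) = 0
        simp only [m2, G2_sub, ev_mul, Crd.ev_rename, Sum.elim_inr, id, ← hYe z hz] at this ⊢
        linear_combination -this)
  rw [Var.sdim_top, om_dim, G2_card h j] at hd
  obtain ⟨J, hYJ, hJT, hJd⟩ := exists_mid hYT (n := X.dim + (F j).m + 1) (by omega) (by omega)
  have hJO : ∀ z ∈ J, p.pr z ∈ X.pts ∧ q.pr z ∈ X.pts := fun z hz => mem_om.1 (hTO (hJT hz))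
  have hi : p.img J ≤ p.img Y := by
    change (p.img J : Set (P.Pt k)) ⊆ p.img Y
    rw [hYt]
    exact (p.img_sub X.closed).2 fun z hz => (hJO z hz).1
  have hbase : ∀ z ∈ J, p.pr z b = q.pr z b := fun z hz => by
    refine congrFun (diag_eq ((blk k P b).comp p) ((blk k P b).comp q) hYJ
      (fun z hz => congrArg (blk k P b).pr (hYe z hz)) ?_ (hYJ hz₀) ?_ z hz) ()
    · rw [Crd.img_comp, Crd.img_comp]
      exact Crd.img_mono _ hi
    · have hf : IsForm (C ((x₀ b).rep σ) * MvPolynomial.X ⟨b, τ⟩ -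
          C ((x₀ b).rep τ) * MvPolynomial.X ⟨b, σ⟩ : MvPolynomial P.V k) (Finsupp.single b 1) :=
        IsWeightedHomogeneous.sub ((IsForm.X ⟨b, τ⟩).C_mul _) ((IsForm.X ⟨b, σ⟩).C_mul _)
      have hC : ∀ (y : P.Pt k) (r : k), ev y (C r) = r := fun y r => eval_C r
      refine ((h.curve _ _ hf ⟨p₁, hp₁, by
        simpa only [G2_sub, ev_mul, hC, ev_X] using hστ⟩).image fun y _ => y).subset ?_
      rintro _ ⟨z, hz, e, rfl⟩
      have e' : p.pr z b = x₀ b := e₀ ▸ congrFun e ()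
      have := hT (Sum.inl ()) z (hJT hz)
      change ev z (mn _ _) = 0 at this
      refine ⟨q.pr z b, ⟨q.pr z, (hJO z hz).2, ?_, rfl⟩, rfl⟩
      simp only [hmn, ev_X, e'] at this
      simpa only [G2_sub, ev_mul, hC, ev_X] using this
  have hu : ∀ t, ¬ Van (J : Set ((PJ P (F j).m).Pt k)) (rename p.ε ((F j).u (s j))) ∧
      ¬ Van (J : Set ((PJ P (F j).m).Pt k)) (rename q.ε ((F j).u (s j))) ∧
      Van (J : Set ((PJ P (F j).m).Pt k)) (m1 (s j) t) ∧
      Van (J : Set ((PJ P (F j).m).Pt k)) (m2 (s j) t) := fun t => by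
    refine ⟨fun hv => hs j ?_, fun hv => hs j ?_, ?_⟩
    · rw [← e₀, ← p.ev_rename]
      exact hv z₀ (hYJ hz₀)
    · rw [← e₀, hYe z₀ hz₀, ← q.ev_rename]
      exact hv z₀ (hYJ hz₀)
    · rcases Fin.eq_self_or_eq_succAbove (s j) t with rfl | ⟨t, rfl⟩
      · exact ⟨fun z _ => by rw [G2_sub, sub_self], fun z _ => by rw [G2_sub, sub_self]⟩
      · exact ⟨num2_van_mono hJT (hT (Sum.inr (Sum.inr (Sum.inl t)))),
          num2_van_mono hJT (hT (Sum.inr (Sum.inr (Sum.inr t))))⟩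
  refine ⟨J, Y, fun z hz => hTO (hJT hz), hYJ, hYt, hYe, fun i => ?_, hbase, fun i hi' z hz => ?_,
    fun s' t => ?_, fun s' t => ?_, hJd⟩
  · refine (Van.mul (p.form ((F j).hu (s j))) (rho_form i) fun z hz => ?_).resolve_left
      fun hv => hs j ?_
    · have h1 := hYm z hz (Sum.inl (s j)) (Sum.inl i)
      have h2 := hYm z hz (Sum.inl (s j)) (Sum.inr i)
      simp only [rho', G2_sub, ev_mul, Crd.ev_rename, Sum.elim_inl, Sum.elim_inr, id] at h1 h2 ⊢
      linear_combination h1 - h2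
    · rw [← e₀, ← p.ev_rename]
      exact hv z₀ hz₀
  · let β := (blk k P (F i).γ).pair (blk k P b)
    refine congrFun (congrArg (Crd.inl k _ _).pr (diag_eq (β.comp p) (β.comp q) hYJ
      (fun z hz => congrArg β.pr (hYe z hz)) ?_ (hYJ hz₀) ?_ z hz)) ()
    · rw [Crd.img_comp, Crd.img_comp]
      exact Crd.img_mono _ hi
    · refine (((h.ok i).fin x₀ ⟨hx₀, hg₀⟩).image fun y =>
        mkPt (fun _ => y : (Amb.one (P.σ (F i).γ)).Pt k) ((blk k P b).pr x₀)).subset ?_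
      rintro _ ⟨z, hz, e, rfl⟩
      have e1 : p.pr z (F i).γ = x₀ (F i).γ := e₀ ▸ congrFun (congrArg (Crd.inl k _ _).pr e) ()
      have e2 : p.pr z b = x₀ b := e₀ ▸ congrFun (congrArg (Crd.inr k _ _).pr e) ()
      have e3 := (hbase z hz).symm.trans e2
      have gp : ev (p.pr z) g ≠ 0 := (ev_base hg e2).symm ▸ hg₀
      have gq : ev (q.pr z) g ≠ 0 := (ev_base hg e3).symm ▸ hg₀
      obtain ⟨c₀, hc₀⟩ := (h.ok i).desc x₀ ⟨hx₀, hg₀⟩ _ ⟨(hJO z hz).1, gp⟩ e2.symm e1.symm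
      obtain ⟨t₀, ht₀⟩ := (h.ok i).ne _ ⟨(hJO z hz).1, gp⟩
      have hc : ev (p.pr z) ((F i).u (s i)) ≠ 0 := by
        rw [hc₀] at ht₀ ⊢
        exact mul_ne_zero (left_ne_zero_of_mul ht₀) (hs i)
      refine ⟨q.pr z (F i).γ, ⟨q.pr z, ⟨(hJO z hz).2, gq⟩, ev (q.pr z) ((F i).u (s i)) /
        ev (p.pr z) ((F i).u (s i)) * c₀, e3.symm, fun t => ?_, rfl⟩, sum_ext rfl ?_⟩
      · rw [mul_assoc, ← hc₀]
        rcases Fin.eq_self_or_eq_succAbove (s i) t with rfl | ⟨t, rfl⟩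
        · rw [div_mul_cancel₀ _ hc]
        · have := hT (Sum.inr (Sum.inl ⟨⟨i, hi'⟩, t⟩)) z (hJT hz)
          change ev z (mn _ _) = 0 at this
          rw [hmn] at this
          field_simp
          linear_combination this
      · exact funext fun _ => e3.symm
  · obtain ⟨a, ha⟩ := f1 s' t
    refine (Van.mul (p.form ((F j).hu (s j))) ha fun z hz => ?_).resolve_left (hu t).1
    have h1 := (hu s').2.2.1 z hz
    have h2 := (hu t).2.2.1 z hz
    simp only [m1, G2_sub, ev_mul] at h1 h2 ⊢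
    linear_combination ev z (rename p.ε ((F j).u s')) * h2 - ev z (rename p.ε ((F j).u t)) * h1
  · obtain ⟨a, ha⟩ := f2 s' t
    refine (Van.mul (q.form ((F j).hu (s j))) ha fun z hz => ?_).resolve_left (hu t).2.1
    have h1 := (hu s').2.2.2 z hz
    have h2 := (hu t).2.2.2 z hz
    simp only [m2, G2_sub, ev_mul] at h1 h2 ⊢
    linear_combination ev z (rename q.ε ((F j).u s')) * h2 - ev z (rename q.ε ((F j).u t)) * h1

end Pool.Agent.Work.MP_ffcd14_ag.Dg
end

-- merged part: Pool.Agent.Work.MP_ffcd14_ag.Dg.M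
section
/-! # Degenerations: the theorem in a numerical theory -/

open MvPolynomial Topology TopologicalSpace

namespace Pool.Agent.Work.MP_ffcd14_ag.Dg

set_option linter.unusedSectionVars false

universe u v w

variable {k : Type u} [Field k] [IsAlgClosed k] {K : Type v} [Field K] [CharZero K]
  {P : Amb} {C : NT.{u, v, w} k K} {X : Var k P} {b : P.ι} {s : MvPolynomial P.V k} {ι : Type}
  [Fintype ι] {F : ι → Fac k P} {g : MvPolynomial P.V k} (hC : C.Cyc)
include hC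

theorem mainV (hF : NFin C) (h : Fam X b F g) (S : Sp X b s) {l : EE C X} (hl : l ∈ AA C X 1)
    (t : ι → ℚ) (ht : l - ∑ j, t j • ln C X (F j).a ∈ VV C X s) {n e : ℕ}
    (he : e + 2 * n + 1 = X.dim) (hc : Cmp C X s l n e) {x : EE C X} (hx : x ∈ AA C X n)
    (h1 : l ^ (e + 1) * x ∈ NN C X b) (h0 : x ∉ NN C X b) :
    0 < (-1) ^ n * tau C X (hy C X b * (l ^ e * x * x)) := by
  have hxA : x ∈ Alg C X h.irr := AA_le_CS C X n hx
  by_cases hb : ∃ x ∈ X.pts, ∃ y ∈ X.pts, x b ≠ y b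
  swap
  · push Not at hb
    have h2 := vt_eta hC (C := C) (num2_cy_mem X (p := Vt b) (U := X.top h.irr) subset_rfl hb)
    rw [cy_top, mul_one] at h2
    exact (h0 ⟨hxA, fun z _ => by rw [h2, zero_mul, zero_mul, map_zero]⟩).elim
  choose J Y hJ using exists_jn h hb
  choose κ hκ using fun j => EJ_rel hC h (hJ j)
  have hlA : l ∈ Alg C X h.irr := AA_le_CS C X 1 hl
  have hh : ∀ j, ln C X (F j).a ∈ Alg C X h.irr := fun j => ln_AL _ _
  have hL : ∑ j, t j • ln C X (F j).a ∈ Alg C X h.irr :=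
    sum_mem fun j _ => Subalgebra.smul_mem _ (hh j) _
  have h2 : ∀ y ∈ AL C X,
      y * (l ^ (e + 1) - (∑ j, t j • ln C X (F j).a) ^ (e + 1)) ∈ VV C X s := fun y hy => by
    rw [← geom_sum₂_mul]
    exact VV_mul hC h.irr hy (VV_mul hC h.irr (show _ ∈ Alg C X h.irr from
      sum_mem fun i _ => mul_mem (pow_mem hlA _) (pow_mem hL _)) ht)
  obtain ⟨ν, hν, h3⟩ := pure (Alg C X h.irr) (VV C X s) (NN C X b) (VV_le_NN hC S)
    (fun x hx => hx.1) (fun a ha x hx => VV_mul hC h.irr ha hx) (fun a ha x hx => NN_mul ha hx)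
    (fun j => ln C X (F j).a) hh (fun j => (F j).m) (fun j => κ j • EJ C X (J j))
    (fun j x hx => Subalgebra.smul_mem (Alg C X h.irr) (EJ_AL hC _ hx) _)
    (fun j x hx => Submodule.smul_mem _ _ (EJ_VV hC h S (hJ j) hx))
    (fun j x hx => Submodule.smul_mem _ _ (EJ_NN hC (hJ j) hx))
    (fun i j hij x hx => by
      rw [LinearMap.smul_apply, LinearMap.smul_apply, mul_smul_comm, ← smul_sub]
      exact Submodule.smul_mem _ _ (vt_VV hC S (EJ_comm hC h (hJ j) hij hx)))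
    (fun j x hx => vt_VV hC S (hκ j x hx)) (fun j => vt_VV hC S (pow_vt hC h j))
    (r := (∑ j, t j • ln C X (F j).a) ^ (e + 1))
    (pow_mem (sum_mem fun j _ => Subalgebra.smul_mem _ (Algebra.subset_adjoin (Set.mem_range_self j)) _) _)
    hxA
    (by
      have := sub_mem h1 (VV_le_NN hC S (h2 x hxA))
      rwa [mul_sub, mul_comm x, sub_sub_cancel, mul_comm] at this)
  refine core hC hF S hl he hc hx hν ?_ h0
  have := add_mem h3 (h2 _ (sub_mem hxA hν.1))
  rwa [mul_comm (x - ν), ← add_mul, add_sub_cancel] at this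

theorem mainN (hF : NFin C) (h : Fam X b F g) (S : Sp X b s) {l : EE C X} (hl : l ∈ AA C X 1)
    (t : ι → ℚ) (ht : l - ∑ j, t j • ln C X (F j).a ∈ NN C X b) {n e : ℕ}
    (he : e + 2 * n + 1 = X.dim) (hc : Cmp C X s l n e) {x : EE C X} (hx : x ∈ AA C X n)
    (h1 : l ^ (e + 1) * x ∈ NN C X b) (h0 : x ∉ NN C X b) :
    0 < (-1) ^ n * tau C X (hy C X b * (l ^ e * x * x)) := by
  rcases n.eq_zero_or_pos with hn | hn
  · refine core hC hF S hl he hc hx (zero_mem _) (Submodule.mem_sup_right ⟨?_, fun v hv => ?_⟩) h0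
    · rw [sub_zero]
      exact h1.1
    · refine Desc_CS X (tau C X ∘ₗ LinearMap.mulLeft ℚ _) (fun U hU hs => ?_) hv
      obtain ⟨T, a1, -, a3, -⟩ := S.over hU hs
      have := sdim_mono a1
      change tau C X (_ * cy C X U) = 0
      rw [mul_comm, sub_zero]
      exact nm_AA C X S.irr U (glue_pow hl hx _) (by omega)
  · exact mainV hC hF h S hl t (div_VV hC hF S (by omega) (sub_mem hl
      (sum_mem fun j _ => Submodule.smul_mem _ _ (glue_ln X _))) ht) he hc hx h1 h0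

end Pool.Agent.Work.MP_ffcd14_ag.Dg
end

-- merged part: Pool.Agent.Work.MP_ffcd14_ag.Uni.Z7
section
/-! # Uniruled fourfolds: the statement for a Weil cohomology -/

namespace Pool.Agent.Work.MP_ffcd14_ag.Uni

universe u v w

variable {k : Type u} [Field k] {K : Type v} [Field K] [CharZero K] {C : Weil.{u, v, w} k K}
  {P : Amb} [IsAlgClosed k] (hC : C.Chow)
include hC

theorem uni_main {X : Var k P} (h : Uniruled X) (hd : X.dim = 4) (l : C.H X) (hl : C.Ample X l)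
    {n : ℕ} (hn : 2 * n ≤ 4) : Hdg (C.tr X) 4 (C.A X) l n := by
  rw [← hd]
  by_cases h1 : n ≤ 1
  · exact W.hdg_low hC X h.irr (by omega) l hl h1
  obtain rfl : n = 2 := by omega
  obtain ⟨m, Q', X', θ, ψ, a, hm, hd', hi, ha, e⟩ := hl
  have h' := h.map θ (fun y => ⟨_, hi.2 y⟩) hd'
  exact (W.hdg_iso θ ψ hi hd' hm e 2).2 (W.hdg_two hC X' h'.irr 0 (by omega) ha
    (fun y hy => ⟨y, hy, by rw [pow_zero, one_mul]⟩) (uni_sh (W.nt_chow hC) h' (hd'.trans hd) ha))

end Pool.Agent.Work.MP_ffcd14_ag.Uni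
end

-- merged part: Pool.Agent.Work.MP_ffcd14_ag.Dg.Fin
section
/-! # Degenerations: the theorem for a Weil cohomology -/

open MvPolynomial Topology TopologicalSpace

namespace Pool.Agent.Work.MP_ffcd14_ag.Dg

set_option linter.unusedSectionVars false

universe u v w

section

variable {k : Type u} {K : Type v} [Field k] [IsAlgClosed k] [Field K] [CharZero K]
  {C : Weil.{u, v, w} k K} {P : Amb}

theorem Fin_hn (X : Var k P) {l : W.EE C X} (hl : l ∈ W.AA C X 1) {n m : ℕ}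
    (hm : m + 2 * n = X.dim) (H : Hdg (C.tr X) X.dim (C.A X) (W.vl C X l) n) :
    HN (W.nt C) X l n m := by
  intro (y : W.EE C X) hy h1 h2
  have hp : ∀ p, l ^ p * y ∈ W.AA C X (n + p) := fun p => glue_pow (C := W.nt C) hl hy p
  have h3 := (W.glue_N0 (hp (m + 1))).2 h1
  rw [map_mul, map_pow] at h3
  unfold Hdg at H
  rw [show X.dim - 2 * n = m by omega] at H
  obtain ⟨q, hq, eq⟩ := H _ hy h3 (mt (W.glue_N0 hy).1 h2)
  rw [← map_pow (W.vl C X), ← map_mul, ← map_mul, show y * y * l ^ m = l ^ m * y * y by ring,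
    ← W.tau_cast C X (W.AA_mul C X (hp m) hy)] at eq
  have : (-1) ^ n * W.tau C X (l ^ m * y * y) = q := by exact_mod_cast eq
  exact this ▸ hq

theorem Fin_NN (X : Var k P) (b : P.ι) {c : ℕ} {z : W.EE C X} (hz : z ∈ W.AA C X c) :
    Num0 (fun x => C.tr X (C.hyp X b * x)) (C.A X) (W.vl C X z) ↔ z ∈ NN (W.nt C) X b := by
  have h1 := (W.glue_N0 (W.AA_mul C X (show W.hy C X b ∈ W.AA C X 1 from C.hyp_alg X b) hz)).trans
    (N0_iff_AL (C := W.nt C) X _)
  rw [map_mul, W.vl_hy] at h1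
  refine Iff.trans ?_ (h1.trans ⟨fun h => ⟨W.AA_le_CS C X c hz, h⟩, fun h => h.2⟩)
  simp only [Num0, mul_assoc]

theorem Fin_max {X : Var k P} (hX : IsIrreducible X.pts) {s : MvPolynomial P.V k} {a : P.ι →₀ ℕ}
    (hs : IsForm s a) (h : ¬ Van X.pts s) {T : Sub k P} (h1 : (T : Set (P.Pt k)) ⊆ X.pts)
    (h2 : sdim T + 1 = X.dim) (h3 : Van (T : Set (P.Pt k)) s) :
    Maximal (fun T => IsIrreducible T ∧ T ⊆ {x ∈ X.pts | ev x s = 0}) (T : Set (P.Pt k)) := by
  refine ⟨⟨T.isIrreducible, fun x hx => ⟨h1 hx, h3 x hx⟩⟩, fun y hy hT => ?_⟩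
  let T' : Sub k P := ⟨closure y, hy.1.closure, isClosed_closure⟩
  have h4 : closure y ⊆ {x ∈ X.pts | ev x s = 0} :=
    closure_minimal hy.2 (X.closed.inter (isClosed_zero hs))
  have h5 : T' < X.top hX := lt_of_le_of_ne (fun x hx => (h4 hx).1) fun e =>
    h fun x hx => (h4 (show x ∈ T' from e ▸ hx)).2
  have h6 := sdim_lt h5
  rw [X.sdim_top] at h6
  rw [eq_of_sdim_le (show T ≤ T' from Set.Subset.trans hT subset_closure) (by omega)]
  exact subset_closure

end

theorem main {k : Type u} {K : Type v} [Field k] [IsAlgClosed k] [Field K] [CharZero K]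
    (C : Weil.{u, v, w} k K) (hC : C.Chow) {P : Amb} (X : Var k P) (b : P.ι) {ι : Type}
    [Fintype ι] (F : ι → Fac k P) (g : MvPolynomial P.V k) (h : Fam X b F g) (d n : ℕ)
    (hd : d + 1 = X.dim) (hn : 2 * n ≤ d) (l : C.H X) (hl : l ∈ C.A X 1) (t : ι → ℚ)
    (ht : Num0 (fun x => C.tr X (C.hyp X b * x)) (C.A X)
      (l - ∑ j, (t j : K) • lin (C.hyp X) (F j).a))
    (s : MvPolynomial P.V k) (hs : IsForm s (Finsupp.single b 1)) (hs' : ∃ x ∈ X.pts, ev x s ≠ 0)
    (hc : ∀ T, Maximal (fun T => IsIrreducible T ∧ T ⊆ {x ∈ X.pts | ev x s = 0}) T →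
      ∃ (Y : Var k P) (i : Hom Y X), Y.pts = T ∧ (∀ y, (i.toFun y).1 = y.1) ∧
        (Hdg (C.tr Y) d (C.A Y) (C.pull i l) n ∨
          d = 4 ∧ Uniruled Y ∧ C.Ample Y (C.pull i l))) :
    Hdg (fun x => C.tr X (C.hyp X b * x)) d (C.A X) l n := by
  obtain ⟨l, hl, rfl⟩ := W.exists_vl C X hl
  have nv : ¬ Van X.pts s := fun hv => hs'.elim fun x hx => hx.2 (hv x hx.1)
  have S : Sp X b s := ⟨h.irr, h.curve, hs, nv, fun T h1 h2 h3 =>
    (hc _ (Fin_max h.irr hs nv h1 h2 h3)).imp fun Y hY => hY.elim fun _ hY => hY.1⟩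
  have he : d - 2 * n + 2 * n + 1 = X.dim := by omega
  have hcm : Cmp (W.nt C) X s l n (d - 2 * n) := fun T h1 h2 h3 => by
    obtain ⟨Y, i, hY, hi, H⟩ := hc _ (Fin_max h.irr hs nv h1 h2 h3)
    have hYX : Y.pts ⊆ X.pts := hY ▸ h1
    have hYd : Y.dim = d := by
      have := Y.sdim_top (hY ▸ T.isIrreducible)
      rw [show Y.top _ = T from IrreducibleCloseds.ext hY] at this
      omega
    have e : W.vl C Y (W.pl C (incl hYX).hom l) = C.pull i (W.vl C X l) := by
      rw [W.vl_pl, C.pull_comp i (Prj.refl X).hom _ fun y => Subtype.ext (hi y).symm,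
        C.pull_id _ fun _ => rfl]
    refine ⟨Y, hYX, hY, Fin_hn Y (W.AA_pl C _ hl) (by omega) ?_⟩
    change Hdg _ _ _ (W.vl C Y (W.pl C (incl hYX).hom l)) n
    rw [e, hYd]
    refine H.elim id fun ⟨h4, h5, h6⟩ => ?_
    subst h4
    exact Uni.uni_main hC h5 hYd _ h6 hn
  have ht' : l - ∑ j, t j • W.ln C X (F j).a ∈ NN (W.nt C) X b := by
    have hA : l - ∑ j, t j • W.ln C X (F j).a ∈ W.AA C X 1 :=
      sub_mem hl (sum_mem fun j _ => Submodule.smul_mem _ _ (glue_ln (C := W.nt C) X _))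
    refine (Fin_NN X b hA).1 ?_
    rw [map_sub, map_sum]
    simpa only [W.vl_qsmul, W.vl_ln] using ht
  intro x hx h1 h0
  obtain ⟨x, hx, rfl⟩ := W.exists_vl C X hx
  have hp : ∀ p, l ^ p * x ∈ W.AA C X (n + p) := fun p => glue_pow (C := W.nt C) hl hx p
  rw [← map_pow, ← map_mul, Fin_NN X b (hp _)] at h1
  refine ⟨_, mainN (W.nt_chow hC).cyc (W.nt_fin C) h S hl t ht' he hcm hx h1
    (mt (Fin_NN X b hx).2 h0), ?_⟩
  have := W.tau_cast C X (W.AA_mul C X (show W.hy C X b ∈ W.AA C X 1 from C.hyp_alg X b)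
    (W.AA_mul C X (hp (d - 2 * n)) hx))
  rw [map_mul (W.vl C X), W.vl_hy] at this
  rw [← map_pow (W.vl C X), ← map_mul, ← map_mul,
    show x * x * l ^ (d - 2 * n) = l ^ (d - 2 * n) * x * x by ring]
  refine (congrArg _ this.symm).trans ?_
  push_cast
  rfl

end Pool.Agent.Work.MP_ffcd14_ag.Dg
end
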