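import Pool.Agent.Work.MP_ffcd14_ag.Dg.Defs
import Pool.Agent.Work.MP_ffcd14_ag.Cyc.GlueN
import Mathlib

-- merged part: Pool.Agent.Work.MP_ffcd14_ag.Dg.D
section
/-! # Degenerations: working definitions -/

open MvPolynomial Topology TopologicalSpace

namespace Pool.Agent.Work.MP_ffcd14_ag.Dg

universe u v w

variable {k : Type u} [Field k] {P P' Q : Amb}

/-- One factor of the ambient space. -/
def blk (k : Type u) [Field k] (P : Amb) (i : P.ι) : Crd k (Amb.one (P.σ i)) P where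
  ε s := ⟨i, s.2⟩
  ψ _ := i
  fst _ := rfl
  pr y _ := y i
  rp_pr _ _ := rfl

/-- The inclusion of a subvariety. -/
def incl {X Y : Var k P} (h : Y.pts ⊆ X.pts) : Prj Y X where
  toCrd := Crd.refl k P
  maps _ hx := h hx

/-- `U` lies in a fibre. -/
def Vt (b : P.ι) (U : Sub k P) : Prop := ∀ x ∈ U, ∀ y ∈ U, x b = y b

/-- The space of the join. -/
abbrev QA (m : ℕ) : Amb := Amb.one (Fin (m + 1) ⊕ Fin (m + 1))

/-- The ambient space of the join. -/
abbrev PJ (P : Amb) (m : ℕ) : Amb := (P.sum P).sum (QA m)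

/-- `X × Y × ℙ ^ (2 m + 1)`. -/
noncomputable def Om (X Y : Var k P) (m : ℕ) : Var k (PJ P m) := (X.prod Y).ext (QA m)

/-- The first point. -/
def cp (k : Type u) [Field k] (P : Amb) (m : ℕ) : Crd k P (PJ P m) :=
  (Crd.inl k P P).comp (Crd.inl k (P.sum P) (QA m))

/-- The second point. -/
def cq (k : Type u) [Field k] (P : Amb) (m : ℕ) : Crd k P (PJ P m) :=
  (Crd.inr k P P).comp (Crd.inl k (P.sum P) (QA m))

/-- The first projection. -/
def pP (X Y : Var k P) (m : ℕ) : Prj (Om X Y m) X where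
  toCrd := cp k P m
  maps _ hx := hx.1.1

/-- The second projection. -/
def pQ (X Y : Var k P) (m : ℕ) : Prj (Om X Y m) Y where
  toCrd := cq k P m
  maps _ hx := hx.1.2

/-- The coordinates of the join. -/
noncomputable def rv (k : Type u) [Field k] (P : Amb) {m : ℕ} (i : Fin (m + 1) ⊕ Fin (m + 1)) :
    MvPolynomial (PJ P m).V k := X ⟨Sum.inr (), i⟩

/-- The hyperplanes of the join which cut out the diagonal. -/
noncomputable def rho' (k : Type u) [Field k] (P : Amb) {m : ℕ} (i : Fin (m + 1)) :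
    MvPolynomial (PJ P m).V k := rv k P (Sum.inl i) - rv k P (Sum.inr i)

/-- The join `J` of `u p` and `u q` over the pairs `(p, q)` in one fibre with the same coordinates
in the other factors; `Y` is the lift of the diagonal. -/
structure Jn (X : Var k P) (b : P.ι) {ι : Type} (F : ι → Fac k P) (g : MvPolynomial P.V k) (j : ι)
    (J Y : Sub k (PJ P (F j).m)) : Prop where
  sub : (J : Set ((PJ P (F j).m).Pt k)) ⊆ (Om X X (F j).m).pts
  le : Y ≤ J
  top : ((cp k P (F j).m).img Y : Set (P.Pt k)) = X.pts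
  dia : ∀ z ∈ Y, (cp k P (F j).m).pr z = (cq k P (F j).m).pr z
  rho : ∀ i, Van (Y : Set ((PJ P (F j).m).Pt k)) (rho' k P i)
  base : ∀ z ∈ J, (cp k P (F j).m).pr z b = (cq k P (F j).m).pr z b
  oth : ∀ i, i ≠ j → ∀ z ∈ J, (cp k P (F j).m).pr z (F i).γ = (cq k P (F j).m).pr z (F i).γ
  m1 : ∀ s t, Van (J : Set ((PJ P (F j).m).Pt k))
    (rv k P (Sum.inl s) * rename (cp k P (F j).m).ε ((F j).u t) -
      rv k P (Sum.inl t) * rename (cp k P (F j).m).ε ((F j).u s))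
  m2 : ∀ s t, Van (J : Set ((PJ P (F j).m).Pt k))
    (rv k P (Sum.inr s) * rename (cq k P (F j).m).ε ((F j).u t) -
      rv k P (Sum.inr t) * rename (cq k P (F j).m).ε ((F j).u s))
  dim : sdim J = X.dim + (F j).m + 1

variable {K : Type v} [Field K] [CharZero K] (C : NT.{u, v, w} k K)

theorem exists_ps0 (X : Var k P) : ∃ Ψ : (EE C X →ₗ[ℚ] ℚ) →ₗ[ℚ] EE C X,
    ∀ v, Ψ (tau C X ∘ₗ LinearMap.mulLeft ℚ v) = v := by
  let Φ : EE C X →ₗ[ℚ] (EE C X →ₗ[ℚ] ℚ) := (LinearMap.mul ℚ (EE C X)).compr₂ (tau C X)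
  obtain ⟨Ψ, hΨ⟩ := Φ.exists_leftInverse_of_injective (LinearMap.ker_eq_bot'.2 fun x hx =>
    C.pd X x fun z => LinearMap.congr_fun hx z)
  exact ⟨Ψ, fun v => LinearMap.congr_fun hΨ v⟩

/-- Push-forward (on algebraic classes). -/
noncomputable def ps {Ω : Var k P'} {X : Var k P} (π : Prj Ω X) : EE C Ω →ₗ[ℚ] EE C X :=
  (exists_ps0 C X).choose ∘ₗ
    (((LinearMap.mul ℚ (EE C Ω)).compr₂ (tau C Ω)).compl₂ (pl C π).toLinearMap)

theorem ps_eq {Ω : Var k P'} {X : Var k P} (π : Prj Ω X) {ω : EE C Ω} {v : EE C X}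
    (h : ∀ z, tau C Ω (ω * pl C π z) = tau C X (v * z)) : ps C π ω = v := by
  rw [← (exists_ps0 C X).choose_spec v]
  exact congrArg (exists_ps0 C X).choose (LinearMap.ext h)

/-- All algebraic classes. -/
noncomputable abbrev AL (X : Var k P) : Submodule ℚ (EE C X) := CS C X fun _ => True

/-- The classes of the cycles in the special fibre `s = 0`. -/
noncomputable def V0 (X : Var k P) (s : MvPolynomial P.V k) : Submodule ℚ (EE C X) :=
  CS C X fun U => Van (U : Set (P.Pt k)) s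

/-- The algebraic classes which are orthogonal to the cycles in the special fibre. -/
noncomputable def V1 (X : Var k P) (s : MvPolynomial P.V k) : Submodule ℚ (EE C X) where
  carrier := {x | x ∈ AL C X ∧ ∀ v ∈ V0 C X s, tau C X (x * v) = 0}
  add_mem' ha hb := ⟨add_mem ha.1 hb.1, fun v hv => by
    rw [add_mul, map_add, ha.2 v hv, hb.2 v hv, add_zero]⟩
  zero_mem' := ⟨zero_mem _, fun v _ => by rw [zero_mul, map_zero]⟩
  smul_mem' c x hx := ⟨Submodule.smul_mem _ c hx.1, fun v hv => by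
    rw [smul_mul_assoc, map_smul, hx.2 v hv, smul_zero]⟩

/-- The negligible classes. -/
noncomputable def VV (X : Var k P) (s : MvPolynomial P.V k) : Submodule ℚ (EE C X) :=
  V0 C X s ⊔ V1 C X s

/-- The algebraic classes which are numerically trivial on the generic fibre. -/
noncomputable def NN (X : Var k P) (b : P.ι) : Submodule ℚ (EE C X) where
  carrier := {x | x ∈ AL C X ∧ ∀ z ∈ AL C X, tau C X (hy C X b * x * z) = 0}
  add_mem' ha hb := ⟨add_mem ha.1 hb.1, fun v hv => by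
    rw [mul_add, add_mul, map_add, ha.2 v hv, hb.2 v hv, add_zero]⟩
  zero_mem' := ⟨zero_mem _, fun v _ => by rw [mul_zero, zero_mul, map_zero]⟩
  smul_mem' c x hx := ⟨Submodule.smul_mem _ c hx.1, fun v hv => by
    rw [mul_smul_comm, smul_mul_assoc, map_smul, hx.2 v hv, smul_zero]⟩

/-- The special fibre `s = 0` of a family over a curve; its components are smooth. -/
structure Sp (X : Var k P) (b : P.ι) (s : MvPolynomial P.V k) : Prop where
  irr : IsIrreducible X.pts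
  curve : Curve X.pts b
  form : IsForm s (Finsupp.single b 1)
  nv : ¬ Van X.pts s
  sm : ∀ T : Sub k P, (T : Set (P.Pt k)) ⊆ X.pts → sdim T + 1 = X.dim →
    Van (T : Set (P.Pt k)) s → ∃ Y : Var k P, Y.pts = T

end Pool.Agent.Work.MP_ffcd14_ag.Dg
end

-- merged part: Pool.Agent.Work.MP_ffcd14_ag.Dg.G1
section
/-!
# Degenerations: general geometry

Plan.  `ev_congr`: induction on the form (`IsWeightedHomogeneous.induction_on`); a variable which
occurs in a monomial of weight `a` lies in a factor `i` with `a i ≠ 0`.  `krg_fin`: induction on a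
finite set of indices, `krg`.  `exists_mid`: `exists_cover_up`.  `sdim_le_of_fin`: `fib_low`,
`infinite_of_sdim`.  `diag_eq`: let `T'`, `Y'` be the images under `β.pair β'`; `sdim_le_of_fin` for
`Crd.inl` (`Crd.mem_img_iff`) gives `sdim T' ≤ sdim (β.img T) ≤ sdim (β.img Y) ≤ sdim Y'`, so
`T' = Y'`, which lies in a closed set (`isClosed_eq_crd`, `Crd.img_sub`).  `vt_of_van`: an irreducible
set which is covered by finitely many closed sets `x b = y` lies in one of them.  `om_irr`: copy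
`Gm.full_irr`.  `om_le`: `sdim_le_add` twice, `sdim_le_card`.
-/

open MvPolynomial Topology TopologicalSpace

namespace Pool.Agent.Work.MP_ffcd14_ag.Dg

set_option linter.unusedSectionVars false

universe u v w

variable {k : Type u} [Field k] [IsAlgClosed k] {P P' Q : Amb}

theorem ev_congr {f : MvPolynomial P.V k} {a : P.ι →₀ ℕ} (hf : IsForm f a) {x y : P.Pt k}
    (h : ∀ i, a i ≠ 0 → x i = y i) : ev x f = ev y f := by
  induction hf using IsWeightedHomogeneous.induction_on with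
  | zero => rw [ev_eq, ev_eq, map_zero, map_zero]
  | add p q _ _ hp hq =>
    rw [ev_eq, ev_eq] at hp hq ⊢
    rw [map_add, map_add, hp, hq]
  | monomial d r hr =>
    rw [ev_eq, ev_eq, eval_monomial, eval_monomial]
    refine congrArg _ (Finsupp.prod_congr fun s hs => ?_)
    have h1 : a s.1 ≠ 0 := by
      rw [← hr, Finsupp.weight_apply, Finsupp.sum, Finsupp.finsetSum_apply]
      refine fun h0 => Finsupp.mem_support_iff.1 hs ?_
      simpa using Finset.sum_eq_zero_iff.1 h0 s hs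
    rw [rp, rp, h _ h1]

theorem ev_base {f : MvPolynomial P.V k} {b : P.ι} {c : ℕ} (hf : IsForm f (Finsupp.single b c))
    {x y : P.Pt k} (h : x b = y b) : ev x f = ev y f := by
  refine ev_congr hf fun i hi => ?_
  obtain rfl : i = b := by_contra fun e => hi (Finsupp.single_eq_of_ne e)
  exact h

theorem krg_fin {κ : Type} [Fintype κ] {U Z : Sub k P} (h : U ≤ Z) (f : κ → MvPolynomial P.V k)
    (hf : ∀ i, ∃ a, IsForm (f i) a) (hU : ∀ i, Van (U : Set (P.Pt k)) (f i)) :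
    ∃ T : Sub k P, U ≤ T ∧ T ≤ Z ∧ (∀ i, Van (T : Set (P.Pt k)) (f i)) ∧
      sdim Z ≤ sdim T + Fintype.card κ := by
  classical
  suffices H : ∀ s : Finset κ, ∃ T : Sub k P, U ≤ T ∧ T ≤ Z ∧
      (∀ i ∈ s, Van (T : Set (P.Pt k)) (f i)) ∧ sdim Z ≤ sdim T + s.card by
    obtain ⟨T, h1, h2, h3, h4⟩ := H Finset.univ
    exact ⟨T, h1, h2, fun i => h3 i (Finset.mem_univ i), h4⟩
  intro s
  induction s using Finset.induction_on with
  | empty => exact ⟨Z, h, le_rfl, by simp, by simp⟩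
  | insert j s hj ih =>
    obtain ⟨T, h1, h2, h3, h4⟩ := ih
    rw [Finset.card_insert_of_notMem hj]
    by_cases hv : Van (T : Set (P.Pt k)) (f j)
    · exact ⟨T, h1, h2, Finset.forall_mem_insert _ _ _ |>.2 ⟨hv, h3⟩, by omega⟩
    · obtain ⟨a, ha⟩ := hf j
      obtain ⟨T', b1, b2, b3, b4⟩ := krg h1 ha hv (hU j)
      exact ⟨T', b1, b2.trans h2, Finset.forall_mem_insert _ _ _ |>.2
        ⟨b3, fun i hi x hx => h3 i hi x (b2 hx)⟩, by omega⟩

theorem exists_mid {U Z : Sub k P} (h : U ≤ Z) {n : ℕ} (h1 : sdim U ≤ n) (h2 : n ≤ sdim Z) :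
    ∃ T : Sub k P, U ≤ T ∧ T ≤ Z ∧ sdim T = n := by
  induction n, h1 using Nat.le_induction with
  | base => exact ⟨U, le_rfl, h, rfl⟩
  | succ n _ ih =>
    obtain ⟨T, b1, b2, b3⟩ := ih (by omega)
    obtain ⟨T', c1, c2, c3⟩ := exists_cover_up (b2.lt_of_ne fun e => by
      rw [e] at b3
      omega)
    exact ⟨T', b1.trans c1, c2, by omega⟩

theorem sdim_le_of_fin (β : Crd k P P') {U : Sub k P'} {x : P'.Pt k} (hx : x ∈ U)
    (h : {y | y ∈ U ∧ β.pr y = β.pr x}.Finite) : sdim U ≤ sdim (β.img U) := by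
  obtain ⟨T, h1, h2, h3, h4⟩ := fib_low β hx
  have h5 : ¬ 0 < sdim T := fun h0 =>
    infinite_of_sdim h0 (h.subset fun y hy => ⟨h1 hy, h3 y hy x h2⟩)
  omega

theorem diag_eq (β β' : Crd k Q P') {Y T : Sub k P'} (hYT : Y ≤ T)
    (hY : ∀ z ∈ Y, β.pr z = β'.pr z) (hi : β.img T ≤ β.img Y) {z₀ : P'.Pt k} (hz : z₀ ∈ T)
    (hf : {y | ∃ z ∈ T, β.pr z = β.pr z₀ ∧ β'.pr z = y}.Finite) :
    ∀ z ∈ T, β.pr z = β'.pr z := by
  have e : ∀ U : Sub k P', (Crd.inl k Q Q).img ((β.pair β').img U) = β.img U := fun U => by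
    rw [← Crd.img_comp]
    exact Crd.img_congr _ _ fun _ _ => rfl
  have h1 := sdim_le_of_fin (Crd.inl k Q Q) ((β.pair β').mem_img hz)
    ((hf.image (mkPt (β.pr z₀))).subset fun y hy => by
      obtain ⟨z, b1, rfl⟩ := (β.pair β').mem_img_iff.1 hy.1
      exact ⟨β'.pr z, ⟨z, b1, hy.2, rfl⟩, sum_ext hy.2.symm rfl⟩)
  have h2 := (Crd.inl k Q Q).sdim_img_le ((β.pair β').img Y)
  have h3 := sdim_mono hi
  rw [e] at h1 h2
  have h4 := eq_of_sdim_le ((β.pair β').img_mono hYT) (h1.trans (h3.trans h2))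
  have h5 := ((β.pair β').img_sub (Z := Y)
    (isClosed_eq_crd (Crd.inl k Q Q) (Crd.inr k Q Q))).2 hY
  rw [h4] at h5
  exact fun z hz => h5 ((β.pair β').mem_img hz)

theorem vt_of_van {X : Set (P.Pt k)} {b : P.ι} (hc : Curve X b) {f : MvPolynomial P.V k} {c : ℕ}
    (hf : IsForm f (Finsupp.single b c)) (hX : ¬ Van X f) {U : Sub k P}
    (hU : (U : Set (P.Pt k)) ⊆ X) (h : Van (U : Set (P.Pt k)) f) : Vt b U := by
  have h1 := hc f c hf (by simpa [Van] using hX)
  have h2 : ¬ 0 < sdim ((blk k P b).img U) := fun h0 =>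
    infinite_of_sdim h0 ((h1.image fun y (_ : Unit) => y).subset fun y hy => by
      obtain ⟨z, b1, rfl⟩ := (blk k P b).mem_img_iff.1 hy
      exact ⟨z b, ⟨z, hU b1, h z b1, rfl⟩, rfl⟩)
  intro x hx y hy
  have h3 := (blk k P b).mem_img hx
  rw [eq_pt_of_sdim (by omega) ((blk k P b).mem_img hy)] at h3
  exact congrFun (show (blk k P b).pr x = (blk k P b).pr y from h3) ()

theorem Vt.mono {b : P.ι} {U T : Sub k P} (h : U ≤ T) (hT : Vt b T) : Vt b U :=
  fun x hx y hy => hT x (h hx) y (h hy)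

theorem G1_full (h : ∀ i, Nonempty (P.σ i)) : IsIrreducible (Var.full k P).pts := by
  have hi := IsFractionRing.injective (MvPolynomial P.V k) (FractionRing (MvPolynomial P.V k))
  obtain ⟨Z, hZ⟩ := exists_loc (k := k)
    (algebraMap (MvPolynomial P.V k) (FractionRing (MvPolynomial P.V k)) ∘ X) fun i => by
      obtain ⟨s⟩ := h i
      exact ⟨s, (map_ne_zero_iff _ hi).2 (X_ne_zero _)⟩
  have hU : (Set.univ : Set (P.Pt k)) ⊆ Z := subset_of_van Z.isClosed fun f a hf hv => by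
    have h0 := (hZ.iff f a hf).2 hv
    rw [aeval_algebraMap_apply, aeval_X_left_apply, map_eq_zero_iff _ hi] at h0
    intro x _
    rw [h0, ev_eq, map_zero]
  have e : (Var.full k P).pts = Z := (Set.eq_univ_of_univ_subset hU).symm
  rw [e]
  exact Z.isIrreducible

theorem G1_V (m : ℕ) : Nat.card (QA m).V = 2 * m + 2 := by
  have e : (QA m).V ≃ Fin (m + 1) ⊕ Fin (m + 1) :=
    ⟨fun s => s.2, fun s => ⟨(), s⟩, fun _ => rfl, fun _ => rfl⟩
  rw [Nat.card_congr e, Nat.card_sum, Nat.card_fin]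
  omega

theorem G1_ι (m : ℕ) : Nat.card (QA m).ι = 1 := Nat.card_unique (α := Unit)

theorem om_irr {X Y : Var k P} (hX : IsIrreducible X.pts) (hY : IsIrreducible Y.pts) (m : ℕ) :
    IsIrreducible (Om X Y m).pts := by
  exact Var.prod_irr (Var.prod_irr hX hY) (G1_full fun _ => ⟨Sum.inl (0 : Fin (m + 1))⟩)

theorem om_dim (X Y : Var k P) (m : ℕ) : (Om X Y m).dim = X.dim + Y.dim + (2 * m + 1) := by
  change X.dim + Y.dim + (Nat.card (QA m).V - Nat.card (QA m).ι) = _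
  rw [G1_V, G1_ι]
  omega

theorem mem_om {X Y : Var k P} {m : ℕ} {z : (PJ P m).Pt k} :
    z ∈ (Om X Y m).pts ↔ (cp k P m).pr z ∈ X.pts ∧ (cq k P m).pr z ∈ Y.pts :=
  ⟨fun h => h.1, fun h => ⟨h, trivial⟩⟩

theorem om_le {m : ℕ} (U : Sub k (PJ P m)) :
    sdim U ≤ sdim ((cp k P m).img U) + sdim ((cq k P m).img U) + (2 * m + 1) := by
  have h1 := sdim_le_add U
  have h2 := sdim_le_add ((Crd.inl k (P.sum P) (QA m)).img U)
  have h3 := sdim_le_card ((Crd.inr k (P.sum P) (QA m)).img U)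
  rw [G1_V, G1_ι] at h3
  rw [cp, cq, Crd.img_comp, Crd.img_comp]
  omega

theorem rv_form {m : ℕ} (i : Fin (m + 1) ⊕ Fin (m + 1)) :
    IsForm (rv k P i) (Finsupp.single (Sum.inr ()) 1) :=
  IsForm.X (k := k) (P := PJ P m) ⟨Sum.inr (), i⟩

theorem rho_form {m : ℕ} (i : Fin (m + 1)) :
    IsForm (rho' k P i) (Finsupp.single (Sum.inr ()) 1) :=
  IsWeightedHomogeneous.sub (rv_form (Sum.inl i)) (rv_form (Sum.inr i))

theorem rv_ne {m : ℕ} (z : (PJ P m).Pt k) : ∃ i, ev z (rv k P i) ≠ 0 := by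
  obtain ⟨i, hi⟩ := Function.ne_iff.1 (z (Sum.inr ())).rep_nonzero
  exact ⟨i, fun h => hi ((ev_X z ⟨Sum.inr (), i⟩).symm.trans h)⟩

end Pool.Agent.Work.MP_ffcd14_ag.Dg
end

-- merged part: Pool.Agent.Work.MP_ffcd14_ag.Dg.N1
section
/-!
# Degenerations: general intersection theory

Plan.  `cy_mul_AL`: `mv_move` for `{Z}`, `n_meet` for `Prj.refl`.  `ps_cy`: `n_push`, `ps_eq`.
`ratio'`: as `n_ratio`; there is one index `s` such that neither `f s` nor `e s` vanishes on `Z`, and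
the same holds on every `T` which is not exceptional.  `cy_pl_congr`: for the two maps
`ρ = (id, π)`, `ρ' = (id, π')` to `Ω × X` the images of `U` agree (`Crd.img_congr`); `n_push` twice; the
two degrees agree (test with a power of an ample class of `Ω`, `nm_pos`); `tau_pd`.  `refsup`: by
`n_meet` for `incl` and `Z = Y.top`, the pull-back of `cy W` is a combination of `U ≤ W`; multiply
by `cy Y S` (`CS_mul_AL`); `ps_cy`, `ps_mul` for `incl` (`Crd.img_refl`).
-/

open MvPolynomial Topology TopologicalSpace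

namespace Pool.Agent.Work.MP_ffcd14_ag.Dg

set_option linter.unusedSectionVars false

universe u v w

variable {k : Type u} [Field k] [IsAlgClosed k] {K : Type v} [Field K] [CharZero K]
  {P P' : Amb} {C : NT.{u, v, w} k K}

theorem cy_AL (X : Var k P) (Z : Sub k P) : cy C X Z ∈ AL C X := by
  by_cases hZ : (Z : Set (P.Pt k)) ⊆ X.pts
  · exact num2_cy_mem X hZ trivial
  · rw [n1_cy_zero C X hZ]
    exact zero_mem _

theorem AL_mul (X : Var k P) {x y : EE C X} (hx : x ∈ AL C X) (hy : y ∈ AL C X) :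
    x * y ∈ AL C X := by
  refine num2_CS_map X (LinearMap.mulLeft ℚ x) _ (fun U _ _ => ?_) hy
  obtain ⟨c, hc⟩ := cy_mem_AA C X U
  exact CS_mul_AA C X hx hc

theorem CS_le_AL (X : Var k P) (p : Sub k P → Prop) : CS C X p ≤ AL C X :=
  num2_CS_mono X fun _ _ => trivial

theorem pl_AL {Ω : Var k P'} {X : Var k P} (π : Prj Ω X) {x : EE C X} (hx : x ∈ AL C X) :
    pl C π x ∈ AL C Ω := by
  refine num2_CS_map X (pl C π).toLinearMap _ (fun U _ _ => ?_) hx
  obtain ⟨c, hc⟩ := cy_mem_AA C X U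
  exact AA_le_CS C Ω c (AA_pl C π hc)

theorem ln_AL (X : Var k P) (a : P.ι →₀ ℕ) : ln C X a ∈ AL C X :=
  AA_le_CS C X 1 (glue_ln X a)

theorem hy_AL (X : Var k P) (i : P.ι) : hy C X i ∈ AL C X := ln_single C X i ▸ ln_AL X _

variable (C) in
/-- The algebra of the algebraic classes. -/
noncomputable def Alg (X : Var k P) (hX : IsIrreducible X.pts) : Subalgebra ℚ (EE C X) :=
  (AL C X).toSubalgebra (cy_top C X hX ▸ cy_AL X _) fun _ _ => AL_mul X

theorem mem_Alg {X : Var k P} {hX : IsIrreducible X.pts} {x : EE C X} :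
    x ∈ Alg C X hX ↔ x ∈ AL C X := Iff.rfl

theorem N0_iff_AL (X : Var k P) (x : EE C X) :
    N0 C X x ↔ ∀ z ∈ AL C X, tau C X (x * z) = 0 := by
  refine ⟨fun h z hz => ?_, fun h c y hy => h y (AA_le_CS C X c hy)⟩
  refine num2_CS_map X (tau C X ∘ₗ LinearMap.mulLeft ℚ x) ⊥ (fun U _ _ => ?_) hz
  obtain ⟨c, hc⟩ := cy_mem_AA C X U
  exact h c _ hc

/-- The part of degree `n`. -/
theorem AL_part (X : Var k P) {x : EE C X} (hx : x ∈ AL C X) (n : ℕ) : ∃ y ∈ AA C X n,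
    ∀ c, n + c = X.dim → ∀ z ∈ AA C X c, tau C X (x * z) = tau C X (y * z) := by
  induction hx using Submodule.span_induction with
  | mem x hx =>
    obtain ⟨U, -, -, rfl⟩ := hx
    obtain ⟨d, hd⟩ := cy_mem_AA C X U
    by_cases e : d = n
    · exact ⟨_, e ▸ hd, fun _ _ _ _ => rfl⟩
    · refine ⟨0, zero_mem _, fun c hc z hz => ?_⟩
      rw [zero_mul, map_zero]
      exact tau_AA C X (AA_mul C X hd hz) (by omega)
  | zero => exact ⟨0, zero_mem _, fun _ _ _ _ => rfl⟩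
  | add x x' _ _ h h' =>
    obtain ⟨y, hy, h⟩ := h
    obtain ⟨y', hy', h'⟩ := h'
    refine ⟨y + y', add_mem hy hy', fun c hc z hz => ?_⟩
    rw [add_mul, add_mul, map_add, map_add, h c hc z hz, h' c hc z hz]
  | smul r x _ h =>
    obtain ⟨y, hy, h⟩ := h
    refine ⟨r • y, Submodule.smul_mem _ r hy, fun c hc z hz => ?_⟩
    rw [smul_mul_assoc, smul_mul_assoc, map_smul, map_smul, h c hc z hz]

variable (hC : C.Cyc)
include hC

theorem cy_mul_AL (X : Var k P) (hX : IsIrreducible X.pts) {Z : Sub k P}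
    (hZ : (Z : Set (P.Pt k)) ⊆ X.pts) {y : EE C X} (hy : y ∈ AL C X) :
    cy C X Z * y ∈ CS C X fun U => U ≤ Z := by
  refine num2_CS_map X (LinearMap.mulLeft ℚ (cy C X Z)) _ (fun T hT _ => ?_) hy
  refine num2_CS_map X (LinearMap.mulLeft ℚ (cy C X Z)) _ (fun T' hT' hp => ?_)
    (mv_move hC X hX hT (Set.finite_singleton Z) fun F hF => hF ▸ hZ)
  have h := n_meet hC (Prj.refl X) hZ hT' fun U hU hU' => by
    have := hp.2 Z rfl U (Crd.img_refl U ▸ hU') hU
    omega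
  rw [pl_id C _ fun _ => rfl] at h
  exact num2_CS_mono X (fun U hU => hU.1) h

theorem CS_mul_AL (X : Var k P) (hX : IsIrreducible X.pts) {p : Sub k P → Prop}
    (hp : ∀ U T, U ≤ T → p T → p U) {x y : EE C X} (hx : x ∈ CS C X p) (hy : y ∈ AL C X) :
    x * y ∈ CS C X p := by
  exact num2_CS_map X (LinearMap.mulRight ℚ y) _ (fun T hT hT' =>
    num2_CS_mono X (fun U hU => hp U T hU hT') (cy_mul_AL hC X hX hT hy)) hx

theorem ps_cy {Ω : Var k P'} {X : Var k P} (π : Prj Ω X) {Z : Sub k P'}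
    (hZ : (Z : Set (P'.Pt k)) ⊆ Ω.pts) : ∃ n : ℕ, (0 < n ↔ sdim Z = sdim (π.img Z)) ∧
      ps C π (cy C Ω Z) = (n : ℚ) • cy C X (π.img Z) := by
  obtain ⟨n, hn, h⟩ := n_push hC π hZ
  refine ⟨n, hn, ps_eq C π fun z => ?_⟩
  rw [smul_mul_assoc, map_smul, smul_eq_mul]
  exact h z

theorem ps_tau {Ω : Var k P'} {X : Var k P} (π : Prj Ω X) {ω : EE C Ω} (hω : ω ∈ AL C Ω)
    (z : EE C X) : tau C X (ps C π ω * z) = tau C Ω (ω * pl C π z) := by
  induction hω using Submodule.span_induction with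
  | mem x hx =>
    obtain ⟨U, hU, -, rfl⟩ := hx
    obtain ⟨n, -, h⟩ := n_push hC π hU
    rw [ps_eq C π (v := (n : ℚ) • cy C X (π.img U)) fun z => by
      rw [smul_mul_assoc, map_smul, smul_eq_mul]
      exact h z, smul_mul_assoc, map_smul, smul_eq_mul]
    exact (h z).symm
  | zero => rw [map_zero, zero_mul, zero_mul, map_zero, map_zero]
  | add x x' _ _ h h' => rw [map_add, add_mul, add_mul, map_add, map_add, h, h']
  | smul r x _ h => rw [map_smul, smul_mul_assoc, smul_mul_assoc, map_smul, map_smul, h]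

theorem ps_mem {Ω : Var k P'} {X : Var k P} (π : Prj Ω X) {p : Sub k P' → Prop}
    {q : Sub k P → Prop} (h : ∀ U : Sub k P', (U : Set (P'.Pt k)) ⊆ Ω.pts → p U →
      sdim U = sdim (π.img U) → q (π.img U)) {ω : EE C Ω} (hω : ω ∈ CS C Ω p) :
    ps C π ω ∈ CS C X q := by
  refine num2_CS_map Ω (ps C π) _ (fun U hU hp => ?_) hω
  obtain ⟨n, hn, e⟩ := ps_cy hC π hU
  rw [e]
  rcases n.eq_zero_or_pos with rfl | h0
  · rw [Nat.cast_zero, zero_smul]
    exact zero_mem _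
  · exact Submodule.smul_mem _ _ (num2_cy_mem X (n1_img_sub π hU) (h U hU hp (hn.1 h0)))

theorem ps_mul {Ω : Var k P'} {X : Var k P} (π : Prj Ω X) {ω : EE C Ω} (hω : ω ∈ AL C Ω)
    (z : EE C X) : ps C π (ω * pl C π z) = ps C π ω * z := by
  refine ps_eq C π fun z' => ?_
  rw [mul_assoc, ← map_mul, ← ps_tau hC π hω, mul_assoc]

theorem ratio' (X : Var k P) {Z : Sub k P} (hZ : (Z : Set (P.Pt k)) ⊆ X.pts) {κ : Type}
    {f e : κ → MvPolynomial P.V k} {a b : P.ι →₀ ℕ} (hf : ∀ s, IsForm (f s) a)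
    (he : ∀ s, IsForm (e s) b) (hfe : ∀ s t, Van (Z : Set (P.Pt k)) (f s * e t - f t * e s))
    (h0 : ∃ s, ¬ Van (Z : Set (P.Pt k)) (f s)) (h1 : ∃ s, ¬ Van (Z : Set (P.Pt k)) (e s)) :
    cy C X Z * (ln C X a - ln C X b) ∈ CS C X fun T => T ≤ Z ∧ sdim T + 1 = sdim Z ∧
      ((∀ t, Van (T : Set (P.Pt k)) (f t)) ∨ ∀ t, Van (T : Set (P.Pt k)) (e t)) := by
  classical
  obtain ⟨m, hm⟩ := n_div hC X hZ
  have both : ∀ T ≤ Z, (∃ s, ¬ Van (T : Set (P.Pt k)) (f s)) →
      (∃ s, ¬ Van (T : Set (P.Pt k)) (e s)) →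
      ∃ t, ¬ Van (T : Set (P.Pt k)) (f t) ∧ ¬ Van (T : Set (P.Pt k)) (e t) :=
    fun T hT ⟨s, hs⟩ ⟨t, ht⟩ => ⟨t, fun hft => (Van.mul (hf s) (he t)
      (num2_van_cancel (num2_van_mono hT (hfe s t)) hft)).elim hs ht, ht⟩
  obtain ⟨s0, hf0, he0⟩ := both Z le_rfl h0 h1
  obtain ⟨a1, -, a3, a4⟩ := hm (f s0) a (hf s0) hf0
  obtain ⟨b1, -, -, b4⟩ := hm (e s0) b (he s0) he0
  let B := (finite_div Z (hf s0) hf0).toFinset ∪ (finite_div Z (he s0) he0).toFinset
  have hB : ∀ T, T ∈ B ↔ (T ≤ Z ∧ sdim T + 1 = sdim Z ∧ Van (T : Set (P.Pt k)) (f s0)) ∨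
      (T ≤ Z ∧ sdim T + 1 = sdim Z ∧ Van (T : Set (P.Pt k)) (e s0)) := fun T => by
    simp only [B, Finset.mem_union, Set.Finite.mem_toFinset, Set.mem_ofPred_eq]
  rw [mul_sub, a4 B fun T hT => (hB T).2 (.inl ((a1 T).1 hT)),
    b4 B fun T hT => (hB T).2 (.inr ((b1 T).1 hT)), ← Finset.sum_sub_distrib]
  refine Submodule.sum_mem _ fun T hT => ?_
  obtain ⟨hT, hd⟩ : T ≤ Z ∧ sdim T + 1 = sdim Z :=
    ((hB T).1 hT).elim (fun h => ⟨h.1, h.2.1⟩) fun h => ⟨h.1, h.2.1⟩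
  rw [← sub_smul]
  by_cases hx : (∀ t, Van (T : Set (P.Pt k)) (f t)) ∨ ∀ t, Van (T : Set (P.Pt k)) (e t)
  · exact Submodule.smul_mem _ _ (num2_cy_mem X (num2_sub hT hZ) ⟨hT, hd, hx⟩)
  obtain ⟨t, hft, het⟩ := both T hT (not_forall.1 fun h => hx (.inl h))
    (not_forall.1 fun h => hx (.inr h))
  have hfZ : ¬ Van (Z : Set (P.Pt k)) (f t) := fun h => hft (num2_van_mono hT h)
  have heZ : ¬ Van (Z : Set (P.Pt k)) (e t) := fun h => het (num2_van_mono hT h)
  obtain ⟨c1, -, c3, -⟩ := hm (f t) a (hf t) hfZ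
  obtain ⟨-, d2, -, -⟩ := hm (f t * e s0) (a + b) ((hf t).mul (he s0)) fun h =>
    (Van.mul (hf t) (he s0) h).elim hfZ he0
  have e1 := d2 (f s0 * e t) ((hf s0).mul (he t)) (hfe s0 t) T
  have e2 := a3 (e t) b (he t) heZ T
  have e3 := c3 (e s0) b (he s0) he0 T
  have e4 : ¬ 0 < m T (e t) := fun h => het (((hm (e t) b (he t) heZ).1 T).1 h).2.2
  have e5 : ¬ 0 < m T (f t) := fun h => hft ((c1 T).1 h).2.2
  rw [show m T (f s0) = m T (e s0) by omega, sub_self, zero_smul]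
  exact zero_mem _

theorem cy_pl_congr {Ω : Var k P'} {X : Var k P} (π π' : Prj Ω X) {U : Sub k P'}
    (hU : (U : Set (P'.Pt k)) ⊆ Ω.pts) (h : ∀ z ∈ U, π.pr z = π'.pr z) (x : EE C X) :
    cy C Ω U * pl C π x = cy C Ω U * pl C π' x := by
  have key : ∀ π : Prj Ω X, ∃ ρ : Prj Ω (Ω.prod X), ρ.toCrd = (Crd.refl k P').pair π.toCrd ∧
      (∀ z, pl C ρ (pl C (Prj.p1 Ω X) z) = z) ∧ pl C ρ (pl C (Prj.p2 Ω X) x) = pl C π x := by
    intro π
    refine ⟨⟨(Crd.refl k P').pair π.toCrd, fun z hz => ⟨hz, π.maps z hz⟩⟩, rfl, fun z => ?_, ?_⟩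
    · rw [← pl_comp C _ (Prj.p1 Ω X) (Prj.refl Ω) fun _ => rfl, pl_id C _ fun _ => rfl]
    · rw [← pl_comp C _ (Prj.p2 Ω X) π fun _ => rfl]
  obtain ⟨ρ, h1, h2, h3⟩ := key π
  obtain ⟨ρ', h1', h2', h3'⟩ := key π'
  have hi : ρ'.img U = ρ.img U := by
    rw [h1, h1']
    refine Crd.img_congr _ _ fun z hz => funext ?_
    rintro (i | i)
    · rfl
    · exact congrFun (h z hz).symm i
  obtain ⟨n, -, hn⟩ := n_push hC ρ hU
  obtain ⟨n', -, hn'⟩ := n_push hC ρ' hU
  rw [hi] at hn'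
  have hpos := nm_pos hC Ω (Crd.refl k P') (Crd.refl k P') hU
    (fun T _ => by rw [Crd.img_refl]) (a := Finsupp.equivFunOnFinite.symm fun _ => 1)
    (fun i => by simp) (b := Finsupp.equivFunOnFinite.symm fun _ => 1) (fun i => by simp)
    0 (sdim U) (Nat.zero_le _) (zero_add _)
  generalize ln C Ω _ ^ 0 * ln C Ω _ ^ sdim U = l at hpos
  have e := hn (pl C (Prj.p1 Ω X) l)
  have e' := hn' (pl C (Prj.p1 Ω X) l)
  rw [h2] at e
  rw [h2'] at e'
  have hnn : (n : ℚ) = n' := mul_right_cancel₀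
    (fun h0 => hpos.ne' (by rw [e, h0, mul_zero])) (e.symm.trans e')
  refine tau_pd Ω fun z => ?_
  have f := hn (pl C (Prj.p2 Ω X) x * pl C (Prj.p1 Ω X) z)
  have f' := hn' (pl C (Prj.p2 Ω X) x * pl C (Prj.p1 Ω X) z)
  rw [map_mul, h2, h3, nm_apply] at f
  rw [map_mul, h2', h3', nm_apply] at f'
  rw [mul_assoc, mul_assoc, f, f', hnn]

/-- The refined support property for a smooth subvariety `Y` which `W` meets properly. -/
theorem refsup {X Y : Var k P} (hY : IsIrreducible Y.pts) (h : Y.pts ⊆ X.pts) {W S : Sub k P}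
    (hW : (W : Set (P.Pt k)) ⊆ X.pts) (hS : (S : Set (P.Pt k)) ⊆ Y.pts)
    (hp : ∀ U ≤ W, (U : Set (P.Pt k)) ⊆ Y.pts → sdim U + X.dim ≤ Y.dim + sdim W) :
    cy C X W * cy C X S ∈ CS C X fun U => U ≤ W ∧ (U : Set (P.Pt k)) ⊆ Y.pts := by
  have hi : ∀ U : Sub k P, (incl h).img U = U := Crd.img_refl
  have h1 := n_meet hC (incl h) (Z := Y.top hY) subset_rfl hW fun U hU hU' => by
    rw [Y.sdim_top hY]
    exact hp U (hi U ▸ hU') hU
  rw [cy_top, one_mul] at h1
  have h2 := CS_mul_AL hC Y hY (p := fun U => U ≤ W) (fun U T h h' => h.trans h')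
    (num2_CS_mono Y (fun U hU => hi U ▸ hU.2.1) h1) (cy_AL Y S)
  have h3 := ps_mem hC (incl h) (q := fun U => U ≤ W ∧ (U : Set (P.Pt k)) ⊆ Y.pts)
    (fun U hU hU' _ => by rw [hi]; exact ⟨hU', hU⟩) h2
  obtain ⟨n, hn, e⟩ := ps_cy hC (incl h) hS
  rw [hi] at hn e
  rw [mul_comm, ps_mul hC _ (cy_AL Y S), e, smul_mul_assoc, mul_comm] at h3
  exact (Submodule.smul_mem_iff _ (Nat.cast_ne_zero.2 (hn.2 rfl).ne')).1 h3

end Pool.Agent.Work.MP_ffcd14_ag.Dg
end

-- merged part: Pool.Agent.Work.MP_ffcd14_ag.Dg.C1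
section
/-!
# Degenerations: vertical classes

Plan.  `V0_mul`: `CS_mul_AL`.  `eta_V0`: `n_div'` on `X.top`.  `vt_eta`: one of the coordinates of
the factor `b` has no zero on `U`, `n_div'`.  `vt_VV`: if `s` does not vanish on the vertical `U` it
has no zero on `U` (`ev_base`), and `n_meet` for `Prj.refl` gives `cy U * cy T = 0` for `T` in the
special fibre.  `Sp.over`: `krg`.
-/

open MvPolynomial Topology TopologicalSpace

namespace Pool.Agent.Work.MP_ffcd14_ag.Dg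

set_option linter.unusedSectionVars false

universe u v w

variable {k : Type u} [Field k] [IsAlgClosed k] {K : Type v} [Field K] [CharZero K]
  {P : Amb} {C : NT.{u, v, w} k K} {X : Var k P} {b : P.ι} {s : MvPolynomial P.V k}

theorem Sp.over (S : Sp X b s) {U : Sub k P} (hU : (U : Set (P.Pt k)) ⊆ X.pts)
    (h : Van (U : Set (P.Pt k)) s) : ∃ T : Sub k P, U ≤ T ∧ (T : Set (P.Pt k)) ⊆ X.pts ∧
      sdim T + 1 = X.dim ∧ Van (T : Set (P.Pt k)) s := by
  obtain ⟨T, h1, h2, h3, h4⟩ := krg (Z := X.top S.irr) (fun _ hx => hU hx) S.form S.nv h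
  exact ⟨T, h1, fun _ hx => h2 hx, by rw [h4, X.sdim_top], h3⟩

theorem V0_AL {x : EE C X} (hx : x ∈ V0 C X s) : x ∈ AL C X := CS_le_AL X _ hx

theorem VV_AL {x : EE C X} (hx : x ∈ VV C X s) : x ∈ AL C X :=
  (sup_le (fun _ h => V0_AL h) fun _ h => h.1 : VV C X s ≤ AL C X) hx

theorem NN_mul {a x : EE C X} (ha : a ∈ AL C X) (hx : x ∈ NN C X b) : a * x ∈ NN C X b := by
  refine ⟨AL_mul X ha hx.1, fun z hz => ?_⟩
  rw [← hx.2 _ (AL_mul X ha hz)]
  exact congrArg _ (by ring)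

variable (hC : C.Cyc)
include hC

theorem V0_mul (hX : IsIrreducible X.pts) {a x : EE C X} (ha : a ∈ AL C X) (hx : x ∈ V0 C X s) :
    a * x ∈ V0 C X s := by
  rw [mul_comm]
  exact CS_mul_AL hC X hX (fun _ _ h hT => num2_van_mono h hT) hx ha

theorem VV_mul (hX : IsIrreducible X.pts) {a x : EE C X} (ha : a ∈ AL C X) (hx : x ∈ VV C X s) :
    a * x ∈ VV C X s := by
  obtain ⟨y, hy, z, hz, rfl⟩ := Submodule.mem_sup.1 hx
  rw [mul_add]
  refine Submodule.add_mem_sup (V0_mul hC hX ha hy) ⟨AL_mul X ha hz.1, fun v hv => ?_⟩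
  rw [← hz.2 _ (V0_mul hC hX ha hv)]
  exact congrArg _ (by ring)

theorem vt_eta {x : EE C X} (hx : x ∈ CS C X (Vt b)) : hy C X b * x = 0 := by
  refine num2_CS_map X (LinearMap.mulLeft ℚ (hy C X b)) ⊥ (fun U hU hv => ?_) hx
  obtain ⟨x0, hx0⟩ := U.isIrreducible.nonempty
  obtain ⟨t, ht⟩ := Function.ne_iff.1 (x0 b).rep_nonzero
  have hf := IsForm.X (k := k) (P := P) ⟨b, t⟩
  have h0 : ∀ y ∈ U, ev y (MvPolynomial.X ⟨b, t⟩) ≠ 0 := fun y hy => by
    rw [ev_base hf (hv y hy x0 hx0), ev_X]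
    exact ht
  obtain ⟨r, m, h1, -, h2⟩ := n_div' hC X hU hf fun h => h0 x0 hx0 (h x0 hx0)
  have h3 : r = ∅ := Finset.eq_empty_of_forall_notMem fun T hT => by
    obtain ⟨y, hy⟩ := T.isIrreducible.nonempty
    obtain ⟨a1, -, a2⟩ := (h1 T).1 hT
    exact h0 y (a1 hy) (a2 y hy)
  rw [h3, Finset.sum_empty, ln_single, mul_comm] at h2
  exact h2

theorem eta_V0 (S : Sp X b s) : hy C X b ∈ V0 C X s := by
  obtain ⟨r, m, h1, -, h2⟩ := n_div' hC X (Z := X.top S.irr) (fun _ hx => hx) S.form S.nv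
  rw [cy_top, one_mul, ln_single] at h2
  rw [h2]
  exact Submodule.sum_mem _ fun T hT => Submodule.smul_mem _ _
    (num2_cy_mem X (fun _ hx => ((h1 T).1 hT).1 hx) ((h1 T).1 hT).2.2)

theorem V0_eta (S : Sp X b s) {x : EE C X} (hx : x ∈ V0 C X s) : hy C X b * x = 0 := by
  refine vt_eta hC (num2_CS_map X LinearMap.id _ (fun U hU hv => ?_) hx)
  exact num2_cy_mem X hU (vt_of_van S.curve S.form S.nv hU hv)

theorem vt_VV (S : Sp X b s) : CS C X (Vt b) ≤ VV C X s := by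
  intro x hx
  refine num2_CS_map X LinearMap.id _ (fun U hU hv => ?_) hx
  by_cases h : Van (U : Set (P.Pt k)) s
  · exact Submodule.mem_sup_left (num2_cy_mem X hU h)
  refine Submodule.mem_sup_right ⟨cy_AL X U, fun v hv' => ?_⟩
  refine Desc_CS X (nm C X U) (fun T hT hs => ?_) hv'
  have h0 : ∀ W ≤ U, ¬ (Prj.refl X).img W ≤ T := fun W hW hW' => by
    obtain ⟨y, hy⟩ := W.isIrreducible.nonempty
    refine h fun z hz => ?_
    rw [ev_base S.form (hv z hz y (hW hy))]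
    exact hs y (hW' ((Prj.refl X).mem_img hy))
  have h1 := n_meet hC (Prj.refl X) hU hT fun W hW hW' => (h0 W hW hW').elim
  rw [pl_id C _ fun _ => rfl] at h1
  exact Desc_CS X (tau C X) (fun W _ hW => (h0 W hW.1 hW.2.1).elim) h1

theorem VV_le_NN (S : Sp X b s) : VV C X s ≤ NN C X b := by
  refine sup_le (fun x hx => ⟨V0_AL hx, fun z _ => ?_⟩) fun x hx => ⟨hx.1, fun z hz => ?_⟩
  · rw [V0_eta hC S hx, zero_mul, map_zero]
  · rw [← hx.2 _ (V0_mul hC S.irr hz (eta_V0 hC S))]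
    exact congrArg _ (by ring)

end Pool.Agent.Work.MP_ffcd14_ag.Dg
end

-- merged part: Pool.Agent.Work.MP_ffcd14_ag.Dg.G3
section
/-!
# Degenerations: properties of the join

Plan.  `Fam.fin`: by `Fac.Ok.fin` (for `j` with the point `q₀`) the coordinate `q (γ j)` takes
finitely many values, and by `Fam.inj` it determines `q`.  `Jn.sc`: `r (inl s) = r (inr s)` is a
non-zero vector (`rv_ne`) proportional to `u p ≠ 0` and to `u q ≠ 0`.  `Jn.fin`: `sdim_le_of_fin`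
for `cp` at a good point; `q` takes finitely many values and `(p, q)` determines `r`
(`HI_mk_eq`, `sum_ext`).  `Jn.low`: let `W` be the image, `z₀ = (p₀, q₀)` a good point of it and
`u s (q₀) ≠ 0`; `krg_fin` through the point `z₀` for the `m` forms
`u s (q₀) u t (q) - u t (q₀) u s (q)`, then `sdim_le_of_fin` for `Crd.inl`.  `Jn.minor`: `van_of_open`,
`Fac.Ok.desc`.  `Jn.eq`: `Fac.Ok.sep`, `Fam.inj` at the good points, then `le_of_open` or
`van_of_open` with `exists_minor`; the set `p = q` is closed (`isClosed_eq_crd`).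
-/

open MvPolynomial Topology TopologicalSpace

namespace Pool.Agent.Work.MP_ffcd14_ag.Dg

set_option linter.unusedSectionVars false

universe u v w

variable {k : Type u} [Field k] [IsAlgClosed k] {P : Amb} {X : Var k P} {b : P.ι} {ι : Type}
  [Fintype ι] {F : ι → Fac k P} {g : MvPolynomial P.V k} {j : ι} {J Y : Sub k (PJ P (F j).m)}

theorem Fam.fin (h : Fam X b F g) (j : ι) {p q₀ : P.Pt k} (hq : q₀ ∈ X.pts) (hg : ev q₀ g ≠ 0) :
    {q | q ∈ X.pts ∧ q₀ b = q b ∧ (∀ i, i ≠ j → p (F i).γ = q (F i).γ) ∧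
      ∃ c, (F j).Sc q₀ q c}.Finite := by
  obtain ⟨c, hc⟩ := h.form
  refine Set.Finite.of_finite_image (f := fun q => q (F j).γ)
    (((h.ok j).fin q₀ ⟨hq, hg⟩).subset ?_) fun q hq1 q' hq2 e => ?_
  · rintro _ ⟨q, ⟨h1, h2, -, c', h4⟩, rfl⟩
    exact ⟨q, ⟨h1, ev_base hc h2 ▸ hg⟩, c', h2, h4, rfl⟩
  · refine h.inj q hq1.1 q' hq2.1 (ev_base hc hq1.2.1 ▸ hg) (hq1.2.1.symm.trans hq2.2.1) fun i => ?_
    by_cases hi : i = j
    · exact hi ▸ e
    · exact (hq1.2.2.1 i hi).symm.trans (hq2.2.2.1 i hi)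

theorem G3_sub (x : P.Pt k) (f f' : MvPolynomial P.V k) : ev x (f - f') = ev x f - ev x f' :=
  map_sub (eval (rp x)) f f'

theorem G3_pow (x : P.Pt k) (f : MvPolynomial P.V k) (n : ℕ) : ev x (f ^ n) = ev x f ^ n :=
  map_pow (eval (rp x)) f n

theorem G3_ex {U : Set (P.Pt k)} {f : MvPolynomial P.V k} (h : ¬ Van U f) :
    ∃ x ∈ U, ev x f ≠ 0 := by
  by_contra h0
  exact h fun x hx => by_contra fun e => h0 ⟨x, hx, e⟩

theorem Jn.good (h : Fam X b F g) (hJ : Jn X b F g j J Y) {z : (PJ P (F j).m).Pt k} (hz : z ∈ J) :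
    ev ((cp k P (F j).m).pr z) g = ev ((cq k P (F j).m).pr z) g := by
  obtain ⟨c, hc⟩ := h.form
  exact ev_base hc (hJ.base z hz)

theorem G3_mem (h : Fam X b F g) (hJ : Jn X b F g j J Y) {z : (PJ P (F j).m).Pt k} (hz : z ∈ J)
    (hg : ev ((cp k P (F j).m).pr z) g ≠ 0) :
    (cp k P (F j).m).pr z ∈ {x ∈ X.pts | ev x g ≠ 0} ∧
      (cq k P (F j).m).pr z ∈ {x ∈ X.pts | ev x g ≠ 0} :=
  ⟨⟨(mem_om.1 (hJ.sub hz)).1, hg⟩, (mem_om.1 (hJ.sub hz)).2, Jn.good h hJ hz ▸ hg⟩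

theorem Jn.nv (h : Fam X b F g) (hJ : Jn X b F g j J Y) {U : Sub k (PJ P (F j).m)} (hU : Y ≤ U)
    {f : MvPolynomial P.V k} (hf : ¬ Van X.pts f) :
    ¬ Van (U : Set ((PJ P (F j).m).Pt k)) (rename (cp k P (F j).m).ε f) ∧
      ¬ Van (U : Set ((PJ P (F j).m).Pt k)) (rename (cq k P (F j).m).ε f) := by
  have _ := h.irr
  obtain ⟨x, hx, h0⟩ := G3_ex hf
  rw [← hJ.top] at hx
  obtain ⟨z, hz, rfl⟩ := (Crd.mem_img_iff _).1 hx
  exact ⟨fun H => h0 ((Crd.ev_rename _ z f).symm.trans (H z (hU hz))),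
    fun H => h0 (hJ.dia z hz ▸ (Crd.ev_rename _ z f).symm.trans (H z (hU hz)))⟩

theorem G3_m (hJ : Jn X b F g j J Y) {z : (PJ P (F j).m).Pt k} (hz : z ∈ J)
    (hr : ∀ i, ev z (rho' k P i) = 0) (s t : Fin ((F j).m + 1)) :
    ev z (rv k P (Sum.inr s)) = ev z (rv k P (Sum.inl s)) ∧
    ev z (rv k P (Sum.inl s)) * ev ((cp k P (F j).m).pr z) ((F j).u t) =
      ev z (rv k P (Sum.inl t)) * ev ((cp k P (F j).m).pr z) ((F j).u s) ∧
    ev z (rv k P (Sum.inl s)) * ev ((cq k P (F j).m).pr z) ((F j).u t) =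
      ev z (rv k P (Sum.inl t)) * ev ((cq k P (F j).m).pr z) ((F j).u s) := by
  have h0 : ∀ s, ev z (rv k P (Sum.inr s)) = ev z (rv k P (Sum.inl s)) := fun s =>
    (sub_eq_zero.1 ((G3_sub z _ _).symm.trans (hr s))).symm
  have h1 := hJ.m1 s t z hz
  have h2 := hJ.m2 s t z hz
  simp only [G3_sub, ev_mul, Crd.ev_rename, sub_eq_zero, h0] at h1 h2
  exact ⟨h0 s, h1, h2⟩

theorem Jn.sc (h : Fam X b F g) (hJ : Jn X b F g j J Y) {z : (PJ P (F j).m).Pt k} (hz : z ∈ J)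
    (hg : ev ((cp k P (F j).m).pr z) g ≠ 0) (hr : ∀ i, ev z (rho' k P i) = 0) :
    ∃ c, (F j).Sc ((cp k P (F j).m).pr z) ((cq k P (F j).m).pr z) c := by
  obtain ⟨s, hs⟩ : ∃ s, ev z (rv k P (Sum.inl s)) ≠ 0 := by
    obtain ⟨s | s, hs⟩ := rv_ne z
    · exact ⟨s, hs⟩
    · exact ⟨s, (G3_m hJ hz hr s s).1 ▸ hs⟩
  obtain ⟨t, ht⟩ := (h.ok j).ne _ (G3_mem h hJ hz hg).1
  have h1 : ev ((cp k P (F j).m).pr z) ((F j).u s) ≠ 0 := fun e =>
    mul_ne_zero hs ht (by rw [(G3_m hJ hz hr s t).2.1, e, mul_zero])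
  refine ⟨ev ((cq k P (F j).m).pr z) ((F j).u s) / ev ((cp k P (F j).m).pr z) ((F j).u s),
    fun i => mul_left_cancel₀ hs ?_⟩
  rw [mul_left_comm, (G3_m hJ hz hr s i).2.1, (G3_m hJ hz hr s i).2.2]
  field_simp

theorem G3_le (h : Fam X b F g) {Q : Amb} (β : Crd k P Q) {U : Sub k Q}
    (hU : ∀ y ∈ U, β.pr y ∈ X.pts) {x : Q.Pt k} (hx : x ∈ U)
    (hf : {y | y ∈ U ∧ β.pr y = β.pr x}.Finite) : sdim U ≤ X.dim :=
  (sdim_le_of_fin β hx hf).trans (X.sdim_le h.irr ((β.img_sub X.closed).2 hU))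

theorem Jn.fin (h : Fam X b F g) (hJ : Jn X b F g j J Y) {U : Sub k (PJ P (F j).m)} (hU : U ≤ J)
    (hg : ¬ Van (U : Set ((PJ P (F j).m).Pt k)) (rename (cp k P (F j).m).ε g))
    (hr : ∀ i, Van (U : Set ((PJ P (F j).m).Pt k)) (rho' k P i)) : sdim U ≤ X.dim := by
  obtain ⟨z, hz, h0⟩ := G3_ex hg
  rw [Crd.ev_rename] at h0
  have hp := (G3_mem h hJ (hU hz) h0).1
  refine G3_le h (cp k P (F j).m) (fun y hy => (mem_om.1 (hJ.sub (hU hy))).1) hz ?_
  refine Set.Finite.of_finite_image (f := (cq k P (F j).m).pr)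
    ((h.fin j (p := (cp k P (F j).m).pr z) hp.1 h0).subset ?_) fun y hy y' hy' e => ?_
  · rintro _ ⟨y, ⟨h1, h2⟩, rfl⟩
    rw [← h2] at h0 ⊢
    exact ⟨(mem_om.1 (hJ.sub (hU h1))).2, hJ.base y (hU h1), fun i hi => hJ.oth i hi y (hU h1),
      Jn.sc h hJ (hU h1) h0 fun i => hr i y h1⟩
  · refine sum_ext (sum_ext (hy.2.trans hy'.2.symm) e) (funext fun _ => ?_)
    obtain ⟨t, ht⟩ := (h.ok j).ne _ hp
    have key : ∀ y ∈ U, (cp k P (F j).m).pr y = (cp k P (F j).m).pr z → ∀ s,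
        (y (Sum.inr ())).rep s * ev ((cp k P (F j).m).pr z) ((F j).u t) =
          ev y (rv k P (Sum.inl t)) * ev ((cp k P (F j).m).pr z) ((F j).u (Sum.elim id id s)) := by
      intro y h1 h2 s
      have h3 := fun s => G3_m hJ (hU h1) (fun i => hr i y h1) s t
      rw [← h2, ← (h3 _).2.1]
      rcases s with s | s
      · exact congrArg (· * _) (ev_X y ⟨Sum.inr (), Sum.inl s⟩).symm
      · exact congrArg (· * _) ((ev_X y ⟨Sum.inr (), Sum.inr s⟩).symm.trans (h3 s).1)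
    refine (Projectivization.mk_rep (y (Sum.inr ()))).symm.trans ((HI_mk_eq _ _ fun s s' =>
      mul_right_cancel₀ (mul_ne_zero ht ht) ?_).trans (Projectivization.mk_rep (y' (Sum.inr ()))))
    rw [mul_mul_mul_comm, key y hy.1 hy.2, key y' hy'.1 hy'.2, mul_mul_mul_comm _ _ _ (ev _ _),
      mul_mul_mul_comm ((y _).rep s'), key y hy.1 hy.2, key y' hy'.1 hy'.2]
    ring

theorem Jn.low (h : Fam X b F g) (hJ : Jn X b F g j J Y) :
    sdim ((Crd.inl k (P.sum P) (QA (F j).m)).img J) < sdim J := by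
  obtain ⟨z, hz, h0⟩ := G3_ex (Jn.nv h hJ hJ.le (fun H => h.ne.elim fun x hx => hx.2 (H x hx.1))).1
  rw [Crd.ev_rename] at h0
  have hq := (G3_mem h hJ hz h0).2
  obtain ⟨s, hs⟩ := (h.ok j).ne _ hq
  let f : Fin (F j).m → MvPolynomial (P.sum P).V k := fun t =>
    ev ((cq k P (F j).m).pr z) ((F j).u s) • rename (Crd.inr k P P).ε ((F j).u (s.succAbove t)) -
      ev ((cq k P (F j).m).pr z) ((F j).u (s.succAbove t)) • rename (Crd.inr k P P).ε ((F j).u s)
  have hf : ∀ y t, ev y (f t) = ev ((cq k P (F j).m).pr z) ((F j).u s) *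
      ev ((Crd.inr k P P).pr y) ((F j).u (s.succAbove t)) -
      ev ((cq k P (F j).m).pr z) ((F j).u (s.succAbove t)) *
        ev ((Crd.inr k P P).pr y) ((F j).u s) := fun y t => by
    rw [← (Crd.inr k P P).ev_rename, ← (Crd.inr k P P).ev_rename]
    simp only [f, ev_eq, map_sub, smul_eval]
  obtain ⟨T, h1, h2, h3, h4⟩ := krg_fin
    (FibA_pt_le ((Crd.inl k (P.sum P) (QA (F j).m)).mem_img hz)) f
    (fun t => ⟨_, IsWeightedHomogeneous.sub
      ((weightedHomogeneousSubmodule k _ _).smul_mem _ ((Crd.inr k P P).form ((F j).hu _)))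
      ((weightedHomogeneousSubmodule k _ _).smul_mem _ ((Crd.inr k P P).form ((F j).hu _)))⟩)
    fun t y hy => by
      obtain rfl : y = _ := hy
      rw [hf, mul_comm]
      exact sub_self _
  have h5 : sdim T ≤ X.dim := by
    refine G3_le h (Crd.inl k P P) (fun y hy => ?_) (h1 rfl) ?_
    · obtain ⟨w, hw, rfl⟩ := (Crd.mem_img_iff _).1 (h2 hy)
      exact (mem_om.1 (hJ.sub hw)).1
    refine Set.Finite.of_finite_image (f := (Crd.inr k P P).pr)
      ((h.fin j (p := (cp k P (F j).m).pr z) hq.1 hq.2).subset ?_) fun y hy y' hy' e =>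
        sum_ext (hy.2.trans hy'.2.symm) e
    rintro _ ⟨y, ⟨hy, e⟩, rfl⟩
    have h6 := fun t => sub_eq_zero.1 ((hf y t).symm.trans (h3 t y hy))
    obtain ⟨w, hw, rfl⟩ := (Crd.mem_img_iff _).1 (h2 hy)
    have e' : (cp k P (F j).m).pr w = (cp k P (F j).m).pr z := e
    refine ⟨(mem_om.1 (hJ.sub hw)).2, (hJ.base z hz).symm.trans (e' ▸ hJ.base w hw),
      fun i hi => e' ▸ hJ.oth i hi w hw,
      ev ((cq k P (F j).m).pr w) ((F j).u s) / ev ((cq k P (F j).m).pr z) ((F j).u s), fun i => ?_⟩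
    rw [div_mul_eq_mul_div, eq_div_iff hs]
    rcases Fin.eq_self_or_eq_succAbove s i with rfl | ⟨t, rfl⟩
    · rfl
    · rw [mul_comm]
      exact (h6 t).trans (mul_comm _ _)
  rw [Fintype.card_fin] at h4
  rw [hJ.dim]
  omega

theorem G3_van (h : Fam X b F g) {U : Sub k (PJ P (F j).m)}
    (hg : ¬ Van (U : Set ((PJ P (F j).m).Pt k)) (rename (cp k P (F j).m).ε g))
    {f : MvPolynomial (PJ P (F j).m).V k} {a : (PJ P (F j).m).ι →₀ ℕ} (hf : IsForm f a)
    (H : ∀ z ∈ U, ev ((cp k P (F j).m).pr z) g ≠ 0 → ev z f = 0) :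
    Van (U : Set ((PJ P (F j).m).Pt k)) f :=
  h.form.elim fun _ hc => van_of_open hf ((cp k P (F j).m).form hc) hg fun z hz h0 =>
    H z hz (Crd.ev_rename _ z g ▸ h0)

theorem Jn.minor (h : Fam X b F g) (hJ : Jn X b F g j J Y) {i : ι} (hi : i ≠ j)
    (s t : Fin ((F i).m + 1)) : Van (J : Set ((PJ P (F j).m).Pt k))
      (rename (cp k P (F j).m).ε ((F i).u s) * rename (cq k P (F j).m).ε ((F i).u t) -
        rename (cp k P (F j).m).ε ((F i).u t) * rename (cq k P (F j).m).ε ((F i).u s)) := by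
  refine G3_van h (Jn.nv h hJ hJ.le (fun H => h.ne.elim fun x hx => hx.2 (H x hx.1))).1
    (IsWeightedHomogeneous.sub
      (((cp k P (F j).m).form ((F i).hu s)).mul ((cq k P (F j).m).form ((F i).hu t)))
      (((cp k P (F j).m).form ((F i).hu t)).mul ((cq k P (F j).m).form ((F i).hu s))))
    fun z hz h0 => ?_
  obtain ⟨c, hc⟩ := (h.ok i).desc _ (G3_mem h hJ hz h0).1 _ (G3_mem h hJ hz h0).2 (hJ.base z hz)
    (hJ.oth i hi z hz)
  simp only [G3_sub, ev_mul, Crd.ev_rename, hc s, hc t]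
  ring

/-- The local equations of the section `s p - s' q`. -/
noncomputable def Fac.phi (F : Fac k P) (m : ℕ) (t : Fin (F.m + 1)) : MvPolynomial (PJ P m).V k :=
  rename (cp k P m).ε F.s * rename (cq k P m).ε (F.u t ^ F.N) -
    rename (cp k P m).ε (F.u t ^ F.N) * rename (cq k P m).ε F.s'

theorem Fac.phi_form (F : Fac k P) (m : ℕ) (t : Fin (F.m + 1)) : IsForm (F.phi m t)
    ((F.N • F.a).mapDomain (cp k P m).ψ + (F.N • F.a).mapDomain (cq k P m).ψ) := by
  exact IsWeightedHomogeneous.sub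
    (((cp k P m).form F.hs).mul ((cq k P m).form (IsWeightedHomogeneous.pow (F.hu t) F.N)))
    (((cp k P m).form (IsWeightedHomogeneous.pow (F.hu t) F.N)).mul ((cq k P m).form F.hs'))

theorem Jn.phi (h : Fam X b F g) (hJ : Jn X b F g j J Y) {U : Sub k (PJ P (F j).m)} (hU : U ≤ J)
    (hg : ¬ Van (U : Set ((PJ P (F j).m).Pt k)) (rename (cp k P (F j).m).ε g))
    (hr : ∀ i, Van (U : Set ((PJ P (F j).m).Pt k)) (rho' k P i)) (s t : Fin ((F j).m + 1)) :
    Van (U : Set ((PJ P (F j).m).Pt k))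
      ((F j).phi (F j).m s * rename (cq k P (F j).m).ε ((F j).u t ^ (F j).N) -
        (F j).phi (F j).m t * rename (cq k P (F j).m).ε ((F j).u s ^ (F j).N)) := by
  refine G3_van h hg (IsWeightedHomogeneous.sub
      (((F j).phi_form _ s).mul
        ((cq k P (F j).m).form (IsWeightedHomogeneous.pow ((F j).hu t) (F j).N)))
      (((F j).phi_form _ t).mul
        ((cq k P (F j).m).form (IsWeightedHomogeneous.pow ((F j).hu s) (F j).N))))
    fun z hz h0 => ?_
  obtain ⟨c, hc⟩ := Jn.sc h hJ (hU hz) h0 fun i => hr i z hz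
  simp only [Fac.phi, G3_sub, ev_mul, Crd.ev_rename, G3_pow, hc s, hc t]
  ring

theorem Jn.eq (h : Fam X b F g) (hJ : Jn X b F g j J Y) {U : Sub k (PJ P (F j).m)} (hU : U ≤ J)
    (hg : ¬ Van (U : Set ((PJ P (F j).m).Pt k)) (rename (cp k P (F j).m).ε g))
    (hr : ∀ i, Van (U : Set ((PJ P (F j).m).Pt k)) (rho' k P i))
    (hp : ∀ t, Van (U : Set ((PJ P (F j).m).Pt k)) ((F j).phi (F j).m t)) :
    ∀ z ∈ U, (cp k P (F j).m).pr z = (cq k P (F j).m).pr z := by
  refine subset_of_van (isClosed_eq_crd (cp k P (F j).m) (cq k P (F j).m)) fun f a hf hv =>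
    G3_van h hg hf fun z hz h0 => hv z ?_
  obtain ⟨h1, h2⟩ := G3_mem h hJ (hU hz) h0
  refine h.inj _ h1.1 _ h2.1 h0 (hJ.base z (hU hz)) fun i => ?_
  by_cases hi : i = j
  swap
  · exact hJ.oth i hi z (hU hz)
  subst hi
  obtain ⟨c, hc⟩ := Jn.sc h hJ (hU hz) h0 fun i => hr i z hz
  obtain ⟨t, ht⟩ := (h.ok i).ne _ h1
  refine (h.ok i).sep _ h1 _ h2 c (hJ.base z (hU hz)) hc
    (mul_left_cancel₀ (pow_ne_zero (F i).N ht) ?_)
  have h3 := hp t z hz
  simp only [Fac.phi, G3_sub, ev_mul, Crd.ev_rename, G3_pow, hc t] at h3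
  linear_combination -h3

/-- Where `g` is not identically zero, the forms `u p` and `u q` are not all zero. -/
theorem Jn.une (h : Fam X b F g) (hJ : Jn X b F g j J Y) {U : Sub k (PJ P (F j).m)} (hU : U ≤ J)
    (hg : ¬ Van (U : Set ((PJ P (F j).m).Pt k)) (rename (cp k P (F j).m).ε g)) (i : ι) :
    (∃ s, ¬ Van (U : Set ((PJ P (F j).m).Pt k)) (rename (cp k P (F j).m).ε ((F i).u s))) ∧
      ∃ s, ¬ Van (U : Set ((PJ P (F j).m).Pt k)) (rename (cq k P (F j).m).ε ((F i).u s)) := by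
  obtain ⟨z, hz, h0⟩ := G3_ex hg
  rw [Crd.ev_rename] at h0
  obtain ⟨h1, h2⟩ := G3_mem h hJ (hU hz) h0
  exact ⟨((h.ok i).ne _ h1).imp fun s hs H => hs ((Crd.ev_rename _ z _).symm.trans (H z hz)),
    ((h.ok i).ne _ h2).imp fun s hs H => hs ((Crd.ev_rename _ z _).symm.trans (H z hz))⟩

end Pool.Agent.Work.MP_ffcd14_ag.Dg
end

-- merged part: Pool.Agent.Work.MP_ffcd14_ag.Dg.O1
section
/-!
# Degenerations: the operator defined by the join

Plan.  `ps_vt`: `CS_mul_AL`, `ps_mem`.  `J_V0`: for `T` in the special fibre take a component `Y'`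
over it (`Sp.over`, `Sp.sm`); `pl pQ (cy T)` is a combination of `S` with image in `T` (`n_meet` for
the top of `Om X X m`, `om_le`, `om_dim`); `refsup` for `Om X Y' m`, which `J` meets properly
(`Jn.nv`, `sdim_lt`); on `J` the forms `s p` and `s q` agree (`ev_base`).  The same for `pP`.
`EJ_V1`: `ps_tau` for `pP` and for `pQ`.  `J_eta`: `cy_pl_congr` for the two maps to
`Var.full k (Amb.one (P.σ b))`, or `ratio'`.  `EJ_NN`: `tau_N0`.  `EJ_comm`: `ratio'`, `Jn.minor`,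
`Jn.une`, `vt_of_van`.  `pow_vt`: by induction on `n`, `ln a ^ n` is a combination of `U` which are
vertical or on which `n` of the forms `u` vanish.
-/

open MvPolynomial Topology TopologicalSpace

namespace Pool.Agent.Work.MP_ffcd14_ag.Dg

set_option linter.unusedSectionVars false

universe u v w

variable {k : Type u} [Field k] [IsAlgClosed k] {K : Type v} [Field K] [CharZero K]
  {P : Amb} {C : NT.{u, v, w} k K} {X : Var k P} {b : P.ι} {s : MvPolynomial P.V k} {ι : Type}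
  [Fintype ι] {F : ι → Fac k P} {g : MvPolynomial P.V k} {j : ι} {J Y : Sub k (PJ P (F j).m)}

variable (C) in
/-- The hyperplane class of the join. -/
noncomputable def HH (X : Var k P) (m : ℕ) : EE C (Om X X m) := hy C (Om X X m) (Sum.inr ())

variable (C) in
/-- The operator `x ↦ p_* (J H q^* x)`. -/
noncomputable def EJ (X : Var k P) {m : ℕ} (J : Sub k (PJ P m)) : EE C X →ₗ[ℚ] EE C X :=
  ps C (pP X X m) ∘ₗ LinearMap.mulLeft ℚ (cy C (Om X X m) J * HH C X m) ∘ₗ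
    (pl C (pQ X X m)).toLinearMap

theorem EJ_apply {m : ℕ} (J : Sub k (PJ P m)) (x : EE C X) : EJ C X J x =
    ps C (pP X X m) (cy C (Om X X m) J * HH C X m * pl C (pQ X X m) x) := rfl

variable (C) in
/-- The classes of the cycles on which `g p` vanishes. -/
noncomputable def BD (X : Var k P) (m : ℕ) (g : MvPolynomial P.V k) :
    Submodule ℚ (EE C (Om X X m)) :=
  CS C (Om X X m) fun U => Van (U : Set ((PJ P m).Pt k)) (rename (cp k P m).ε g)

variable (hC : C.Cyc)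
include hC

theorem BD_mul (h : Fam X b F g) {m : ℕ} {ω y : EE C (Om X X m)} (hω : ω ∈ BD C X m g)
    (hy : y ∈ AL C (Om X X m)) : ω * y ∈ BD C X m g := by
  exact CS_mul_AL hC _ (om_irr h.irr h.irr m) (fun _ _ hUT hT => num2_van_mono hUT hT) hω hy

omit hC in
theorem O1_img {P' : Amb} {Ω : Var k P'} (π : Prj Ω X) {U : Sub k P'}
    (hU : (U : Set (P'.Pt k)) ⊆ Ω.pts) : (π.img U : Set (P.Pt k)) ⊆ X.pts :=
  (π.img_sub X.closed).2 fun z hz => π.maps z (hU hz)

theorem ps_vt (h : Fam X b F g) {m : ℕ} {ω : EE C (Om X X m)} (hω : ω ∈ BD C X m g) :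
    ps C (pP X X m) ω ∈ CS C X (Vt b) := by
  obtain ⟨c, hg⟩ := h.form
  obtain ⟨x₀, hx₀, hg₀⟩ := h.ne
  exact ps_mem hC (pP X X m) (fun U hU hv _ => vt_of_van h.curve hg (fun e => hg₀ (e x₀ hx₀))
    (O1_img (pP X X m) hU) (((cp k P m).van_img hg).2 hv)) hω

theorem pow_vt (h : Fam X b F g) (j : ι) : ln C X (F j).a ^ ((F j).m + 1) ∈ CS C X (Vt b) := by
  obtain ⟨c, hg⟩ := h.form
  obtain ⟨x₀, hx₀, hg₀⟩ := h.ne
  have key : ∀ n, n ≤ (F j).m + 1 → ln C X (F j).a ^ n ∈ CS C X fun U => Vt b U ∨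
      ∀ i : Fin ((F j).m + 1), i.val < n → Van (U : Set (P.Pt k)) ((F j).u i) := by
    intro n
    induction n with
    | zero =>
      intro _
      rw [pow_zero, ← cy_top C X h.irr]
      exact num2_cy_mem X subset_rfl (Or.inr fun i hi => absurd hi (Nat.not_lt_zero _))
    | succ n ih =>
      intro hn
      rw [pow_succ]
      refine num2_CS_map X (LinearMap.mulRight ℚ (ln C X (F j).a)) _ (fun U hU hp => ?_)
        (ih (by omega))
      have h1 := cy_mul_AL hC X h.irr hU (ln_AL X (F j).a)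
      rcases hp with hp | hp
      · exact num2_CS_mono X (fun T hT => Or.inl (Vt.mono hT hp)) h1
      have h2 : ∀ T ≤ U, Van (T : Set (P.Pt k)) ((F j).u ⟨n, hn⟩) →
          ∀ i : Fin ((F j).m + 1), i.val < n + 1 → Van (T : Set (P.Pt k)) ((F j).u i) := by
        intro T hT hv i hi
        rcases Nat.lt_succ_iff_lt_or_eq.1 hi with e | e
        · exact num2_van_mono hT (hp i e)
        · exact (Fin.ext e : i = ⟨n, hn⟩) ▸ hv
      by_cases hv : Van (U : Set (P.Pt k)) ((F j).u ⟨n, hn⟩)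
      · exact num2_CS_mono X (fun T hT => Or.inr (h2 T hT (num2_van_mono hT hv))) h1
      · obtain ⟨t, μ, ht, -, he⟩ := n_div' hC X hU ((F j).hu _) hv
        change cy C X U * ln C X (F j).a ∈ _
        rw [he]
        exact Submodule.sum_mem _ fun T hT => Submodule.smul_mem _ _ (num2_cy_mem X
          (num2_sub ((ht T).1 hT).1 hU) (Or.inr (h2 T ((ht T).1 hT).1 ((ht T).1 hT).2.2)))
  refine num2_CS_map X LinearMap.id _ (fun U hU hp => num2_cy_mem X hU (hp.elim id fun hp => ?_))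
    (key _ le_rfl)
  refine vt_of_van h.curve hg (fun e => hg₀ (e x₀ hx₀)) hU fun x hx => by_contra fun e => ?_
  obtain ⟨i, hi⟩ := (h.ok j).ne x ⟨hU hx, e⟩
  exact hi (hp i i.2 x hx)

omit hC in
theorem O1_AL {m : ℕ} (J : Sub k (PJ P m)) (π : Prj (Om X X m) X) {x : EE C X}
    (hx : x ∈ AL C X) : cy C (Om X X m) J * HH C X m * pl C π x ∈ AL C (Om X X m) :=
  AL_mul _ (AL_mul _ (cy_AL _ _) (hy_AL _ _)) (pl_AL π hx)

theorem EJ_AL {m : ℕ} (J : Sub k (PJ P m)) {x : EE C X} (hx : x ∈ AL C X) :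
    EJ C X J x ∈ AL C X := by
  exact ps_mem hC (pP X X m) (fun _ _ _ _ => trivial) (O1_AL J _ hx)

theorem J_V0 (S : Sp X b s) (h : Fam X b F g) (hJ : Jn X b F g j J Y) {x : EE C X}
    (hx : x ∈ V0 C X s) (π : Prj (Om X X (F j).m) X)
    (hπ : π = pP X X (F j).m ∨ π = pQ X X (F j).m) :
    cy C (Om X X (F j).m) J * pl C π x ∈ CS C (Om X X (F j).m) fun U =>
      Van (U : Set ((PJ P (F j).m).Pt k)) (rename (cp k P (F j).m).ε s) ∧
        Van (U : Set ((PJ P (F j).m).Pt k)) (rename (cq k P (F j).m).ε s) := by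
  have hΩ := om_irr S.irr S.irr (F j).m
  have h1 : ∀ U : Sub k (PJ P (F j).m), (U : Set ((PJ P (F j).m).Pt k)) ⊆ (Om X X (F j).m).pts →
      sdim U ≤ sdim (π.img U) + X.dim + (2 * (F j).m + 1) := fun U hU => by
    have a1 := om_le U
    have a2 : sdim ((cp k P (F j).m).img U) ≤ X.dim := X.sdim_le S.irr (O1_img (pP X X _) hU)
    have a3 : sdim ((cq k P (F j).m).img U) ≤ X.dim := X.sdim_le S.irr (O1_img (pQ X X _) hU)
    rcases hπ with rfl | rfl
    · change _ ≤ sdim ((cp k P (F j).m).img U) + _ + _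
      omega
    · change _ ≤ sdim ((cq k P (F j).m).img U) + _ + _
      omega
  have h2 : ∀ z ∈ J, ev ((cp k P (F j).m).pr z) s = ev (π.pr z) s ∧
      ev ((cq k P (F j).m).pr z) s = ev (π.pr z) s := fun z hz => by
    have := ev_base S.form (hJ.base z hz)
    rcases hπ with rfl | rfl
    · exact ⟨rfl, this.symm⟩
    · exact ⟨this, rfl⟩
  have h3 : ∀ Y' : Var k P, IsIrreducible Y'.pts → Y'.pts ⊆ X.pts →
      ∃ Ω' : Var k (PJ P (F j).m), IsIrreducible Ω'.pts ∧
        Ω'.dim = X.dim + Y'.dim + (2 * (F j).m + 1) ∧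
        ∀ z, z ∈ Ω'.pts ↔ z ∈ (Om X X (F j).m).pts ∧ π.pr z ∈ Y'.pts := fun Y' hY hYX => by
    rcases hπ with rfl | rfl
    · exact ⟨Om Y' X _, om_irr hY S.irr _, by rw [om_dim, add_comm Y'.dim], fun z =>
        ⟨fun e => ⟨mem_om.2 ⟨hYX (mem_om.1 e).1, (mem_om.1 e).2⟩, (mem_om.1 e).1⟩,
          fun e => mem_om.2 ⟨e.2, (mem_om.1 e.1).2⟩⟩⟩
    · exact ⟨Om X Y' _, om_irr S.irr hY _, om_dim _ _ _, fun z =>
        ⟨fun e => ⟨mem_om.2 ⟨(mem_om.1 e).1, hYX (mem_om.1 e).2⟩, (mem_om.1 e).2⟩,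
          fun e => mem_om.2 ⟨(mem_om.1 e.1).1, e.2⟩⟩⟩
  refine num2_CS_map X (LinearMap.mulLeft ℚ (cy C (Om X X (F j).m) J) ∘ₗ (pl C π).toLinearMap) _
    (fun T hT hv => ?_) hx
  obtain ⟨T', t1, t2, t3, t4⟩ := S.over hT hv
  obtain ⟨Y', hY'⟩ := S.sm T' t2 t3 t4
  have y1 : IsIrreducible Y'.pts := hY' ▸ T'.isIrreducible
  have y2 : Y'.dim + 1 = X.dim := by
    rw [← Y'.sdim_top y1, ← t3, show Y'.top y1 = T' from IrreducibleCloseds.ext hY']
  obtain ⟨Ω', o1, o2, o3⟩ := h3 Y' y1 (hY' ▸ t2)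
  have h4 := n_meet hC π (Z := (Om X X (F j).m).top hΩ) subset_rfl hT fun U hU hi => by
    have a1 := h1 U hU
    have a2 := sdim_mono hi
    rw [Var.sdim_top, om_dim]
    omega
  rw [cy_top, one_mul] at h4
  have h5 : ∀ U ≤ J, (U : Set ((PJ P (F j).m).Pt k)) ⊆ Ω'.pts →
      Van (U : Set ((PJ P (F j).m).Pt k)) (rename (cp k P (F j).m).ε s) ∧
        Van (U : Set ((PJ P (F j).m).Pt k)) (rename (cq k P (F j).m).ε s) := fun U hU hO => by
    have a1 : ∀ z ∈ U, ev (π.pr z) s = 0 := fun z hz => t4 _ (hY' ▸ ((o3 z).1 (hO hz)).2)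
    exact ⟨fun z hz => by rw [Crd.ev_rename, (h2 z (hU hz)).1, a1 z hz],
      fun z hz => by rw [Crd.ev_rename, (h2 z (hU hz)).2, a1 z hz]⟩
  refine num2_CS_map _ (LinearMap.mulLeft ℚ (cy C (Om X X (F j).m) J)) _ (fun U hU hp => ?_) h4
  refine num2_CS_mono _ (fun W hW => h5 W hW.1 hW.2) (refsup hC o1 (fun z hz => ((o3 z).1 hz).1)
    hJ.sub (fun z hz => (o3 z).2 ⟨hU hz, hY' ▸ t1 (hp.2.1 (π.mem_img hz))⟩) fun W hW hO => ?_)
  have a1 := sdim_lt (lt_of_le_of_ne hW fun e => (hJ.nv h hJ.le S.nv).1 (e ▸ (h5 W hW hO).1))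
  rw [om_dim, o2]
  omega

theorem O1_ps (S : Sp X b s) (h : Fam X b F g) (hJ : Jn X b F g j J Y) {x : EE C X}
    (hx : x ∈ V0 C X s) (π : Prj (Om X X (F j).m) X)
    (hπ : π = pP X X (F j).m ∨ π = pQ X X (F j).m) :
    ps C (pP X X (F j).m) (cy C (Om X X (F j).m) J * HH C X (F j).m * pl C π x) ∈ V0 C X s ∧
    ps C (pQ X X (F j).m) (cy C (Om X X (F j).m) J * HH C X (F j).m * pl C π x) ∈ V0 C X s := by
  have h1 := CS_mul_AL hC _ (om_irr S.irr S.irr (F j).m)
    (fun _ _ hUT hT => ⟨num2_van_mono hUT hT.1, num2_van_mono hUT hT.2⟩)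
    (J_V0 hC S h hJ hx π hπ) (hy_AL _ (Sum.inr ()))
  rw [mul_right_comm] at h1
  exact ⟨ps_mem hC _ (fun U _ hv _ => ((cp k P (F j).m).van_img S.form).2 hv.1) h1,
    ps_mem hC _ (fun U _ hv _ => ((cq k P (F j).m).van_img S.form).2 hv.2) h1⟩

theorem EJ_VV (h : Fam X b F g) (S : Sp X b s) (hJ : Jn X b F g j J Y) {x : EE C X}
    (hx : x ∈ VV C X s) : EJ C X J x ∈ VV C X s := by
  obtain ⟨y, hy, z, hz, rfl⟩ := Submodule.mem_sup.1 hx
  rw [map_add]
  refine add_mem (Submodule.mem_sup_left (O1_ps hC S h hJ hy _ (Or.inr rfl)).1)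
    (Submodule.mem_sup_right ⟨EJ_AL hC J hz.1, fun v hv => ?_⟩)
  rw [EJ_apply, ps_tau hC _ (O1_AL J _ hz.1), mul_right_comm,
    ← ps_tau hC _ (O1_AL J _ (V0_AL hv)), mul_comm]
  exact hz.2 _ (O1_ps hC S h hJ hv _ (Or.inl rfl)).2

theorem J_eta (hJ : Jn X b F g j J Y) :
    cy C (Om X X (F j).m) J * pl C (pP X X (F j).m) (hy C X b) =
      cy C (Om X X (F j).m) J * pl C (pQ X X (F j).m) (hy C X b) := by
  have := cy_pl_congr hC (X := Var.full k (Amb.one (P.σ b)))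
    ⟨(blk k P b).comp (cp k P (F j).m), fun _ _ => trivial⟩
    ⟨(blk k P b).comp (cq k P (F j).m), fun _ _ => trivial⟩ hJ.sub
    (fun z hz => funext fun _ => hJ.base z hz) (hy C _ ())
  rw [pl_hy, pl_hy] at this ⊢
  exact this

theorem EJ_NN (hJ : Jn X b F g j J Y) {x : EE C X} (hx : x ∈ NN C X b) :
    EJ C X J x ∈ NN C X b := by
  refine ⟨EJ_AL hC J hx.1, fun z hz => ?_⟩
  have h1 := tau_N0 hC (pQ X X (F j).m) ((N0_iff_AL X _).2 hx.2) (O1_AL J (pP X X (F j).m) hz)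
  rw [mul_comm (hy C X b), mul_assoc, EJ_apply, ps_tau hC _ (O1_AL J _ hx.1), ← h1,
    map_mul (pl C _), map_mul (pl C _)]
  congr 1
  linear_combination HH C X (F j).m * pl C (pQ X X (F j).m) x * pl C (pP X X (F j).m) z *
    J_eta hC hJ

theorem EJ_comm (h : Fam X b F g) (hJ : Jn X b F g j J Y) {i : ι} (hi : i ≠ j) {x : EE C X}
    (hx : x ∈ AL C X) :
    EJ C X J (ln C X (F i).a * x) - ln C X (F i).a * EJ C X J x ∈ CS C X (Vt b) := by
  obtain ⟨x₀, hx₀, hg₀⟩ := h.ne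
  have h0 := hJ.une h le_rfl (hJ.nv h hJ.le fun e => hg₀ (e x₀ hx₀)).1 i
  have h1 := ratio' hC (Om X X (F j).m) hJ.sub (fun t => (cp k P (F j).m).form ((F i).hu t))
    (fun t => (cq k P (F j).m).form ((F i).hu t)) (hJ.minor h hi) h0.1 h0.2
  have h2 : _ ∈ BD C X (F j).m g := num2_CS_mono _ (fun T hT => by_contra fun e => by
    obtain ⟨⟨t, ht⟩, t', ht'⟩ := hJ.une h hT.1 e i
    exact hT.2.2.elim (fun c => ht (c t)) fun c => ht' (c t')) h1
  have h3 := neg_mem (ps_vt hC h (BD_mul hC h h2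
    (AL_mul (x := HH C X (F j).m) _ (hy_AL _ _) (pl_AL (pQ X X (F j).m) hx))))
  rw [← map_neg] at h3
  have e1 : pl C (pP X X (F j).m) (ln C X (F i).a) =
      ln C (Om X X (F j).m) ((F i).a.mapDomain (cp k P (F j).m).ψ) := pl_ln C _ _
  have e2 : pl C (pQ X X (F j).m) (ln C X (F i).a) =
      ln C (Om X X (F j).m) ((F i).a.mapDomain (cq k P (F j).m).ψ) := pl_ln C _ _
  rw [EJ_apply, EJ_apply, mul_comm _ (ps C _ _), ← ps_mul hC _ (O1_AL J _ hx), ← map_sub,
    map_mul (pl C _), e1, e2]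
  refine (congrArg (· ∈ CS C X (Vt b)) (congrArg (ps C (pP X X (F j).m)) ?_)).mp h3
  ring

end Pool.Agent.Work.MP_ffcd14_ag.Dg
end

-- merged part: Pool.Agent.Work.MP_ffcd14_ag.Dg.A
section
/-!
# Purity of a submodule

Plan.  `pure_mat`: induction on the finite set `S`, for all `A`, `N` and all matrices.  For `S = ∅`
the entries are rational; take a linear retraction `ρ` of `M` onto `N`
(`LinearMap.exists_leftInverse_of_injective`) and `ν i = ρ (x i)`.  For `insert j S` put `h = h j`,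
`m = m j`, `E = E j`; every entry is `∑ c, a c * h ^ c` with `a c` in the algebra generated by `S`
(`Algebra.adjoin_insert_adjoin`, `Algebra.adjoin_singleton_eq_range_aeval`, or induction).  `E`
commutes with this algebra.  `π x = x - ∑ a, h ^ a • E (h ^ (m - a) • x)` satisfies `h • π x = 0`,
`π (h • x) = 0`, and `π` commutes with the algebra generated by `S`.  (i) The vector `π x` solves the
system with the matrix `a 0`; apply the induction hypothesis to `A ⊓ ker h`, `N ⊓ ker h`.  (ii) The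
vector `z (i, a) = E (h ^ (m - a) • x i)`, `a ≤ m`, solves the block system with the entries
`if a ≤ b then a (b - a) else 0`, with right-hand side `E (h ^ (m - b) • ∑ 𝔄 x)`.  Add up.
`pure`: `R = A`, `M = A ⧸ V`.
-/

namespace Pool.Agent.Work.MP_ffcd14_ag.Dg

universe w

theorem A_sh {M : Type w} [AddCommMonoid M] {m a : ℕ} (f : ℕ → M)
    (hf : ∀ c, m + 1 ≤ c + a → f c = 0) :
    ∑ c ∈ Finset.range (m + 1), f c =
      ∑ b ∈ Finset.range (m + 1), if a ≤ b then f (b - a) else 0 := by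
  rw [← Finset.sum_filter, show (Finset.range (m + 1)).filter (a ≤ ·) = Finset.Ico a (m + 1) by
    ext b; simp [and_comm], Finset.sum_Ico_eq_sum_range]
  simp only [Nat.add_sub_cancel_left]
  refine (Finset.sum_subset (Finset.range_subset_range.2 (by omega)) fun c _ hc => hf c ?_).symm
  rw [Finset.mem_range] at hc
  omega

theorem A_sh2 {M : Type w} [AddCommMonoid M] {m b : ℕ} (hb : b ≤ m) (f : ℕ → M)
    (hf : ∀ c, b < c → f c = 0) :
    ∑ c ∈ Finset.range (m + 1), f c =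
      ∑ a ∈ Finset.range (m + 1), if a ≤ b then f (b - a) else 0 := by
  rw [← Finset.sum_filter, show (Finset.range (m + 1)).filter (· ≤ b) = Finset.range (b + 1) by
    ext a; simp only [Finset.mem_filter, Finset.mem_range]; omega, Finset.sum_flip]
  refine (Finset.sum_subset (Finset.range_subset_range.2 (by omega)) fun c _ hc => hf c ?_).symm
  rw [Finset.mem_range] at hc
  omega

theorem A_exp {R M : Type w} [CommRing R] [Algebra ℚ R] [AddCommGroup M] [Module R M] {s : Set R}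
    {h : R} {m : ℕ} (h3 : ∀ c, m + 1 ≤ c → ∀ x : M, h ^ c • x = 0) {r : R}
    (hr : r ∈ Algebra.adjoin ℚ (insert h s)) : ∃ a : ℕ → R, (∀ c, a c ∈ Algebra.adjoin ℚ s) ∧
      ∀ x : M, r • x = ∑ c ∈ Finset.range (m + 1), a c • h ^ c • x := by
  rw [Set.insert_eq, Set.union_comm, Algebra.adjoin_union_eq_adjoin_adjoin,
    Subalgebra.mem_restrictScalars, Algebra.adjoin_singleton_eq_range_aeval] at hr
  obtain ⟨P, rfl⟩ := hr
  refine ⟨fun c => P.coeff c, fun c => (P.coeff c).2, fun x => ?_⟩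
  change Polynomial.aeval h P • x = _
  rw [Polynomial.aeval_eq_sum_range' (n := P.natDegree + (m + 1)) (by omega), Finset.sum_smul]
  refine ((Finset.sum_subset (Finset.range_subset_range.2 (by omega)) fun c _ hc => ?_).trans
    (Finset.sum_congr rfl fun c _ => ?_)).symm
  · rw [h3 c (by simpa using hc), smul_zero]
  · rw [← mul_smul]
    rfl

theorem pure_mat {R M : Type w} [CommRing R] [Algebra ℚ R] [AddCommGroup M] [Module R M]
    [Module ℚ M] [IsScalarTower ℚ R M] {ι : Type} (h : ι → R) (m : ι → ℕ) (E : ι → M →ₗ[ℚ] M)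
    (h1 : ∀ i j, i ≠ j → ∀ x, E j (h i • x) = h i • E j x)
    (h2 : ∀ j x, h j • x =
      h j • ∑ a ∈ Finset.range (m j + 1), h j ^ a • E j (h j ^ (m j - a) • x))
    (h3 : ∀ j (x : M), h j ^ (m j + 1) • x = 0) (S : Finset ι) :
    ∀ (A N : Submodule R M), N ≤ A → (∀ j ∈ S, ∀ x ∈ A, E j x ∈ A) →
      (∀ j ∈ S, ∀ x ∈ N, E j x ∈ N) → ∀ (p q : Type) [Fintype p] (𝔄 : q → p → R),
      (∀ r i, 𝔄 r i ∈ Algebra.adjoin ℚ (h '' S)) → ∀ x : p → M, (∀ i, x i ∈ A) →
      (∀ r, ∑ i, 𝔄 r i • x i ∈ N) →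
      ∃ ν : p → M, (∀ i, ν i ∈ N) ∧ ∀ r, ∑ i, 𝔄 r i • x i = ∑ i, 𝔄 r i • ν i := by
  classical
  induction S using Finset.induction_on with
  | empty =>
    intro A N _ _ _ p q _ 𝔄 h𝔄 x _ hx
    obtain ⟨ρ, hρ⟩ := LinearMap.exists_leftInverse_of_injective (N.restrictScalars ℚ).subtype
      (Submodule.ker_subtype _)
    have hρ' : ∀ y ∈ N, (ρ y : M) = y := fun y hy =>
      congrArg Subtype.val (LinearMap.congr_fun hρ ⟨y, hy⟩)
    refine ⟨fun i => ρ (x i), fun i => (ρ (x i)).2, fun r => ?_⟩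
    rw [← hρ' _ (hx r), map_sum, Submodule.coe_sum]
    refine Finset.sum_congr rfl fun i _ => ?_
    have := h𝔄 r i
    rw [Finset.coe_empty, Set.image_empty, Algebra.adjoin_empty, Algebra.mem_bot] at this
    obtain ⟨c, hc⟩ := this
    rw [← hc, algebraMap_smul, algebraMap_smul, map_smul, Submodule.coe_smul]
  | insert j S hj ih =>
    intro A N hNA hA hN p q _ 𝔄 h𝔄 x hxA hx
    have h3' : ∀ c, m j + 1 ≤ c → ∀ x : M, h j ^ c • x = 0 := fun c hc x => by
      obtain ⟨d, rfl⟩ := Nat.exists_eq_add_of_le hc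
      rw [pow_add, mul_smul, h3]
    rw [Finset.coe_insert, Set.image_insert_eq] at h𝔄
    choose a ha ha' using fun r i => A_exp h3' (h𝔄 r i)
    have cm : ∀ r ∈ Algebra.adjoin ℚ (h '' S), ∀ y, E j (r • y) = r • E j y := by
      intro r hr
      induction hr using Algebra.adjoin_induction with
      | mem r hr =>
        obtain ⟨i, hi, rfl⟩ := hr
        exact h1 i j fun e => hj (e ▸ hi)
      | algebraMap c => intro y; rw [algebraMap_smul, algebraMap_smul, map_smul]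
      | add r s _ _ hr hs => intro y; rw [add_smul, map_add, hr, hs, add_smul]
      | mul r s _ _ hr hs => intro y; rw [mul_smul, hr, hs, mul_smul]
    obtain ⟨π, hπ⟩ : ∃ π : M →+ M, ∀ y, π y =
        y - ∑ b ∈ Finset.range (m j + 1), h j ^ b • E j (h j ^ (m j - b) • y) :=
      ⟨AddMonoidHom.mk' (fun y => y - ∑ b ∈ Finset.range (m j + 1),
        h j ^ b • E j (h j ^ (m j - b) • y)) fun y z => by
          simp only [smul_add, map_add, Finset.sum_add_distrib]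
          abel, fun _ => rfl⟩
    have p1 : ∀ y, h j • π y = 0 := fun y => by rw [hπ, smul_sub, ← h2, sub_self]
    have p2 : ∀ y, π (h j • y) = 0 := fun y => by
      rw [hπ, sub_eq_zero, Finset.sum_range_succ', Nat.sub_zero, ← mul_smul (h j ^ m j), ← pow_succ,
        h3, map_zero, smul_zero, add_zero]
      refine (h2 j y).trans ?_
      rw [Finset.sum_range_succ, smul_add, ← mul_smul (h j), ← pow_succ', h3, add_zero,
        Finset.smul_sum]
      refine Finset.sum_congr rfl fun b hb => ?_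
      rw [Finset.mem_range] at hb
      rw [← mul_smul, ← pow_succ', ← mul_smul, ← pow_succ,
        show m j - (b + 1) + 1 = m j - b by omega]
    have p3 : ∀ r ∈ Algebra.adjoin ℚ (h '' S), ∀ y, π (r • y) = r • π y := fun r hr y => by
      rw [hπ, hπ, smul_sub, Finset.smul_sum]
      refine congrArg _ (Finset.sum_congr rfl fun b _ => ?_)
      rw [smul_comm _ r y, cm r hr, smul_comm]
    have p4 : ∀ W : Submodule R M, (∀ y ∈ W, E j y ∈ W) → ∀ y ∈ W, π y ∈ W := fun W hW y hy => by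
      rw [hπ]
      exact W.sub_mem hy (W.sum_mem fun b _ => W.smul_mem _ (hW _ (W.smul_mem _ hy)))
    have k0 : ∀ r i (y : M), h j • y = 0 → 𝔄 r i • y = a r i 0 • y := fun r i y hy => by
      rw [ha', Finset.sum_range_succ', pow_zero, one_smul, Finset.sum_eq_zero, zero_add]
      intro c _
      rw [pow_succ, mul_smul, hy, smul_zero, smul_zero]
    have k1 : ∀ r i y, π (𝔄 r i • y) = a r i 0 • π y := fun r i y => by
      rw [ha', map_sum, Finset.sum_range_succ', pow_zero, one_smul, Finset.sum_eq_zero, zero_add,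
        p3 _ (ha r i 0)]
      intro c _
      rw [p3 _ (ha r i _), pow_succ', mul_smul, p2, smul_zero]
    have hker : ∀ W : Submodule R M, (∀ l ∈ insert j S, ∀ y ∈ W, E l y ∈ W) → ∀ l ∈ S,
        ∀ y ∈ W ⊓ LinearMap.ker (LinearMap.lsmul R M (h j)),
          E l y ∈ W ⊓ LinearMap.ker (LinearMap.lsmul R M (h j)) := fun W hW l hl y hy => by
      refine ⟨hW l (Finset.mem_insert_of_mem hl) y hy.1, ?_⟩
      have : h j • y = 0 := hy.2
      change h j • E l y = 0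
      rw [← h1 j l fun e => hj (e ▸ hl), this, map_zero]
    have hAj := hA j (Finset.mem_insert_self _ _)
    have hNj := hN j (Finset.mem_insert_self _ _)
    obtain ⟨ν1, n1, n2⟩ := ih _ _ (inf_le_inf_right _ hNA) (hker A hA) (hker N hN) p q
      (fun r i => a r i 0) (fun r i => ha r i 0) (fun i => π (x i))
      (fun i => ⟨p4 A hAj _ (hxA i), p1 _⟩) fun r => by
        rw [← Finset.sum_congr rfl fun i _ => k1 r i (x i), ← map_sum]
        exact ⟨p4 N hNj _ (hx r), p1 _⟩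
    obtain ⟨ν2, n3, n4⟩ := ih A N hNA (fun l hl => hA l (Finset.mem_insert_of_mem hl))
      (fun l hl => hN l (Finset.mem_insert_of_mem hl)) (p × Fin (m j + 1)) (q × Fin (m j + 1))
      (fun r i => if (i.2 : ℕ) ≤ r.2 then a r.1 i.1 (r.2 - i.2) else 0)
      (fun r i => by
        split_ifs
        exacts [ha _ _ _, zero_mem _])
      (fun i => E j (h j ^ (m j - i.2) • x i.1))
      (fun i => hAj _ (A.smul_mem _ (hxA _))) fun r => by
        have hb : (r.2 : ℕ) ≤ m j := Nat.lt_succ_iff.1 r.2.2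
        refine (congrArg (· ∈ N) ?_).mp (hNj _ (N.smul_mem (h j ^ (m j - r.2)) (hx r.1)))
        rw [Finset.smul_sum, map_sum, Fintype.sum_prod_type]
        refine Finset.sum_congr rfl fun i _ => ?_
        rw [Fin.sum_univ_eq_sum_range (fun c => (if c ≤ r.2 then a r.1 i (r.2 - c) else 0) •
          E j (h j ^ (m j - c) • x i)), ha', Finset.smul_sum, map_sum, A_sh2 hb]
        · refine Finset.sum_congr rfl fun c _ => ?_
          split_ifs with hc
          · rw [smul_comm, cm _ (ha _ _ _), ← mul_smul, ← pow_add,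
              show m j - r.2 + (r.2 - c) = m j - c by omega]
          · rw [zero_smul]
        · intro c hc
          rw [smul_comm, ← mul_smul (h j ^ _), ← pow_add, h3' _ (by omega), smul_zero, map_zero]
    have key : ∀ (r : q) (z : p × Fin (m j + 1) → M),
        ∑ i, 𝔄 r i • ∑ c : Fin (m j + 1), h j ^ (c : ℕ) • z (i, c) =
        ∑ b : Fin (m j + 1), h j ^ (b : ℕ) • ∑ i : p × Fin (m j + 1),
          (if (i.2 : ℕ) ≤ b then a r i.1 (b - i.2) else 0) • z i := fun r z => by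
      simp only [Finset.smul_sum]
      rw [Finset.sum_comm (s := (Finset.univ : Finset (Fin (m j + 1)))), Fintype.sum_prod_type]
      refine Finset.sum_congr rfl fun i _ => Finset.sum_congr rfl fun c _ => ?_
      rw [Fin.sum_univ_eq_sum_range (fun b => h j ^ b •
        (if (c : ℕ) ≤ b then a r i (b - c) else 0) • z (i, c)), ha', A_sh (a := c)]
      · refine Finset.sum_congr rfl fun b _ => ?_
        split_ifs with hc
        · rw [← mul_smul (h j ^ _), ← pow_add, Nat.sub_add_cancel hc, smul_comm]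
        · rw [zero_smul, smul_zero]
      · intro b hb
        rw [← mul_smul (h j ^ _), ← pow_add, h3' _ hb, smul_zero]
    refine ⟨fun i => ν1 i + ∑ c : Fin (m j + 1), h j ^ (c : ℕ) • ν2 (i, c),
      fun i => N.add_mem (n1 i).1 (N.sum_mem fun c _ => N.smul_mem _ (n3 _)), fun r => ?_⟩
    have e1 : ∀ i, x i = π (x i) + ∑ c : Fin (m j + 1),
        h j ^ (c : ℕ) • E j (h j ^ (m j - c) • x i) := fun i => by
      rw [hπ, Fin.sum_univ_eq_sum_range (fun c => h j ^ c • E j (h j ^ (m j - c) • x i)),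
        sub_add_cancel]
    rw [Finset.sum_congr rfl fun i _ => congrArg (𝔄 r i • ·) (e1 i)]
    simp only [smul_add, Finset.sum_add_distrib]
    refine congrArg₂ (· + ·) ?_ ?_
    · rw [Finset.sum_congr rfl fun i _ => k0 r i _ (p1 _), n2,
        Finset.sum_congr rfl fun i _ => k0 r i _ (n1 i).2]
    · rw [key r ν2, key r fun i => E j (h j ^ (m j - i.2) • x i.1)]
      exact Finset.sum_congr rfl fun b _ => congrArg _ (n4 (r, b))

theorem pure {B : Type w} [CommRing B] [Algebra ℚ B] {ι : Type} [Fintype ι] (A : Subalgebra ℚ B)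
    (V N : Submodule ℚ B) (hVN : V ≤ N) (hNA : ∀ x ∈ N, x ∈ A)
    (hV : ∀ a ∈ A, ∀ x ∈ V, a * x ∈ V) (hN : ∀ a ∈ A, ∀ x ∈ N, a * x ∈ N)
    (h : ι → B) (hh : ∀ i, h i ∈ A) (m : ι → ℕ) (E : ι → B →ₗ[ℚ] B)
    (EA : ∀ i, ∀ x ∈ A, E i x ∈ A) (EV : ∀ i, ∀ x ∈ V, E i x ∈ V) (EN : ∀ i, ∀ x ∈ N, E i x ∈ N)
    (h1 : ∀ i j, i ≠ j → ∀ x ∈ A, E j (h i * x) - h i * E j x ∈ V)
    (h2 : ∀ j, ∀ x ∈ A, h j *
      (x - ∑ a ∈ Finset.range (m j + 1), h j ^ a * E j (h j ^ (m j - a) * x)) ∈ V)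
    (h3 : ∀ j, h j ^ (m j + 1) ∈ V) {r : B} (hr : r ∈ Algebra.adjoin ℚ (Set.range h)) {x : B}
    (hx : x ∈ A) (hrx : r * x ∈ N) : ∃ ν ∈ N, r * (x - ν) ∈ V := by
  let I : ∀ W : Submodule ℚ B, (∀ a ∈ A, ∀ x ∈ W, a * x ∈ W) → Submodule A A := fun W hW =>
    { carrier := {x | (x : B) ∈ W}
      add_mem' := fun ha hb => W.add_mem ha hb
      zero_mem' := W.zero_mem
      smul_mem' := fun a x hx => hW _ a.2 _ hx }
  let _ : Module A (A ⧸ I V hV) := Submodule.Quotient.module _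
  let π : A →ₗ[ℚ] A ⧸ I V hV := (I V hV).mkQ.restrictScalars ℚ
  have hπ : ∀ x y : A, π x = π y ↔ (x : B) - y ∈ V := fun x y => Submodule.Quotient.eq _
  have hs : ∀ a x : A, a • π x = π (a * x) := fun _ _ => rfl
  have su : Function.Surjective π := (I V hV).mkQ_surjective
  have := Module.Free.of_divisionRing ℚ (A ⧸ I V hV)
  have : Module.Projective ℚ (A ⧸ I V hV) := Module.Projective.of_free
  obtain ⟨s, hs'⟩ := π.exists_rightInverse_of_surjective (LinearMap.range_eq_top.2 su)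
  let EE : ι → A →ₗ[ℚ] A := fun i => (E i).restrict (p := Subalgebra.toSubmodule A)
    (q := Subalgebra.toSubmodule A) (EA i)
  have hEE : ∀ i x, (EE i x : B) = E i x := fun _ _ => rfl
  have hE : ∀ i x, (π ∘ₗ EE i ∘ₗ s) (π x) = π (EE i x) := fun i x => by
    rw [LinearMap.comp_apply, LinearMap.comp_apply, hπ, hEE, hEE, ← map_sub]
    exact EV i _ ((hπ _ _).1 (LinearMap.congr_fun hs' (π x)))
  let h' : ι → A := fun i => ⟨h i, hh i⟩
  have hr' : r ∈ (Algebra.adjoin ℚ (h' '' (Finset.univ : Finset ι))).map A.val := by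
    rw [AlgHom.map_adjoin, Finset.coe_univ, Set.image_univ, ← Set.range_comp]
    exact hr
  obtain ⟨r', k1, rfl⟩ := hr'
  obtain ⟨ν, n1, n2⟩ := pure_mat (R := A) (M := A ⧸ I V hV) h' m (fun i => π ∘ₗ EE i ∘ₗ s)
    (fun i j hij y => by
      obtain ⟨y, rfl⟩ := su y
      rw [hs, hE, hE, hs, hπ]
      exact h1 i j hij y y.2)
    (fun j y => by
      obtain ⟨y, rfl⟩ := su y
      simp only [hs, hE]
      rw [← map_sum, hs, hπ]
      have := h2 j y y.2
      rw [mul_sub] at this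
      simpa [hEE, h'] using this)
    (fun j y => by
      obtain ⟨y, rfl⟩ := su y
      rw [hs, ← map_zero π, hπ]
      have := hV _ y.2 _ (h3 j)
      rw [mul_comm] at this
      simpa [h'] using this)
    Finset.univ ⊤ ((I N hN).map (I V hV).mkQ) le_top (fun _ _ _ _ => trivial)
    (by
      rintro j - _ ⟨y, hy, rfl⟩
      exact ⟨EE j y, EN j _ hy, (hE j y).symm⟩)
    Unit Unit (fun _ _ => r') (fun _ _ => k1) (fun _ => π ⟨x, hx⟩) (fun _ => trivial)
    (fun _ => by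
      rw [Fintype.sum_unique, hs]
      exact ⟨_, hrx, rfl⟩)
  obtain ⟨y, hy, e⟩ := n1 ()
  have n2 := n2 ()
  rw [Fintype.sum_unique, Fintype.sum_unique, show ν default = π y from e.symm, hs, hs, hπ] at n2
  exact ⟨y, hy, by rw [mul_sub]; exact n2⟩

/-- A linear form which kills the radical of a symmetric form of finite rank is represented. -/
theorem represent {V : Type w} [AddCommGroup V] [Module ℚ V] (B : V →ₗ[ℚ] V →ₗ[ℚ] ℚ)
    (hB : ∀ x y, B x y = B y x) {ρ : ℕ} (q : V →ₗ[ℚ] (Fin ρ → ℚ))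
    (hq : ∀ x, q x = 0 → B x = 0) (φ : V →ₗ[ℚ] ℚ)
    (hφ : ∀ y, B y = 0 → φ y = 0) : ∃ x, ∀ y, B x y = φ y := by
  classical
  obtain ⟨s, hs⟩ := q.rangeRestrict.exists_rightInverse_of_surjective q.range_rangeRestrict
  obtain ⟨t, ht⟩ := (LinearMap.range q).subtype.exists_leftInverse_of_injective
    (Submodule.ker_subtype _)
  have key : ∀ v, B v = B (s (t (q v))) := fun v => by
    rw [← sub_eq_zero, ← map_sub]
    refine hq _ ?_
    have e1 : t (q v) = q.rangeRestrict v := LinearMap.congr_fun ht (q.rangeRestrict v)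
    have e2 : q (s (q.rangeRestrict v)) = q v :=
      congrArg Subtype.val (LinearMap.congr_fun hs (q.rangeRestrict v))
    rw [map_sub, e1, e2, sub_self]
  have h1 : φ ∈ Submodule.span ℚ (Set.range fun i : Fin ρ => B (s (t (Pi.single i 1)))) := by
    refine mem_span_of_iInf_ker_le_ker fun y hy => hφ y (LinearMap.ext fun v => ?_)
    have hy' : ∀ i, B (s (t (Pi.single i 1))) y = 0 := fun i => (Submodule.mem_iInf _).1 hy i
    rw [hB, key, pi_eq_sum_univ' (q v)]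
    simp [hy']
  have h2 : φ ∈ LinearMap.range B :=
    Submodule.span_le.2 (by rintro _ ⟨i, rfl⟩; exact ⟨_, rfl⟩) h1
  obtain ⟨x, rfl⟩ := h2
  exact ⟨x, fun _ => rfl⟩

/-- Division of `H ^ (n + 1)` by `(H - x) (H - y)`. -/
theorem join_pow {B : Type w} [CommRing B] (H x y : B) (n : ℕ) : ∃ Q : B, Q ∈ Subring.closure
    ({H, x, y} : Set B) ∧ H ^ (n + 1) = (∑ a ∈ Finset.range (n + 1), x ^ a * y ^ (n - a)) * H +
      (x ^ (n + 1) - (∑ a ∈ Finset.range (n + 1), x ^ a * y ^ (n - a)) * x) +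
        (H - x) * (H - y) * Q := by
  have hH : H ∈ Subring.closure ({H, x, y} : Set B) := Subring.subset_closure (by simp)
  have hx : x ∈ Subring.closure ({H, x, y} : Set B) := Subring.subset_closure (by simp)
  have hy : y ∈ Subring.closure ({H, x, y} : Set B) := Subring.subset_closure (by simp)
  induction n with
  | zero => exact ⟨0, zero_mem _, by simp⟩
  | succ n ih =>
    obtain ⟨Q, h1, h2⟩ := ih
    refine ⟨H * Q + ∑ a ∈ Finset.range (n + 1), x ^ a * y ^ (n - a), add_mem (mul_mem hH h1)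
      (sum_mem fun a _ => mul_mem (pow_mem hx _) (pow_mem hy _)), ?_⟩
    have e : ∑ a ∈ Finset.range (n + 1 + 1), x ^ a * y ^ (n + 1 - a) =
        y * ∑ a ∈ Finset.range (n + 1), x ^ a * y ^ (n - a) + x ^ (n + 1) := by
      rw [Finset.sum_range_succ, Nat.sub_self, pow_zero, mul_one, Finset.mul_sum]
      refine congrArg (· + _) (Finset.sum_congr rfl fun a ha => ?_)
      rw [Finset.mem_range] at ha
      rw [show n + 1 - a = n - a + 1 by omega]
      ring
    rw [e]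
    linear_combination H * h2

end Pool.Agent.Work.MP_ffcd14_ag.Dg
end

-- merged part: Pool.Agent.Work.MP_ffcd14_ag.Dg.O2
section
/-!
# Degenerations: the relation between the operator and the class of the factor

Plan.  Write `h₁`, `h₂` for the pull-backs of `h = ln a`.  `J_quad`: `ratio'` on `J` for `r (inl s)` and
`u s (p)` (`Jn.m1`; `Jn.rho`, `rv_ne` on `Y`; `Jn.une`): `J (H - h₁)` is a combination of bad `T` and of
`T` on which all `r (inl s)` vanish; on these some `r (inr s)` has no zero, `ratio'` with `Jn.m2`.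
`J_zero`: `n_push` for `Prj.one`, `Jn.low`, `ps_eq`.  `J_pow`: by induction on `n`, `J H ^ n` is a
combination of `U ≤ J` of codimension `n` which are bad or on which `n` of the forms `rho'` vanish
(`Jn.fin` gives a further form).  `J_diag`: for a good `U`, either all `phi` vanish on `U`
(`Jn.eq`, `cy_mul_HS`), or `ratio'` for `phi t` and `u t (q) ^ N` (`Jn.phi`).  `J_pos`: descending
chain through `Y` (`krg`, `num2_step`), `n_push`, `tau_pos`.  `J_kappa`: `ps_mem`; a subvariety of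
dimension `X.dim` is `X.top`; `κ ≠ 0` by `J_pos`, `ps_tau`.  `EJ_rel`: `join_pow`, `cy_pl_congr`.
-/

open MvPolynomial Topology TopologicalSpace

namespace Pool.Agent.Work.MP_ffcd14_ag.Dg

set_option linter.unusedSectionVars false

universe u v w

variable {k : Type u} [Field k] [IsAlgClosed k] {K : Type v} [Field K] [CharZero K]
  {P : Amb} {C : NT.{u, v, w} k K} {X : Var k P} {b : P.ι} {ι : Type}
  [Fintype ι] {F : ι → Fac k P} {g : MvPolynomial P.V k} {j : ι} {J Y : Sub k (PJ P (F j).m)}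
  (hC : C.Cyc)
include hC

omit hC in
theorem O2_H (X : Var k P) (m : ℕ) :
    HH C X m = ln C (Om X X m) (Finsupp.single (Sum.inr ()) 1) :=
  (ln_single C (Om X X m) (Sum.inr ())).symm

omit hC in
theorem O2_ind {Ω : Var k P} {p : Sub k P → Prop} {x y : EE C Ω} (hx : x ∈ CS C Ω p)
    {N : Submodule ℚ (EE C Ω)}
    (h : ∀ U : Sub k P, (U : Set (P.Pt k)) ⊆ Ω.pts → p U → cy C Ω U * y ∈ N) : x * y ∈ N :=
  num2_CS_map Ω (LinearMap.mulRight ℚ y) N h hx

omit hC in
theorem O2_g (h : Fam X b F g) (hJ : Jn X b F g j J Y) {U : Sub k (PJ P (F j).m)} (hU : Y ≤ U) :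
    ¬ Van (U : Set ((PJ P (F j).m).Pt k)) (rename (cp k P (F j).m).ε g) :=
  (Jn.nv h hJ hU fun hv => h.ne.elim fun x hx => hx.2 (hv x hx.1)).1

omit hC in
theorem O2_HS (X : Var k P) (m : ℕ) : HH C X m ∈ HS C (Om X X m) :=
  O2_H (C := C) X m ▸ ln_mem_HS C _ _

omit hC in
theorem O2_AL (X : Var k P) (m : ℕ) : HH C X m ∈ AL C (Om X X m) := hy_AL _ _

theorem J_quad (h : Fam X b F g) (hJ : Jn X b F g j J Y) :
    cy C (Om X X (F j).m) J * ((HH C X (F j).m - pl C (pP X X (F j).m) (ln C X (F j).a)) *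
      (HH C X (F j).m - pl C (pQ X X (F j).m) (ln C X (F j).a))) ∈ BD C X (F j).m g := by
  rw [← mul_assoc, O2_H, pl_ln, pl_ln]
  have h0 : ∃ s, ¬ Van (J : Set ((PJ P (F j).m).Pt k)) (rv k P (Sum.inl s)) := by
    obtain ⟨z, hz⟩ := Y.isIrreducible.nonempty
    obtain ⟨s | s, hs⟩ := rv_ne z
    · exact ⟨s, fun hv => hs (hv z (hJ.le hz))⟩
    · refine ⟨s, fun hv => hs ?_⟩
      have h1 : ev z (rv k P (Sum.inl s)) - ev z (rv k P (Sum.inr s)) = 0 :=
        (map_sub (eval (rp z)) _ _).symm.trans (hJ.rho s z hz)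
      rwa [hv z (hJ.le hz), zero_sub, neg_eq_zero] at h1
  refine O2_ind (ratio' hC _ hJ.sub (fun s => rv_form (Sum.inl s))
    (fun s => (cp k P (F j).m).form ((F j).hu s)) hJ.m1 h0
    (Jn.une h hJ le_rfl (O2_g h hJ hJ.le) j).1) fun T hT ⟨h1, _, h2⟩ => ?_
  by_cases hg : Van (T : Set ((PJ P (F j).m).Pt k)) (rename (cp k P (F j).m).ε g)
  · exact BD_mul hC h (num2_cy_mem _ hT hg) (sub_mem (ln_AL _ _) (ln_AL _ _))
  obtain ⟨⟨s, hs⟩, h3⟩ := Jn.une h hJ h1 hg j
  replace h2 := h2.resolve_right fun h2 => hs (h2 s)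
  have h4 : ∀ T' ≤ T, ∃ s, ¬ Van (T' : Set ((PJ P (F j).m).Pt k)) (rv k P (Sum.inr s)) := by
    intro T' hT'
    obtain ⟨z, hz⟩ := T'.isIrreducible.nonempty
    obtain ⟨s | s, hs⟩ := rv_ne z
    · exact (hs (h2 s z (hT' hz))).elim
    · exact ⟨s, fun hv => hs (hv z hz)⟩
  refine num2_CS_mono _ (fun T' ⟨h5, _, h6⟩ => ?_) (ratio' hC _ hT (fun s => rv_form (Sum.inr s))
    (fun s => (cq k P (F j).m).form ((F j).hu s)) (fun s t => num2_van_mono h1 (hJ.m2 s t))
    (h4 T le_rfl) h3)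
  by_contra hg'
  rcases h6 with h6 | h6
  · exact (h4 T' h5).elim fun s hs => hs (h6 s)
  · exact (Jn.une h hJ (h5.trans h1) hg' j).2.elim fun s hs => hs (h6 s)

theorem J_zero (h : Fam X b F g) (hJ : Jn X b F g j J Y) (x y : EE C X) :
    ps C (pP X X (F j).m) (cy C (Om X X (F j).m) J *
      (pl C (pP X X (F j).m) x * pl C (pQ X X (F j).m) y)) = 0 := by
  refine ps_eq C _ fun z => ?_
  let π : Prj (Om X X (F j).m) (X.prod X) := Prj.one (X.prod X) (QA (F j).m)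
  obtain ⟨n, h1, h2⟩ := n_push hC π hJ.sub
  have h3 : n = 0 := by
    by_contra h3
    exact (Jn.low h hJ).ne' (h1.1 (Nat.pos_of_ne_zero h3))
  have e1 := pl_comp C π (Prj.p1 X X) (pP X X (F j).m) fun _ => rfl
  have e2 := pl_comp C π (Prj.p2 X X) (pQ X X (F j).m) fun _ => rfl
  have := h2 (pl C (Prj.p1 X X) x * pl C (Prj.p2 X X) y * pl C (Prj.p1 X X) z)
  rw [h3, Nat.cast_zero, zero_mul, map_mul (pl C π), map_mul (pl C π), ← e1, ← e1, ← e2, nm_apply,
    ← mul_assoc] at this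
  rw [zero_mul, map_zero]
  exact this

theorem J_pow (h : Fam X b F g) (hJ : Jn X b F g j J Y) :
    cy C (Om X X (F j).m) J * HH C X (F j).m ^ ((F j).m + 1) ∈ CS C (Om X X (F j).m) fun U =>
      U ≤ J ∧ sdim U = X.dim ∧
        (Van (U : Set ((PJ P (F j).m).Pt k)) (rename (cp k P (F j).m).ε g) ∨
          ∀ i, Van (U : Set ((PJ P (F j).m).Pt k)) (rho' k P i)) := by
  classical
  have key : ∀ n ≤ (F j).m + 1, cy C (Om X X (F j).m) J * HH C X (F j).m ^ n ∈
      CS C (Om X X (F j).m) fun U => U ≤ J ∧ sdim U + n = sdim J ∧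
        (Van (U : Set ((PJ P (F j).m).Pt k)) (rename (cp k P (F j).m).ε g) ∨
          ∃ S : Finset (Fin ((F j).m + 1)), n ≤ S.card ∧
            ∀ i ∈ S, Van (U : Set ((PJ P (F j).m).Pt k)) (rho' k P i)) := by
    intro n
    induction n with
    | zero =>
      intro _
      rw [pow_zero, mul_one]
      exact num2_cy_mem _ hJ.sub ⟨le_rfl, rfl, Or.inr ⟨∅, le_rfl, by simp⟩⟩
    | succ n ih =>
      intro hn
      rw [pow_succ, ← mul_assoc]
      refine O2_ind (ih (by omega)) fun U hU ⟨h1, h2, h3⟩ => ?_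
      by_cases hg : Van (U : Set ((PJ P (F j).m).Pt k)) (rename (cp k P (F j).m).ε g)
      · exact num2_CS_mono _ (fun T hT => ⟨hT.1.trans h1, by omega,
          Or.inl (num2_van_mono hT.1 hg)⟩) (cy_mul_HS hC _ hU (O2_HS X _))
      obtain ⟨S, h4, h5⟩ := h3.resolve_left hg
      obtain ⟨i, hi⟩ : ∃ i, ¬ Van (U : Set ((PJ P (F j).m).Pt k)) (rho' k P i) := by
        by_contra hc
        push Not at hc
        have := Jn.fin h hJ h1 hg hc
        have := hJ.dim
        omega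
      obtain ⟨s, m, h6, -, h7⟩ := n_div' hC _ hU (rho_form i) hi
      rw [O2_H, h7]
      refine Submodule.sum_mem _ fun T hT => Submodule.smul_mem _ _ ?_
      obtain ⟨h8, h9, h10⟩ := (h6 T).1 hT
      refine num2_cy_mem _ (num2_sub h8 hU) ⟨h8.trans h1, by omega, Or.inr ⟨insert i S, ?_, ?_⟩⟩
      · rw [Finset.card_insert_of_notMem fun h => hi (h5 i h)]
        omega
      · intro i' hi'
        rcases Finset.mem_insert.1 hi' with rfl | hi'
        · exact h10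
        · exact num2_van_mono h8 (h5 i' hi')
  refine num2_CS_mono _ (fun U ⟨h1, h2, h3⟩ => ⟨h1, ?_, h3.imp_right fun ⟨S, h4, h5⟩ i => ?_⟩)
    (key _ le_rfl)
  · have := hJ.dim
    omega
  · refine h5 i (Finset.eq_univ_of_card S (le_antisymm (Finset.card_le_univ S) ?_) ▸
      Finset.mem_univ i)
    rwa [Fintype.card_fin]

theorem J_diag (h : Fam X b F g) (hJ : Jn X b F g j J Y) :
    cy C (Om X X (F j).m) J * HH C X (F j).m ^ ((F j).m + 1) *
      pl C (pP X X (F j).m) (ln C X (F j).a) ∈ CS C (Om X X (F j).m) fun U =>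
        Van (U : Set ((PJ P (F j).m).Pt k)) (rename (cp k P (F j).m).ε g) ∨
          ∀ z ∈ U, (cp k P (F j).m).pr z = (cq k P (F j).m).pr z := by
  refine O2_ind (J_pow hC h hJ) fun U hU ⟨h1, _, h3⟩ => ?_
  have hs := cy_mul_HS hC _ hU (pl_HS C (pP X X (F j).m) (ln_mem_HS C X (F j).a))
  by_cases hg : Van (U : Set ((PJ P (F j).m).Pt k)) (rename (cp k P (F j).m).ε g)
  · exact num2_CS_mono _ (fun T hT => Or.inl (num2_van_mono hT.1 hg)) hs
  replace h3 := h3.resolve_left hg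
  by_cases hp : ∀ t, Van (U : Set ((PJ P (F j).m).Pt k)) ((F j).phi (F j).m t)
  · exact num2_CS_mono _ (fun T hT => Or.inr fun z hz => Jn.eq h hJ h1 hg h3 hp z (hT.1 hz)) hs
  have hu : ∀ T ≤ J, ¬ Van (T : Set ((PJ P (F j).m).Pt k)) (rename (cp k P (F j).m).ε g) →
      ∃ s, ¬ Van (T : Set ((PJ P (F j).m).Pt k))
        (rename (cq k P (F j).m).ε ((F j).u s ^ (F j).N)) := fun T hT hg => by
    obtain ⟨s, hs⟩ := (Jn.une h hJ hT hg j).2
    refine ⟨s, fun hv => hs fun z hz => ?_⟩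
    have := hv z hz
    rw [map_pow] at this
    exact pow_eq_zero_iff (F j).pos.ne' |>.1 ((map_pow (eval (rp z)) _ _).symm.trans this)
  have := ratio' (C := C) hC _ hU (fun t => (F j).phi_form (F j).m t)
    (fun t => (cq k P (F j).m).form (IsWeightedHomogeneous.pow ((F j).hu t) (F j).N))
    (Jn.phi h hJ h1 hg h3) (not_forall.1 hp) (hu U h1 hg)
  rw [ln_add, add_sub_cancel_right] at this
  have e : ln C (Om X X (F j).m) (((F j).N • (F j).a).mapDomain (cp k P (F j).m).ψ) =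
      ((F j).N : ℚ) • pl C (pP X X (F j).m) (ln C X (F j).a) := by
    rw [← map_smul, ← ln_smul, pl_ln]
    rfl
  rw [e, mul_smul_comm, Submodule.smul_mem_iff _ (Nat.cast_ne_zero.2 (F j).pos.ne')] at this
  refine num2_CS_mono _ (fun T ⟨h4, _, h5⟩ => ?_) this
  by_cases hg' : Van (T : Set ((PJ P (F j).m).Pt k)) (rename (cp k P (F j).m).ε g)
  · exact Or.inl hg'
  refine Or.inr (Jn.eq h hJ (h4.trans h1) hg' (fun i => num2_van_mono h4 (h3 i))
    (h5.resolve_right fun h5 => ?_))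
  exact (hu T (h4.trans h1) hg').elim fun s hs => hs (h5 s)

theorem J_pos (h : Fam X b F g) (hJ : Jn X b F g j J Y) {a : P.ι →₀ ℕ} (ha : ∀ i, 0 < a i) :
    0 < nm C (Om X X (F j).m) J (HH C X (F j).m ^ ((F j).m + 1) *
      pl C (pP X X (F j).m) (ln C X a ^ X.dim)) := by
  have key : ∀ n, ∀ U, Y ≤ U → U ≤ J → sdim U = X.dim + n → 0 < nm C (Om X X (F j).m) U
      (lp' C _ (List.replicate n (Finsupp.single (Sum.inr ()) 1 : (PJ P (F j).m).ι →₀ ℕ) ++
        List.replicate X.dim (a.mapDomain (pP X X (F j).m).ψ))) := by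
    intro n
    induction n with
    | zero =>
      intro U h1 h2 h3
      obtain ⟨n, h4, h5⟩ := n_push hC (pP X X (F j).m) (num2_sub h2 hJ.sub)
      have h6 : (pP X X (F j).m).img U = X.top h.irr :=
        le_antisymm (n1_img_sub _ (num2_sub h2 hJ.sub)) fun x hx =>
          (cp k P (F j).m).img_mono h1 (show x ∈ ((cp k P (F j).m).img Y : Set (P.Pt k)) from
            hJ.top.symm ▸ hx)
      rw [h6, X.sdim_top] at h4
      rw [num2_lp_rep, pow_zero, one_mul, ← pl_ln, ← map_pow, h5, h6, HI_nm_top]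
      exact mul_pos (Nat.cast_pos.2 (h4.2 h3)) (tau_pos hC X h.irr ha)
    | succ n ih =>
      intro U h1 h2 h3
      obtain ⟨i, hi⟩ : ∃ i, ¬ Van (U : Set ((PJ P (F j).m).Pt k)) (rho' k P i) := by
        by_contra hc
        push Not at hc
        have := Jn.fin h hJ h2 (O2_g h hJ h1) hc
        omega
      obtain ⟨T, h4, h5, h6, h7⟩ := krg h1 (rho_form i) hi (hJ.rho i)
      rw [List.replicate_succ, List.cons_append, num2_lp_cons]
      exact num2_step hC _ (num2_sub h2 hJ.sub) (rho_form i) hi _ (by simp; omega) h5 h7 h6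
        (ih T h4 (h5.trans h2) (by omega))
  have := key ((F j).m + 1) J hJ.le le_rfl hJ.dim
  rwa [num2_lp_rep, ← O2_H, ← pl_ln, ← map_pow] at this

theorem J_kappa (h : Fam X b F g) (hJ : Jn X b F g j J Y) : ∃ κ : ℚ, κ ≠ 0 ∧
    ps C (pP X X (F j).m) (cy C (Om X X (F j).m) J * HH C X (F j).m ^ ((F j).m + 1)) =
      κ • (1 : EE C X) := by
  have h1 := ps_mem hC (pP X X (F j).m) (q := fun U => U = X.top h.irr)
    (fun U hU h1 h2 => eq_of_sdim_le (n1_img_sub _ hU) (by rw [X.sdim_top, ← h2, h1.2.1]))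
    (J_pow hC h hJ)
  obtain ⟨κ, hκ⟩ := Submodule.mem_span_singleton.1 (num2_CS_map X LinearMap.id
    (Submodule.span ℚ {(1 : EE C X)}) (fun U _ hU => by
      rw [hU, cy_top]
      exact Submodule.mem_span_singleton_self _) h1)
  refine ⟨κ, fun h0 => ?_, hκ.symm⟩
  have h2 := J_pos hC h hJ (a := Finsupp.equivFunOnFinite.symm 1) fun _ => Nat.one_pos
  rw [nm_apply, ← mul_assoc, ← ps_tau hC _ (CS_le_AL _ _ (J_pow hC h hJ))] at h2
  rw [h0, zero_smul, LinearMap.id_apply] at hκ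
  rw [← hκ, zero_mul, map_zero] at h2
  exact h2.false

theorem O2_rel (h : Fam X b F g) {m : ℕ} {J : Sub k (PJ P m)} {l : EE C X}
    (hlA : l ∈ Alg C X h.irr) (hq2 : cy C (Om X X m) J * ((HH C X m - pl C (pP X X m) l) *
      (HH C X m - pl C (pQ X X m) l)) ∈ BD C X m g)
    (hz : ∀ x y, ps C (pP X X m) (cy C (Om X X m) J * (pl C (pP X X m) x * pl C (pQ X X m) y)) = 0)
    (hd : cy C (Om X X m) J * HH C X m ^ (m + 1) * pl C (pP X X m) l ∈ CS C (Om X X m) fun U =>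
      Van (U : Set ((PJ P m).Pt k)) (rename (cp k P m).ε g) ∨
        ∀ z ∈ U, (cp k P m).pr z = (cq k P m).pr z) {κ : ℚ} (h0 : κ ≠ 0)
    (hκ : ps C (pP X X m) (cy C (Om X X m) J * HH C X m ^ (m + 1)) = κ • (1 : EE C X))
    {x : EE C X} (hx : x ∈ AL C X) : l * (x - ∑ a ∈ Finset.range (m + 1),
      l ^ a * (κ⁻¹ • EJ C X J) (l ^ (m - a) * x)) ∈ CS C X (Vt b) := by
  have hΩ := om_irr h.irr h.irr m
  have hp : ∀ {y}, y ∈ Alg C X h.irr → pl C (pP X X m) y ∈ Alg C _ hΩ := pl_AL _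
  have hq : ∀ {y}, y ∈ Alg C X h.irr → pl C (pQ X X m) y ∈ Alg C _ hΩ := pl_AL _
  have hH : HH C X m ∈ Alg C _ hΩ := O2_AL X m
  have hω : cy C (Om X X m) J ∈ Alg C _ hΩ := cy_AL _ _
  obtain ⟨Q, hQ, e⟩ := join_pow (HH C X m) (pl C (pP X X m) l) (pl C (pQ X X m) l) m
  replace hQ : Q ∈ Alg C _ hΩ := (Subring.closure_le (t := (Alg C _ hΩ).toSubring)).2 (by
    rintro _ (rfl | rfl | rfl)
    exacts [hH, hp hlA, hq hlA]) hQ
  have h1 : ps C (pP X X m) (cy C _ J * HH C X m ^ (m + 1) * pl C (pQ X X m) x) -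
      ∑ a ∈ Finset.range (m + 1), l ^ a * EJ C X J (l ^ (m - a) * x) ∈ CS C X (Vt b) := by
    have e1 : cy C _ J * HH C X m ^ (m + 1) * pl C (pQ X X m) x =
        ∑ a ∈ Finset.range (m + 1), cy C _ J * HH C X m * pl C (pQ X X m) (l ^ (m - a) * x) *
          pl C (pP X X m) (l ^ a) + (cy C _ J * (pl C (pP X X m) (l ^ (m + 1)) * pl C (pQ X X m) x) -
          ∑ a ∈ Finset.range (m + 1), cy C _ J * (pl C (pP X X m) (l ^ (a + 1)) *
            pl C (pQ X X m) (l ^ (m - a) * x))) + cy C _ J * ((HH C X m - pl C (pP X X m) l) *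
          (HH C X m - pl C (pQ X X m) l)) * (Q * pl C (pQ X X m) x) := by
      rw [e]
      simp only [map_mul, map_pow, mul_add, add_mul, mul_sub, sub_mul, Finset.sum_mul,
        Finset.mul_sum]
      refine congrArg₂ _ (congrArg₂ _ (Finset.sum_congr rfl fun a _ => by ring) (congrArg₂ _
        (by ring) (Finset.sum_congr rfl fun a _ => by ring))) (by ring)
    rw [e1, map_add, map_add, map_sub, map_sum, map_sum, hz,
      Finset.sum_congr rfl fun a _ => hz _ _, Finset.sum_const_zero, sub_zero, add_zero,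
      Finset.sum_congr rfl fun a _ => (ps_mul hC _ (AL_mul _ (AL_mul _ hω hH)
        (hq (mul_mem (pow_mem hlA _) hx))) _).trans (mul_comm _ _)]
    simp only [EJ_apply, add_sub_cancel_left]
    exact ps_vt hC h (BD_mul hC h hq2 (AL_mul _ hQ (hq hx)))
  have h2 : ps C (pP X X m) (cy C _ J * HH C X m ^ (m + 1) * pl C (pP X X m) l *
      (pl C (pQ X X m) x - pl C (pP X X m) x)) ∈ CS C X (Vt b) := by
    refine ps_vt hC h (O2_ind hd fun U hU h2 => h2.elim (fun h2 =>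
      BD_mul hC h (num2_cy_mem _ hU h2) (sub_mem (hq hx) (hp hx))) fun h2 => ?_)
    rw [mul_sub, ← cy_pl_congr hC (pP X X m) (pQ X X m) hU h2, sub_self]
    exact zero_mem _
  have hw := mul_mem hω (pow_mem hH (m + 1))
  rw [mul_sub, map_sub, mul_right_comm, ps_mul hC _ (AL_mul _ hw (hq hx)),
    ps_mul hC _ (AL_mul _ hw (hp hlA)), ps_mul hC _ hw, hκ] at h2
  have h3 := Submodule.smul_mem _ κ⁻¹ (sub_mem (CS_mul_AL hC X h.irr (fun _ _ => Vt.mono) h1 hlA) h2)
  refine (congrArg (· ∈ _) ?_).mp h3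
  simp only [LinearMap.smul_apply, mul_smul_comm, ← Finset.smul_sum]
  rw [sub_mul, sub_sub_sub_cancel_left, smul_sub, smul_mul_assoc, smul_mul_assoc, smul_smul,
    inv_mul_cancel₀ h0, one_smul, one_mul, mul_sub, mul_smul_comm, mul_comm _ l]

theorem EJ_rel (h : Fam X b F g) (hJ : Jn X b F g j J Y) : ∃ κ : ℚ, ∀ x ∈ AL C X,
    ln C X (F j).a * (x - ∑ a ∈ Finset.range ((F j).m + 1),
      ln C X (F j).a ^ a * (κ • EJ C X J) (ln C X (F j).a ^ ((F j).m - a) * x)) ∈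
        CS C X (Vt b) := by
  obtain ⟨κ, h0, hκ⟩ := J_kappa hC h hJ
  exact ⟨κ⁻¹, fun x hx =>
    O2_rel hC h (ln_AL _ _) (J_quad hC h hJ) (J_zero hC h hJ) (J_diag hC h hJ) h0 hκ hx⟩

end Pool.Agent.Work.MP_ffcd14_ag.Dg
end
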